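import Pool.Graph.R_pool_sql_team_seeded_b3bd081e.H518R3.LP2
import Pool.Graph.R_seed8.H212R2.KLS.T1

/-! Fibre translations in `(Fin m → ℝ) × ℝ` and the `L^p` Mahler functional
(after `H518R3.LP.LP3`, `LP4`, which treat the shears of the plane). -/

set_option autoImplicit false

open MeasureTheory Set Filter
open scoped ENNReal Topology

namespace Pool.Agent.H5.LP

variable {m : ℕ}

/-- the space `ℝ^m × ℝ` -/
abbrev X (m : ℕ) := (Fin m → ℝ) × ℝ

/-- Laplace transform of `K` -/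
noncomputable def Jx (p : ℝ) (K : Set (X m)) (y : X m) : ℝ≥0∞ :=
  ∫⁻ x in K, ENNReal.ofReal (Real.exp (p * (∑ i, x.1 i * y.1 i + x.2 * y.2)))

/-- the functional, with shift `ξ` -/
noncomputable def Ix (p : ℝ) (K : Set (X m)) (ξ : X m) : ℝ≥0∞ :=
  ∫⁻ y : X m, ENNReal.ofReal (Real.exp (∑ i, ξ.1 i * y.1 i + ξ.2 * y.2)) *
    ((Jx p K y) ^ (1 / p))⁻¹

/-- the fibre translation -/
def sh (β : (Fin m → ℝ) → ℝ) (t : ℝ) (x : X m) : X m := (x.1, x.2 + t * β x.1)

lemma sh_meas {β : (Fin m → ℝ) → ℝ} (hβ : Measurable β) (t : ℝ) : Measurable (sh β t) := by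
  unfold sh
  exact measurable_fst.prodMk (measurable_snd.add ((hβ.comp measurable_fst).const_mul t))

lemma sh_inv (β : (Fin m → ℝ) → ℝ) (t : ℝ) (x : X m) : sh β (-t) (sh β t x) = x := by
  unfold sh
  ext
  · rfl
  · show x.2 + t * β x.1 + -t * β x.1 = x.2
    ring

lemma sh_inv' (β : (Fin m → ℝ) → ℝ) (t : ℝ) (x : X m) : sh β t (sh β (-t) x) = x := by
  have := sh_inv β (-t) x
  rwa [neg_neg] at this

def shEquiv {β : (Fin m → ℝ) → ℝ} (hβ : Measurable β) (t : ℝ) : (X m) ≃ᵐ (X m) where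
  toFun := sh β t
  invFun := sh β (-t)
  left_inv := sh_inv β t
  right_inv := sh_inv' β t
  measurable_toFun := sh_meas hβ t
  measurable_invFun := sh_meas hβ (-t)

lemma sh_mp {β : (Fin m → ℝ) → ℝ} (hβ : Measurable β) (t : ℝ) :
    MeasurePreserving (sh β t) volume volume := by
  have h := (MeasurePreserving.id (volume : Measure (Fin m → ℝ))).skew_product
    (g := fun (a : Fin m → ℝ) (b : ℝ) => b + t * β a) (μc := (volume : Measure ℝ))
    (μd := (volume : Measure ℝ)) (by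
      show Measurable fun q : (Fin m → ℝ) × ℝ => q.2 + t * β q.1
      exact measurable_snd.add ((hβ.comp measurable_fst).const_mul t))
      (Eventually.of_forall fun a => by
      have := measurePreserving_add_right (volume : Measure ℝ) (t * β a)
      exact this.map_eq)
  exact h

lemma sh_image (β : (Fin m → ℝ) → ℝ) (t : ℝ) (K : Set (X m)) :
    sh β t '' K = sh β (-t) ⁻¹' K := by
  ext x
  constructor
  · rintro ⟨z, hz, rfl⟩
    show sh β (-t) (sh β t z) ∈ K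
    rwa [sh_inv]
  · intro hx
    exact ⟨sh β (-t) x, hx, sh_inv' β t x⟩

lemma sh_lintegral {β : (Fin m → ℝ) → ℝ} (hβ : Measurable β) (t : ℝ) (K : Set (X m))
    (f : X m → ℝ≥0∞) :
    ∫⁻ x in sh β t '' K, f x = ∫⁻ x in K, f (sh β t x) := by
  have h := (sh_mp hβ t).setLIntegral_comp_preimage_emb (shEquiv hβ t).measurableEmbedding f
    (sh β t '' K)
  rw [preimage_image_eq K (fun x y hxy => by
    have := congrArg (sh β (-t)) hxy
    rwa [sh_inv, sh_inv] at this)] at h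
  exact h.symm

lemma sh_volume {β : (Fin m → ℝ) → ℝ} (hβ : Measurable β) (t : ℝ) (K : Set (X m)) :
    volume (sh β t '' K) = volume K := by
  have h := (sh_mp hβ (-t)).measure_preimage_equiv (f := shEquiv hβ (-t)) K
  rw [sh_image]
  exact h

/-- three parameter Laplace transform -/
noncomputable def Jt (p : ℝ) (β : (Fin m → ℝ) → ℝ) (K : Set (X m)) (a : ℝ) (b : Fin m → ℝ)
    (s : ℝ) : ℝ≥0∞ :=
  ∫⁻ x in K, ENNReal.ofReal (Real.exp (p * (∑ i, x.1 i * b i + x.2 * a + s * β x.1)))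

lemma J_sh {β : (Fin m → ℝ) → ℝ} (hβ : Measurable β) (p t : ℝ) (K : Set (X m)) (y : X m) :
    Jx p (sh β t '' K) y = Jt p β K y.2 y.1 (t * y.2) := by
  unfold Jx Jt
  rw [sh_lintegral hβ]
  refine lintegral_congr fun x => ?_
  congr 3
  show ∑ i, x.1 i * y.1 i + (x.2 + t * β x.1) * y.2 = _
  ring

section

variable {p : ℝ} {K : Set (X m)} {β : (Fin m → ℝ) → ℝ}

lemma dot_cont (b : Fin m → ℝ) : Continuous fun x : X m => ∑ i, x.1 i * b i := by fun_prop

lemma Jt_meas_integrand (hβ : Measurable β) (p a : ℝ) (b : Fin m → ℝ) (s : ℝ) :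
    Measurable fun x : X m =>
      ENNReal.ofReal (Real.exp (p * (∑ i, x.1 i * b i + x.2 * a + s * β x.1))) := by
  apply Measurable.ennreal_ofReal
  apply Real.measurable_exp.comp
  apply Measurable.const_mul
  exact ((dot_cont b).measurable.add (measurable_snd.mul_const a)).add
    ((hβ.comp measurable_fst).const_mul s)

lemma Jt_pos (hβ : Measurable β) (hvol : volume K ≠ 0) (a : ℝ) (b : Fin m → ℝ) (s : ℝ) :
    Jt p β K a b s ≠ 0 := by
  unfold Jt
  intro h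
  rw [lintegral_eq_zero_iff (Jt_meas_integrand hβ p a b s)] at h
  apply hvol
  have h2 : ∀ᵐ x ∂(volume.restrict K), False := by
    filter_upwards [h] with x hx
    have : 0 < ENNReal.ofReal (Real.exp (p * (∑ i, x.1 i * b i + x.2 * a + s * β x.1))) :=
      ENNReal.ofReal_pos.2 (Real.exp_pos _)
    exact this.ne' hx
  have h3 := ae_eq_bot.1 (eventually_false_iff_eq_bot.1 h2)
  rwa [Measure.restrict_eq_zero] at h3

lemma Jt_cmp (hβ : Measurable β) (hp : 0 < p) {M : ℝ} (hM : ∀ x ∈ K, |x.2| ≤ M ∧ |β x.1| ≤ M)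
    (hKm : MeasurableSet K) (a : ℝ) (b : Fin m → ℝ) (s a' s' : ℝ) :
    Jt p β K a b s ≤ ENNReal.ofReal (Real.exp (p * (M * (|a - a'| + |s - s'|)))) *
      Jt p β K a' b s' := by
  unfold Jt
  rw [← lintegral_const_mul _ (Jt_meas_integrand hβ p a' b s')]
  apply setLIntegral_mono' hKm
  intro x hx
  rw [← ENNReal.ofReal_mul (Real.exp_pos _).le, ← Real.exp_add]
  apply ENNReal.ofReal_le_ofReal
  apply Real.exp_le_exp.2
  rw [← mul_add]
  apply mul_le_mul_of_nonneg_left _ hp.le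
  have h1 : x.2 * (a - a') ≤ M * |a - a'| := by
    calc x.2 * (a - a') ≤ |x.2 * (a - a')| := le_abs_self _
      _ = |x.2| * |a - a'| := abs_mul _ _
      _ ≤ M * |a - a'| := mul_le_mul_of_nonneg_right (hM x hx).1 (abs_nonneg _)
  have h2 : (s - s') * β x.1 ≤ M * |s - s'| := by
    calc (s - s') * β x.1 ≤ |(s - s') * β x.1| := le_abs_self _
      _ = |β x.1| * |s - s'| := by rw [abs_mul, mul_comm]
      _ ≤ M * |s - s'| := mul_le_mul_of_nonneg_right (hM x hx).2 (abs_nonneg _)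
  nlinarith

lemma Jt_fin (hβ : Measurable β) (hp : 0 < p) (hK : IsCompact K) {M : ℝ}
    (hM : ∀ x ∈ K, |x.2| ≤ M ∧ |β x.1| ≤ M) (a : ℝ) (b : Fin m → ℝ) (s : ℝ) :
    Jt p β K a b s ≠ ∞ := by
  have h0 : Jt p β K a b 0 ≠ ∞ := by
    unfold Jt
    have hc : Continuous fun x : X m =>
        Real.exp (p * (∑ i, x.1 i * b i + x.2 * a)) := by
      fun_prop
    have := (hc.continuousOn.integrableOn_compact hK : IntegrableOn _ K volume)
    have h2 := this.2
    rw [hasFiniteIntegral_iff_ofReal (Eventually.of_forall fun a => (Real.exp_pos _).le)] at h2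
    simp only [zero_mul, add_zero]
    exact h2.ne
  have h1 := Jt_cmp hβ hp hM hK.measurableSet a b s a 0
  exact (lt_of_le_of_lt h1 (ENNReal.mul_lt_top ENNReal.ofReal_lt_top
    (lt_top_iff_ne_top.2 h0))).ne

lemma Jt_convex (hβ : Measurable β) (a : ℝ) (b : Fin m → ℝ) (s a' : ℝ) (b' : Fin m → ℝ) (s' : ℝ)
    {θ : ℝ} (h0 : 0 < θ) (h1 : θ < 1) :
    Jt p β K ((1 - θ) * a + θ * a') ((1 - θ) • b + θ • b') ((1 - θ) * s + θ * s') ≤
      (Jt p β K a b s) ^ (1 - θ) * (Jt p β K a' b' s') ^ θ := by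
  unfold Jt
  refine le_trans (le_of_eq ?_) (ENNReal.lintegral_mul_norm_pow_le
    (Jt_meas_integrand hβ p a b s).aemeasurable
    (Jt_meas_integrand hβ p a' b' s').aemeasurable
    (show 0 ≤ 1 - θ by linarith) h0.le (by ring))
  refine lintegral_congr fun x => ?_
  rw [ENNReal.ofReal_rpow_of_pos (Real.exp_pos _), ENNReal.ofReal_rpow_of_pos (Real.exp_pos _),
    ← ENNReal.ofReal_mul (by positivity), ← Real.exp_mul, ← Real.exp_mul, ← Real.exp_add]
  congr 2
  have e : ∑ i, x.1 i * ((1 - θ) • b + θ • b') i =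
      (1 - θ) * ∑ i, x.1 i * b i + θ * ∑ i, x.1 i * b' i := by
    rw [Finset.mul_sum, Finset.mul_sum, ← Finset.sum_add_distrib]
    refine Finset.sum_congr rfl fun i _ => ?_
    simp only [Pi.add_apply, Pi.smul_apply, smul_eq_mul]
    ring
  rw [e]
  ring

/-- the reciprocal power -/
noncomputable def G (p : ℝ) (β : (Fin m → ℝ) → ℝ) (K : Set (X m)) (a : ℝ) (b : Fin m → ℝ)
    (s : ℝ) : ℝ≥0∞ := ((Jt p β K a b s) ^ (1 / p))⁻¹

lemma G_cmp (hβ : Measurable β) (hp : 0 < p) {M : ℝ} (hM : ∀ x ∈ K, |x.2| ≤ M ∧ |β x.1| ≤ M)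
    (hKm : MeasurableSet K) (a : ℝ) (b : Fin m → ℝ) (s a' s' : ℝ) :
    G p β K a b s ≤ ENNReal.ofReal (Real.exp (M * (|a - a'| + |s - s'|))) * G p β K a' b s' := by
  unfold G
  have h1 := Jt_cmp hβ hp hM hKm a' b s' a s
  have hp' : 0 < 1 / p := by positivity
  have h2 : (Jt p β K a' b s') ^ (1 / p) ≤
      ENNReal.ofReal (Real.exp (M * (|a - a'| + |s - s'|))) * (Jt p β K a b s) ^ (1 / p) := by
    calc (Jt p β K a' b s') ^ (1 / p)
        ≤ (ENNReal.ofReal (Real.exp (p * (M * (|a' - a| + |s' - s|)))) *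
          Jt p β K a b s) ^ (1 / p) := ENNReal.rpow_le_rpow h1 hp'.le
      _ = _ := by
          rw [ENNReal.mul_rpow_of_nonneg _ _ hp'.le, ENNReal.ofReal_rpow_of_pos (Real.exp_pos _),
            ← Real.exp_mul, abs_sub_comm a' a, abs_sub_comm s' s]
          congr 3
          field_simp
  set E := ENNReal.ofReal (Real.exp (M * (|a - a'| + |s - s'|))) with hE
  have hE0 : E ≠ 0 := (ENNReal.ofReal_pos.2 (Real.exp_pos _)).ne'
  have hEt : E ≠ ∞ := ENNReal.ofReal_ne_top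
  calc ((Jt p β K a b s) ^ (1 / p))⁻¹ = E * (E * (Jt p β K a b s) ^ (1 / p))⁻¹ := by
        rw [ENNReal.mul_inv (Or.inl hE0) (Or.inl hEt), ← mul_assoc,
          ENNReal.mul_inv_cancel hE0 hEt, one_mul]
    _ ≤ E * ((Jt p β K a' b s') ^ (1 / p))⁻¹ := by
        gcongr

lemma G_conc (hβ : Measurable β) (hp : 0 < p) (hvol : volume K ≠ 0) (hK : IsCompact K) {M : ℝ}
    (hM : ∀ x ∈ K, |x.2| ≤ M ∧ |β x.1| ≤ M) (a : ℝ) (b : Fin m → ℝ) (s a' : ℝ)
    (b' : Fin m → ℝ) (s' : ℝ) {θ : ℝ} (h0 : 0 < θ) (h1 : θ < 1) :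
    (G p β K a b s) ^ (1 - θ) * (G p β K a' b' s') ^ θ ≤
      G p β K ((1 - θ) * a + θ * a') ((1 - θ) • b + θ • b') ((1 - θ) * s + θ * s') := by
  unfold G
  have hp' : 0 < 1 / p := by positivity
  have h2 := ENNReal.rpow_le_rpow (Jt_convex (p := p) (K := K) hβ a b s a' b' s' h0 h1) hp'.le
  have h3 := ENNReal.inv_le_inv.2 h2
  refine le_trans (le_of_eq ?_) h3
  have hj0 := Jt_pos (p := p) hβ hvol a b s
  have hjt := Jt_fin (p := p) hβ hp hK hM a b s
  have hj0' := Jt_pos (p := p) hβ hvol a' b' s'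
  have hjt' := Jt_fin (p := p) hβ hp hK hM a' b' s'
  have hth : 0 < 1 - θ := by linarith
  have e1 : Jt p β K a b s ^ (1 - θ) ≠ 0 := by simp [ENNReal.rpow_eq_zero_iff, hj0, hjt]
  have e2 : Jt p β K a b s ^ (1 - θ) ≠ ∞ := ENNReal.rpow_ne_top_of_nonneg hth.le hjt
  have k : ∀ (A : ℝ≥0∞) (q : ℝ), (A ^ (1 / p))⁻¹ ^ q = ((A ^ q) ^ (1 / p))⁻¹ := by
    intro A q
    rw [ENNReal.inv_rpow, ← ENNReal.rpow_mul, ← ENNReal.rpow_mul, mul_comm]
  have e3 : (Jt p β K a b s ^ (1 - θ)) ^ (1 / p) ≠ 0 := by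
    rw [← ENNReal.rpow_mul]
    simp [ENNReal.rpow_eq_zero_iff, hj0, hjt]
  have e4 : (Jt p β K a b s ^ (1 - θ)) ^ (1 / p) ≠ ∞ := ENNReal.rpow_ne_top_of_nonneg hp'.le e2
  rw [k, k, ENNReal.mul_rpow_of_nonneg _ _ hp'.le, ENNReal.mul_inv (Or.inl e3) (Or.inl e4)]

end

end Pool.Agent.H5.LP
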