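import Pool.Agent.H5.LP.A1

/-! The key inequality along a fibre translation. -/

set_option autoImplicit false

open MeasureTheory Set Filter
open scoped ENNReal Topology

namespace Pool.Agent.H5.LP

open Pool.Agent.H518R3.LP (Nice key2)

variable {m : ℕ} {p : ℝ} {K : Set (X m)} {β : (Fin m → ℝ) → ℝ}

/-- the parameter space -/
abbrev Q (m : ℕ) := ℝ × (Fin m → ℝ) × ℝ

lemma Jt_meas (hβ : Measurable β) (p : ℝ) (K : Set (X m)) :
    Measurable fun q : Q m => Jt p β K q.1 q.2.1 q.2.2 := by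
  have h : Measurable fun w : (Q m) × (X m) =>
      ENNReal.ofReal (Real.exp (p * (∑ i, w.2.1 i * w.1.2.1 i + w.2.2 * w.1.1 +
        w.1.2.2 * β w.2.1))) := by
    apply Measurable.ennreal_ofReal
    apply Real.measurable_exp.comp
    apply Measurable.const_mul
    have h1 : Continuous fun w : (Q m) × (X m) => ∑ i, w.2.1 i * w.1.2.1 i + w.2.2 * w.1.1 := by
      fun_prop
    have h2 : Measurable fun w : (Q m) × (X m) => w.1.2.2 * β w.2.1 := by
      have h3 : Measurable fun w : (Q m) × (X m) => w.1.2.2 := by fun_prop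
      have h4 : Measurable fun w : (Q m) × (X m) => w.2.1 := by fun_prop
      exact h3.mul (hβ.comp h4)
    exact h1.measurable.add h2
  exact h.lintegral_prod_right' (ν := (volume : Measure (X m)).restrict K)

lemma G_meas (hβ : Measurable β) (p : ℝ) (K : Set (X m)) :
    Measurable fun q : Q m => G p β K q.1 q.2.1 q.2.2 := by
  unfold G
  exact ((Jt_meas hβ p K).pow_const _).inv

/-- integral over the directions transversal to the fibres -/
noncomputable def g (p : ℝ) (β : (Fin m → ℝ) → ℝ) (K : Set (X m)) (ξ1 : Fin m → ℝ) (a s : ℝ) :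
    ℝ≥0∞ :=
  ∫⁻ b : Fin m → ℝ, ENNReal.ofReal (Real.exp (∑ i, ξ1 i * b i)) * G p β K a b s

lemma g_integrand_meas (hβ : Measurable β) (p : ℝ) (K : Set (X m)) (ξ1 : Fin m → ℝ) (a s : ℝ) :
    Measurable fun b : Fin m → ℝ =>
      ENNReal.ofReal (Real.exp (∑ i, ξ1 i * b i)) * G p β K a b s := by
  apply Measurable.mul
  · apply Measurable.ennreal_ofReal
    apply Continuous.measurable
    fun_prop
  · have h1 : Measurable fun b : Fin m → ℝ => ((a, b, s) : Q m) := by fun_prop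
    have h2 : Measurable ((fun q : Q m => G p β K q.1 q.2.1 q.2.2) ∘
        fun b : Fin m → ℝ => ((a, b, s) : Q m)) := Measurable.comp (G_meas hβ p K) h1
    simpa only [Function.comp_def] using h2

lemma g_cmp (hβ : Measurable β) (hp : 0 < p) {M : ℝ} (hM : ∀ x ∈ K, |x.2| ≤ M ∧ |β x.1| ≤ M)
    (hKm : MeasurableSet K) (ξ1 : Fin m → ℝ) (a s a' s' : ℝ) :
    g p β K ξ1 a s ≤
      ENNReal.ofReal (Real.exp (M * (|a - a'| + |s - s'|))) * g p β K ξ1 a' s' := by
  unfold g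
  rw [← lintegral_const_mul _ (g_integrand_meas hβ p K ξ1 a' s')]
  apply lintegral_mono
  intro b
  show _ ≤ ENNReal.ofReal (Real.exp (M * (|a - a'| + |s - s'|))) *
    (ENNReal.ofReal (Real.exp (∑ i, ξ1 i * b i)) * G p β K a' b s')
  calc ENNReal.ofReal (Real.exp (∑ i, ξ1 i * b i)) * G p β K a b s
      ≤ ENNReal.ofReal (Real.exp (∑ i, ξ1 i * b i)) *
        (ENNReal.ofReal (Real.exp (M * (|a - a'| + |s - s'|))) * G p β K a' b s') := by
        gcongr
        exact G_cmp hβ hp hM hKm a b s a' s'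
    _ = _ := by ring

lemma g_pos (hβ : Measurable β) (hp : 0 < p) (hK : IsCompact K) {M : ℝ}
    (hM : ∀ x ∈ K, |x.2| ≤ M ∧ |β x.1| ≤ M) (ξ1 : Fin m → ℝ) (a s : ℝ) :
    g p β K ξ1 a s ≠ 0 := by
  unfold g
  intro h
  rw [lintegral_eq_zero_iff (g_integrand_meas hβ p K ξ1 a s)] at h
  have h2 : ∀ᵐ b : Fin m → ℝ, False := by
    filter_upwards [h] with b hb
    have h3 : ENNReal.ofReal (Real.exp (∑ i, ξ1 i * b i)) ≠ 0 :=
      (ENNReal.ofReal_pos.2 (Real.exp_pos _)).ne'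
    have h4 : G p β K a b s ≠ 0 := by
      unfold G
      apply ENNReal.inv_ne_zero.2
      exact ENNReal.rpow_ne_top_of_nonneg (by positivity) (Jt_fin hβ hp hK hM a b s)
    exact (mul_ne_zero h3 h4) hb
  have h3 := ae_eq_bot.1 (eventually_false_iff_eq_bot.1 h2)
  have h4 : (volume : Measure (Fin m → ℝ)) univ = 0 := by rw [h3]; rfl
  exact (IsOpen.measure_pos volume isOpen_univ univ_nonempty).ne' h4

lemma g_conc (hβ : Measurable β) (hp : 0 < p) (hvol : volume K ≠ 0) (hK : IsCompact K) {M : ℝ}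
    (hM : ∀ x ∈ K, |x.2| ≤ M ∧ |β x.1| ≤ M) (ξ1 : Fin m → ℝ) (a s a' s' : ℝ) {θ : ℝ}
    (h0 : 0 < θ) (h1 : θ < 1) :
    (g p β K ξ1 a s) ^ (1 - θ) * (g p β K ξ1 a' s') ^ θ ≤
      g p β K ξ1 ((1 - θ) * a + θ * a') ((1 - θ) * s + θ * s') := by
  unfold g
  refine Pool.Agent.H212R2.KLS.PLt.pln θ h0 h1 m _ _ _ (g_integrand_meas hβ p K ξ1 a s)
    (g_integrand_meas hβ p K ξ1 a' s') (g_integrand_meas hβ p K ξ1 _ _) ?_
  intro b b'
  have hth : 0 < 1 - θ := by linarith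
  have h2 := G_conc hβ hp hvol hK hM a b s a' b' s' h0 h1
  rw [ENNReal.mul_rpow_of_nonneg _ _ hth.le, ENNReal.mul_rpow_of_nonneg _ _ h0.le]
  have h3 : ENNReal.ofReal (Real.exp (∑ i, ξ1 i * b i)) ^ (1 - θ) *
      ENNReal.ofReal (Real.exp (∑ i, ξ1 i * b' i)) ^ θ =
      ENNReal.ofReal (Real.exp (∑ i, ξ1 i * ((1 - θ) • b + θ • b') i)) := by
    rw [ENNReal.ofReal_rpow_of_pos (Real.exp_pos _), ENNReal.ofReal_rpow_of_pos (Real.exp_pos _),
      ← ENNReal.ofReal_mul (by positivity), ← Real.exp_mul, ← Real.exp_mul, ← Real.exp_add]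
    congr 2
    rw [Finset.sum_mul, Finset.sum_mul, ← Finset.sum_add_distrib]
    refine Finset.sum_congr rfl fun i _ => ?_
    simp only [Pi.add_apply, Pi.smul_apply, smul_eq_mul]
    ring
  calc _ = (ENNReal.ofReal (Real.exp (∑ i, ξ1 i * b i)) ^ (1 - θ) *
        ENNReal.ofReal (Real.exp (∑ i, ξ1 i * b' i)) ^ θ) *
        (G p β K a b s ^ (1 - θ) * G p β K a' b' s' ^ θ) := by ring
    _ ≤ _ := by
        rw [h3]
        gcongr

/-- the exponent -/
noncomputable def U (p : ℝ) (β : (Fin m → ℝ) → ℝ) (K : Set (X m)) (ξ : X m) (z : ℝ × ℝ) : ℝ :=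
  Real.log (g p β K ξ.1 z.1 z.2).toReal + ξ.2 * z.1

lemma U_nice (hβ : Measurable β) (hp : 0 < p) (hvol : volume K ≠ 0) (hK : IsCompact K) {M : ℝ}
    (hM0 : 0 ≤ M) (hM : ∀ x ∈ K, |x.2| ≤ M ∧ |β x.1| ≤ M) (ξ : X m)
    (hfin : ∀ a s, g p β K ξ.1 a s ≠ ∞) : Nice (U p β K ξ) (M + |ξ.2|) where
  M0 := by positivity
  lip := by
    have hpos : ∀ a s, 0 < (g p β K ξ.1 a s).toReal := fun a s =>
      ENNReal.toReal_pos (g_pos hβ hp hK hM _ _ _) (hfin a s)
    have h1 : ∀ z z' : ℝ × ℝ, Real.log (g p β K ξ.1 z.1 z.2).toReal -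
        Real.log (g p β K ξ.1 z'.1 z'.2).toReal ≤ M * (|z.1 - z'.1| + |z.2 - z'.2|) := by
      intro z z'
      have h2 := g_cmp hβ hp hM hK.measurableSet ξ.1 z.1 z.2 z'.1 z'.2
      have h3 := ENNReal.toReal_mono (ENNReal.mul_ne_top ENNReal.ofReal_ne_top (hfin _ _)) h2
      rw [ENNReal.toReal_mul, ENNReal.toReal_ofReal (Real.exp_pos _).le] at h3
      have h4 := Real.log_le_log (hpos _ _) h3
      rw [Real.log_mul (Real.exp_pos _).ne' (hpos _ _).ne', Real.log_exp] at h4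
      linarith
    intro z z'
    unfold U
    have h2 := h1 z z'
    have h3 := h1 z' z
    rw [abs_sub_comm z'.1 z.1, abs_sub_comm z'.2 z.2] at h3
    have h4 : |ξ.2 * z.1 - ξ.2 * z'.1| ≤ |ξ.2| * (|z.1 - z'.1| + |z.2 - z'.2|) := by
      rw [← mul_sub, abs_mul]
      apply mul_le_mul_of_nonneg_left _ (abs_nonneg _)
      linarith [abs_nonneg (z.2 - z'.2)]
    rw [abs_le] at h4 ⊢
    constructor
    · linarith [h4.1]
    · linarith [h4.2]
  conc := by
    have hpos : ∀ a s, 0 < (g p β K ξ.1 a s).toReal := fun a s =>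
      ENNReal.toReal_pos (g_pos hβ hp hK hM _ _ _) (hfin a s)
    rw [concaveOn_iff_forall_pos]
    refine ⟨convex_univ, ?_⟩
    intro z _ z' _ a b ha hb hab
    have ha' : a = 1 - b := by linarith
    subst ha'
    have hb1 : b < 1 := by linarith
    have h1 := g_conc hβ hp hvol hK hM ξ.1 z.1 z.2 z'.1 z'.2 hb hb1
    have h2 := ENNReal.toReal_mono (hfin _ _) h1
    rw [ENNReal.toReal_mul, ← ENNReal.toReal_rpow, ← ENNReal.toReal_rpow] at h2
    have h3 := Real.log_le_log (by have := hpos z.1 z.2; have := hpos z'.1 z'.2; positivity) h2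
    rw [Real.log_mul (Real.rpow_pos_of_pos (hpos _ _) _).ne'
      (Real.rpow_pos_of_pos (hpos _ _) _).ne', Real.log_rpow (hpos _ _),
      Real.log_rpow (hpos _ _)] at h3
    unfold U
    simp only [smul_eq_mul, Prod.fst_add, Prod.snd_add, Prod.smul_fst, Prod.smul_snd]
    linarith

lemma exp_U (hβ : Measurable β) (hp : 0 < p) (hK : IsCompact K) {M : ℝ}
    (hM : ∀ x ∈ K, |x.2| ≤ M ∧ |β x.1| ≤ M) (ξ : X m)
    (hfin : ∀ a s, g p β K ξ.1 a s ≠ ∞) (z : ℝ × ℝ) :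
    ENNReal.ofReal (Real.exp (U p β K ξ z)) =
      ENNReal.ofReal (Real.exp (ξ.2 * z.1)) * g p β K ξ.1 z.1 z.2 := by
  unfold U
  have hpos : 0 < (g p β K ξ.1 z.1 z.2).toReal :=
      ENNReal.toReal_pos (g_pos hβ hp hK hM _ _ _) (hfin _ _)
  rw [Real.exp_add, Real.exp_log hpos, mul_comm, ENNReal.ofReal_mul (Real.exp_pos _).le,
    ENNReal.ofReal_toReal (hfin _ _)]

lemma I_sh (hβ : Measurable β) (p t : ℝ) (K : Set (X m)) (ξ : X m) :
    Ix p (sh β t '' K) ξ =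
      ∫⁻ a : ℝ, ENNReal.ofReal (Real.exp (ξ.2 * a)) * g p β K ξ.1 a (t * a) := by
  unfold Ix
  have h1 : ∀ y : X m, ENNReal.ofReal (Real.exp (∑ i, ξ.1 i * y.1 i + ξ.2 * y.2)) *
      ((Jx p (sh β t '' K) y) ^ (1 / p))⁻¹ =
      ENNReal.ofReal (Real.exp (∑ i, ξ.1 i * y.1 i + ξ.2 * y.2)) *
        G p β K y.2 y.1 (t * y.2) := by
    intro y
    rw [J_sh hβ]
    rfl
  simp only [h1]
  have hm : Measurable fun y : X m =>
      ENNReal.ofReal (Real.exp (∑ i, ξ.1 i * y.1 i + ξ.2 * y.2)) *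
        G p β K y.2 y.1 (t * y.2) := by
    apply Measurable.mul
    · apply Measurable.ennreal_ofReal
      apply Continuous.measurable
      fun_prop
    · have h2 : Measurable fun y : X m => ((y.2, y.1, t * y.2) : Q m) := by fun_prop
      have h3 : Measurable ((fun q : Q m => G p β K q.1 q.2.1 q.2.2) ∘
        fun y : X m => ((y.2, y.1, t * y.2) : Q m)) := Measurable.comp (G_meas hβ p K) h2
      simpa only [Function.comp_def] using h3
  rw [Measure.volume_eq_prod, lintegral_prod_symm _ hm.aemeasurable]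
  refine lintegral_congr fun a => ?_
  unfold g
  rw [← lintegral_const_mul _ (g_integrand_meas hβ p K ξ.1 a (t * a))]
  refine lintegral_congr fun b => ?_
  show ENNReal.ofReal (Real.exp (∑ i, ξ.1 i * b i + ξ.2 * a)) * G p β K a b (t * a) = _
  rw [← mul_assoc, ← ENNReal.ofReal_mul (Real.exp_pos _).le, ← Real.exp_add, add_comm]

theorem sh_key (hβ : Measurable β) (hp : 0 < p) (hvol : volume K ≠ 0) (hK : IsCompact K)
    (hb : ∃ C : ℝ, ∀ x ∈ K, |β x.1| ≤ C) {t0 t1 t : ℝ}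
    (h0 : t0 ≤ t) (h1 : t ≤ t1) (ξ : X m) :
    ∃ ξ' : X m, Ix p (sh β t0 '' K) ξ' ≤ Ix p (sh β t '' K) ξ ∨
      Ix p (sh β t1 '' K) ξ' ≤ Ix p (sh β t '' K) ξ := by
  rcases eq_or_lt_of_le h0 with rfl | h0'
  · exact ⟨ξ, Or.inl le_rfl⟩
  rcases eq_or_lt_of_le h1 with rfl | h1'
  · exact ⟨ξ, Or.inr le_rfl⟩
  have h01 : t0 < t1 := h0'.trans h1'
  by_cases hI : Ix p (sh β t '' K) ξ = ∞
  · exact ⟨ξ, Or.inl (by rw [hI]; exact le_top)⟩
  obtain ⟨C, hC⟩ := hK.isBounded.exists_norm_le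
  obtain ⟨C', hC'⟩ := hb
  set M := max (max C C') 0 with hMdef
  have hM0 : 0 ≤ M := le_max_right _ _
  have hM : ∀ x ∈ K, |x.2| ≤ M ∧ |β x.1| ≤ M := by
    intro x hx
    have h2 := (hC x hx).trans ((le_max_left C C').trans (le_max_left _ 0))
    rw [Prod.norm_def] at h2
    exact ⟨(le_max_right _ _).trans h2,
      (hC' x hx).trans ((le_max_right C C').trans (le_max_left _ 0))⟩
  have hfin0 : ∃ a s, g p β K ξ.1 a s ≠ ∞ := by
    by_contra hcon
    apply hI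
    rw [I_sh hβ]
    have : ∀ a : ℝ, ENNReal.ofReal (Real.exp (ξ.2 * a)) * g p β K ξ.1 a (t * a) = ∞ := by
      intro a
      have h2 : g p β K ξ.1 a (t * a) = ∞ := by
        by_contra h3
        exact hcon ⟨a, t * a, h3⟩
      rw [h2]
      exact ENNReal.mul_top (ENNReal.ofReal_pos.2 (Real.exp_pos _)).ne'
    simp [this]
  obtain ⟨a0, s0, has⟩ := hfin0
  have hfin : ∀ a s, g p β K ξ.1 a s ≠ ∞ := by
    intro a s
    have h2 := g_cmp hβ hp hM hK.measurableSet ξ.1 a s a0 s0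
    exact (lt_of_le_of_lt h2 (ENNReal.mul_lt_top ENNReal.ofReal_lt_top
      (lt_top_iff_ne_top.2 has))).ne
  have hnice := U_nice hβ hp hvol hK hM0 hM ξ hfin
  set l := (t - t0) / (t1 - t0) with hl
  have hd : 0 < t1 - t0 := by linarith
  have hl0 : 0 < l := div_pos (by linarith) hd
  have hl1 : l < 1 := by
    rw [hl, div_lt_one hd]
    linarith
  have ht : t = (1 - l) * t0 + l * t1 := by
    rw [hl]
    field_simp
    ring
  obtain ⟨c, hc⟩ := key2 hnice h01 hl0 hl1 ht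
  have e : ∀ τ : ℝ, ∫⁻ a : ℝ, ENNReal.ofReal (Real.exp (U p β K ξ (a, τ * a) +
      c * ((τ - t) * a))) = Ix p (sh β τ '' K) (ξ.1, ξ.2 + c * (τ - t)) := by
    intro τ
    rw [I_sh hβ]
    refine lintegral_congr fun a => ?_
    rw [Real.exp_add, ENNReal.ofReal_mul (Real.exp_pos _).le, exp_U hβ hp hK hM ξ hfin]
    show ENNReal.ofReal (Real.exp (ξ.2 * a)) * g p β K ξ.1 a (τ * a) *
      ENNReal.ofReal (Real.exp (c * ((τ - t) * a))) =
      ENNReal.ofReal (Real.exp ((ξ.2 + c * (τ - t)) * a)) * g p β K ξ.1 a (τ * a)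
    have : Real.exp ((ξ.2 + c * (τ - t)) * a) =
        Real.exp (ξ.2 * a) * Real.exp (c * ((τ - t) * a)) := by
      rw [← Real.exp_add]
      congr 1
      ring
    rw [this, ENNReal.ofReal_mul (Real.exp_pos _).le]
    ring
  have et : ∫⁻ a : ℝ, ENNReal.ofReal (Real.exp (U p β K ξ (a, t * a))) =
      Ix p (sh β t '' K) ξ := by
    rw [I_sh hβ]
    refine lintegral_congr fun a => ?_
    rw [exp_U hβ hp hK hM ξ hfin]
  rw [e, e, et] at hc
  rcases hc with hc | hc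
  · exact ⟨_, Or.inl hc⟩
  · exact ⟨_, Or.inr hc⟩

end Pool.Agent.H5.LP
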