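import Pool.Agent.H5.LP.A2

/-! The functional on `Fin n → ℝ`, affine invariance. -/

set_option autoImplicit false

open MeasureTheory Set Filter
open scoped ENNReal Topology

namespace Pool.Agent.H5.LP

variable {n : ℕ}

/-- the space `ℝ^n` -/
abbrev V (n : ℕ) := Fin n → ℝ

/-- Laplace transform of `K` -/
noncomputable def J (p : ℝ) (K : Set (V n)) (y : V n) : ℝ≥0∞ :=
  ∫⁻ x in K, ENNReal.ofReal (Real.exp (p * ∑ i, x i * y i))

/-- the functional, with shift `ξ` -/
noncomputable def I (p : ℝ) (K : Set (V n)) (ξ : V n) : ℝ≥0∞ :=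
  ∫⁻ y : V n, ENNReal.ofReal (Real.exp (∑ i, ξ i * y i)) * ((J p K y) ^ (1 / p))⁻¹

/-- the affine invariant functional -/
noncomputable def Fu (p : ℝ) (K : Set (V n)) (ξ : V n) : ℝ≥0∞ :=
  (volume K) ^ (1 + 1 / p) * I p K ξ

/-- affine map -/
noncomputable def T (A : Matrix (Fin n) (Fin n) ℝ) (b : V n) (x : V n) : V n := A.mulVec x + b

lemma T_deriv (A : Matrix (Fin n) (Fin n) ℝ) (b x : V n) :
    HasFDerivAt (T A b) (LinearMap.toContinuousLinearMap (Matrix.toLin' A)) x := by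
  have h := (LinearMap.toContinuousLinearMap (Matrix.toLin' A)).hasFDerivAt (x := x)
  have h2 := h.add_const b
  refine h2.congr_of_eventuallyEq (Eventually.of_forall fun z => ?_)
  simp [T]

lemma T_inj {A : Matrix (Fin n) (Fin n) ℝ} (hA : A.det ≠ 0) (b : V n) :
    Function.Injective (T A b) := by
  intro x x' h
  unfold T at h
  have h2 := add_right_cancel h
  exact Matrix.mulVec_injective_of_isUnit ((Matrix.isUnit_iff_isUnit_det A).2 (isUnit_iff_ne_zero.2 hA)) h2

lemma T_surj {A : Matrix (Fin n) (Fin n) ℝ} (hA : A.det ≠ 0) (b : V n) :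
    Function.Surjective (T A b) := by
  intro z
  refine ⟨A⁻¹.mulVec (z - b), ?_⟩
  unfold T
  rw [Matrix.mulVec_mulVec, Matrix.mul_nonsing_inv A (isUnit_iff_ne_zero.2 hA), Matrix.one_mulVec]
  abel

lemma T_lintegral {A : Matrix (Fin n) (Fin n) ℝ} (hA : A.det ≠ 0) (b : V n) {K : Set (V n)}
    (hK : MeasurableSet K) (f : V n → ℝ≥0∞) :
    ∫⁻ x in T A b '' K, f x =
      ∫⁻ x in K, ENNReal.ofReal |A.det| * f (T A b x) := by
  rw [lintegral_image_eq_lintegral_abs_det_fderiv_mul volume hK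
    (fun x _ => (T_deriv A b x).hasFDerivWithinAt) ((T_inj hA b).injOn)]
  have : (LinearMap.toContinuousLinearMap (Matrix.toLin' A)).det = A.det := by
    rw [ContinuousLinearMap.det, LinearMap.coe_toContinuousLinearMap, LinearMap.det_toLin']
  rw [this]

lemma T_volume {A : Matrix (Fin n) (Fin n) ℝ} (hA : A.det ≠ 0) (b : V n) {K : Set (V n)}
    (hK : MeasurableSet K) :
    volume (T A b '' K) = ENNReal.ofReal |A.det| * volume K := by
  have h := T_lintegral hA b hK (fun _ => 1)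
  simp only [mul_one, lintegral_const, Measure.restrict_apply_univ, one_mul] at h
  exact h

lemma pair_mulVec (A : Matrix (Fin n) (Fin n) ℝ) (x y : V n) :
    ∑ i, (A.mulVec x) i * y i = ∑ i, x i * (A.transpose.mulVec y) i := by
  have h : (A.mulVec x) ⬝ᵥ y = x ⬝ᵥ (A.transpose.mulVec y) := by
    rw [Matrix.mulVec_transpose, dotProduct_comm x, ← Matrix.dotProduct_mulVec, dotProduct_comm]
  exact h

lemma T_pair (A : Matrix (Fin n) (Fin n) ℝ) (b x y : V n) :
    ∑ i, (T A b x) i * y i = ∑ i, x i * (T A.transpose 0 y) i + ∑ i, b i * y i := by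
  unfold T
  simp only [Pi.add_apply, add_mul, Finset.sum_add_distrib, Pi.zero_apply, add_zero]
  rw [pair_mulVec]

lemma J_T {A : Matrix (Fin n) (Fin n) ℝ} (hA : A.det ≠ 0) (b : V n) {K : Set (V n)}
    (hK : MeasurableSet K) (p : ℝ) (y : V n) :
    J p (T A b '' K) y = ENNReal.ofReal |A.det| *
      (ENNReal.ofReal (Real.exp (p * ∑ i, b i * y i)) * J p K (T A.transpose 0 y)) := by
  unfold J
  rw [T_lintegral hA b hK, lintegral_const_mul' _ _ ENNReal.ofReal_ne_top]
  congr 1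
  rw [← lintegral_const_mul' _ _ ENNReal.ofReal_ne_top]
  refine lintegral_congr fun x => ?_
  rw [T_pair, ← ENNReal.ofReal_mul (Real.exp_pos _).le, ← Real.exp_add]
  congr 2
  ring

lemma I_T {A : Matrix (Fin n) (Fin n) ℝ} (hA : A.det ≠ 0) (b : V n) {K : Set (V n)}
    (hK : MeasurableSet K) {p : ℝ} (hp : 0 < p) (η : V n) :
    (ENNReal.ofReal |A.det|) ^ (1 + 1 / p) * I p (T A b '' K) (T A b η) = I p K η := by
  have hp' : 0 < 1 / p := by positivity
  have hA' : A.transpose.det ≠ 0 := by rwa [Matrix.det_transpose]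
  set E := ENNReal.ofReal |A.det| with hE
  have hE0 : E ≠ 0 := (ENNReal.ofReal_pos.2 (abs_pos.2 hA)).ne'
  have hEt : E ≠ ∞ := ENNReal.ofReal_ne_top
  have h1 : I p K η = ∫⁻ y : V n, E *
      (ENNReal.ofReal (Real.exp (∑ i, η i * (T A.transpose 0 y) i)) *
        ((J p K (T A.transpose 0 y)) ^ (1 / p))⁻¹) := by
    have h := T_lintegral hA' (0 : V n) MeasurableSet.univ
      (fun z => ENNReal.ofReal (Real.exp (∑ i, η i * z i)) * ((J p K z) ^ (1 / p))⁻¹)
    rw [image_univ, (T_surj hA' 0).range_eq, setLIntegral_univ, setLIntegral_univ,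
      Matrix.det_transpose] at h
    exact h
  rw [h1]
  unfold I
  rw [lintegral_const_mul' _ _ hEt,
    ENNReal.rpow_add _ _ hE0 hEt, ENNReal.rpow_one, mul_assoc,
    ← lintegral_const_mul' _ _ (ENNReal.rpow_ne_top_of_nonneg hp'.le hEt)]
  congr 1
  refine lintegral_congr fun y => ?_
  rw [J_T hA b hK, ← hE]
  set Y := J p K (T A.transpose 0 y)
  have hF0 : ENNReal.ofReal (Real.exp (∑ i, b i * y i)) ≠ 0 :=
    (ENNReal.ofReal_pos.2 (Real.exp_pos _)).ne'
  have e1 : (E * (ENNReal.ofReal (Real.exp (p * ∑ i, b i * y i)) * Y)) ^ (1 / p) =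
      E ^ (1 / p) * (ENNReal.ofReal (Real.exp (∑ i, b i * y i)) * Y ^ (1 / p)) := by
    rw [ENNReal.mul_rpow_of_nonneg _ _ hp'.le, ENNReal.mul_rpow_of_nonneg _ _ hp'.le,
      ENNReal.ofReal_rpow_of_pos (Real.exp_pos _), ← Real.exp_mul]
    congr 4
    field_simp
  have hEp0 : E ^ (1 / p) ≠ 0 := by simp [ENNReal.rpow_eq_zero_iff, hE0, hEt]
  have hEpt : E ^ (1 / p) ≠ ∞ := ENNReal.rpow_ne_top_of_nonneg hp'.le hEt
  rw [e1, ENNReal.mul_inv (Or.inl hEp0) (Or.inl hEpt), ENNReal.mul_inv (Or.inl hF0)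
    (Or.inl ENNReal.ofReal_ne_top)]
  have e2 : Real.exp (∑ i, (T A b η) i * y i) =
      Real.exp (∑ i, η i * (T A.transpose 0 y) i) * Real.exp (∑ i, b i * y i) := by
    rw [← Real.exp_add, T_pair]
  rw [e2, ENNReal.ofReal_mul (Real.exp_pos _).le]
  set F := ENNReal.ofReal (Real.exp (∑ i, b i * y i))
  set F' := ENNReal.ofReal (Real.exp (∑ i, η i * (T A.transpose 0 y) i))
  calc E ^ (1 / p) * (F' * F * ((E ^ (1 / p))⁻¹ * (F⁻¹ * (Y ^ (1 / p))⁻¹)))
      = (E ^ (1 / p) * (E ^ (1 / p))⁻¹) * (F * F⁻¹) * (F' * (Y ^ (1 / p))⁻¹) := by ring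
    _ = F' * (Y ^ (1 / p))⁻¹ := by
        rw [ENNReal.mul_inv_cancel hEp0 hEpt, ENNReal.mul_inv_cancel hF0 ENNReal.ofReal_ne_top,
          one_mul, one_mul]

/-- the standard simplex -/
def Del (n : ℕ) : Set (V n) := {x | (∀ i, 0 ≤ x i) ∧ ∑ i, x i ≤ 1}

/-- the target value -/
noncomputable def Lam (n : ℕ) (p : ℝ) : ℝ≥0∞ := ⨅ ξ : V n, Fu p (Del n) ξ

/-- `K` satisfies the inequality -/
def Good (p : ℝ) (K : Set (V n)) : Prop := ∀ ξ : V n, Lam n p ≤ Fu p K ξ

lemma Fu_T {A : Matrix (Fin n) (Fin n) ℝ} (hA : A.det ≠ 0) (b : V n) {K : Set (V n)}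
    (hK : MeasurableSet K) {p : ℝ} (hp : 0 < p) (η : V n) :
    Fu p (T A b '' K) (T A b η) = Fu p K η := by
  have hp' : 0 < 1 / p := by positivity
  unfold Fu
  rw [T_volume hA b hK, ENNReal.mul_rpow_of_nonneg _ _ (by positivity), ← I_T hA b hK hp η]
  ring

lemma Good.image {A : Matrix (Fin n) (Fin n) ℝ} (hA : A.det ≠ 0) (b : V n) {K : Set (V n)}
    (hK : MeasurableSet K) {p : ℝ} (hp : 0 < p) (hg : Good p K) :
    Good p (T A b '' K) := by
  intro ξ
  obtain ⟨η, rfl⟩ := T_surj hA b ξ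
  rw [Fu_T hA b hK hp]
  exact hg η

lemma good_del (p : ℝ) : Good p (Del n) := fun ξ => iInf_le _ ξ

/-- invariance under affine automorphisms -/
lemma Good.affine {p : ℝ} (hp : 0 < p) (e : V n ≃ᵃ[ℝ] V n) {K : Set (V n)}
    (hK : MeasurableSet K) (hg : Good p K) : Good p (e '' K) := by
  set A := LinearMap.toMatrix' (e.linear : V n →ₗ[ℝ] V n) with hA
  have hdet : A.det ≠ 0 := by
    rw [hA, LinearMap.det_toMatrix']
    exact (LinearEquiv.isUnit_det' e.linear).ne_zero
  have h : T A (e 0) '' K = e '' K := by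
    apply image_congr
    intro x _
    unfold T
    have h1 := e.map_vadd 0 x
    rw [vadd_eq_add, add_zero, vadd_eq_add] at h1
    rw [h1]
    congr 1
    rw [hA, ← Matrix.toLin'_apply, Matrix.toLin'_toMatrix']
    rfl
  rw [← h]
  exact hg.image hdet _ hK hp

lemma Good.linear {p : ℝ} (hp : 0 < p) (e : V n ≃ₗ[ℝ] V n) {K : Set (V n)}
    (hK : MeasurableSet K) (hg : Good p K) : Good p (e '' K) :=
  hg.affine hp e.toAffineEquiv hK

lemma good_affine_iff {p : ℝ} (hp : 0 < p) (e : V n ≃ᵃ[ℝ] V n) {K : Set (V n)}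
    (hK : MeasurableSet K) : Good p (e '' K) ↔ Good p K := by
  constructor
  · intro h
    have hm : MeasurableSet (e '' K) := by
      have h1 : e '' K = e.symm ⁻¹' K := by
        ext x
        constructor
        · rintro ⟨z, hz, rfl⟩
          simpa using hz
        · intro hx
          exact ⟨e.symm x, hx, by simp⟩
      rw [h1]
      have hc : Continuous e.symm :=
        (AffineMap.continuous_of_finiteDimensional (e.symm : V n →ᵃ[ℝ] V n))
      exact hc.measurable hK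
    have h2 := h.affine hp e.symm hm
    have h3 : e.symm '' (e '' K) = K := by
      rw [image_image]
      simp
    rwa [h3] at h2
  · exact fun h => h.affine hp e hK

end Pool.Agent.H5.LP
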