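import Pool.Agent.H5.LP.A3

/-! Fibre translations of `ℝ^n` along a vector. -/

set_option autoImplicit false

open MeasureTheory Set Filter
open scoped ENNReal Topology

namespace Pool.Agent.H5.LP

/-! ### transport to `(Fin m → ℝ) × ℝ` -/

section transport

variable {m : ℕ}

/-- splitting off the last coordinate -/
def spl (m : ℕ) : V (m + 1) ≃ᵐ X m :=
  (MeasurableEquiv.piFinSuccAbove (fun _ => ℝ) (Fin.last m)).trans MeasurableEquiv.prodComm

lemma spl_apply (x : V (m + 1)) : spl m x = (fun i => x i.castSucc, x (Fin.last m)) := by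
  unfold spl
  ext i
  · simp [MeasurableEquiv.piFinSuccAbove, Fin.init, MeasurableEquiv.prodComm]
  · simp [MeasurableEquiv.piFinSuccAbove, MeasurableEquiv.prodComm]

lemma spl_mp : MeasurePreserving (spl m) volume volume := by
  unfold spl
  have h1 := volume_preserving_piFinSuccAbove (fun _ : Fin (m + 1) => ℝ) (Fin.last m)
  exact (Measure.measurePreserving_swap (μ := (volume : Measure ℝ))
    (ν := (volume : Measure (Fin m → ℝ)))).comp h1

lemma spl_pair (x y : V (m + 1)) :
    ∑ i, x i * y i = ∑ i, (spl m x).1 i * (spl m y).1 i + (spl m x).2 * (spl m y).2 := by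
  rw [Fin.sum_univ_castSucc, spl_apply, spl_apply]

lemma J_spl (p : ℝ) (K : Set (V (m + 1))) (y : V (m + 1)) :
    Jx p (spl m '' K) (spl m y) = J p K y := by
  unfold Jx J
  have h := (spl_mp (m := m)).setLIntegral_comp_preimage_emb (spl m).measurableEmbedding
    (fun x => ENNReal.ofReal (Real.exp (p * (∑ i, x.1 i * (spl m y).1 i + x.2 * (spl m y).2))))
    (spl m '' K)
  rw [preimage_image_eq K (spl m).injective] at h
  rw [← h]
  refine lintegral_congr fun x => ?_
  rw [spl_pair x y]

lemma I_spl (p : ℝ) (K : Set (V (m + 1))) (ξ : V (m + 1)) :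
    Ix p (spl m '' K) (spl m ξ) = I p K ξ := by
  unfold Ix I
  have h := (spl_mp (m := m)).lintegral_comp_emb (spl m).measurableEmbedding
    (fun y => ENNReal.ofReal (Real.exp (∑ i, (spl m ξ).1 i * y.1 i + (spl m ξ).2 * y.2)) *
      ((Jx p (spl m '' K) y) ^ (1 / p))⁻¹)
  rw [← h]
  refine lintegral_congr fun y => ?_
  rw [J_spl, spl_pair ξ y]

lemma volume_spl (K : Set (V (m + 1))) : volume (spl m '' K) = volume K := by
  have h := (spl_mp (m := m)).measure_preimage_equiv (spl m '' K)
  rw [preimage_image_eq K (spl m).injective] at h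
  exact h.symm

end transport

/-- translation of the points along `θ` -/
def shv {n : ℕ} (θ : V n) (β : V n → ℝ) (t : ℝ) (x : V n) : V n := x + (t * β x) • θ

lemma shv_last {m : ℕ} {β : V (m + 1) → ℝ}
    (hinv : ∀ (x : V _) (s : ℝ), β (x + s • (Pi.single (Fin.last m) 1 : V (m + 1))) = β x) (t : ℝ)
    (x : V (m + 1)) :
    spl m (shv (Pi.single (Fin.last m) 1) β t x) =
      sh (fun b => β (Fin.snoc b 0)) t (spl m x) := by
  have h1 : β (Fin.snoc (fun i => x (Fin.castSucc i)) 0 : V (m + 1)) = β x := by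
    have h2 := hinv x (-x (Fin.last m))
    rw [← h2]
    congr 1
    ext i
    refine Fin.lastCases ?_ (fun j => ?_) i
    · simp
    · simp
  unfold sh shv
  rw [spl_apply, spl_apply]
  ext i
  · simp
  · simp only [Pi.add_apply, Pi.smul_apply, Pi.single_eq_same, smul_eq_mul, mul_one]
    rw [h1]

lemma key_last {m : ℕ} {β : V (m + 1) → ℝ} {p : ℝ} {K : Set (V (m + 1))}
    (hβ : Measurable β) (hp : 0 < p)
    (hK : IsCompact K) (hb : ∃ C : ℝ, ∀ x ∈ K, |β x| ≤ C)
    (hinv : ∀ (x : V _) (s : ℝ), β (x + s • (Pi.single (Fin.last m) 1 : V (m + 1))) = β x) {t0 t1 t : ℝ}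
    (h0 : t0 ≤ t) (h1 : t ≤ t1)
    (g0 : Good p (shv (Pi.single (Fin.last m) 1) β t0 '' K))
    (g1 : Good p (shv (Pi.single (Fin.last m) 1) β t1 '' K)) :
    Good p (shv (Pi.single (Fin.last m) 1) β t '' K) := by
  set b' : (Fin m → ℝ) → ℝ := fun b => β (Fin.snoc b 0) with hb'
  have hb'm : Measurable b' := by
    apply hβ.comp
    rw [measurable_pi_iff]
    intro i
    refine Fin.lastCases ?_ (fun j => ?_) i
    · simp
    · simpa using measurable_pi_apply j
  have himg : ∀ τ, spl m '' (shv (Pi.single (Fin.last m) 1) β τ '' K) =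
      sh b' τ '' (spl m '' K) := by
    intro τ
    rw [image_image, image_image]
    exact image_congr fun x _ => shv_last hinv τ x
  have hvol : ∀ τ, volume (shv (Pi.single (Fin.last m) 1) β τ '' K) = volume K := by
    intro τ
    rw [← volume_spl, himg, sh_volume hb'm, volume_spl]
  have hcsp : Continuous (spl m) := by
    have : (spl m : V (m + 1) → X m) = fun x => (fun i => x i.castSucc, x (Fin.last m)) := by
      ext1 x; exact spl_apply x
    rw [this]
    fun_prop
  have hKc : IsCompact (spl m '' K) := hK.image hcsp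
  have hbd : ∃ C : ℝ, ∀ x ∈ spl m '' K, |b' x.1| ≤ C := by
    obtain ⟨C, hC⟩ := hb
    refine ⟨C, ?_⟩
    rintro _ ⟨x, hx, rfl⟩
    have h2 := shv_last hinv 0 x
    have h3 : b' (spl m x).1 = β x := by
      have h4 := hinv x (-x (Fin.last m))
      rw [hb', ← h4]
      show β _ = β _
      congr 1
      rw [spl_apply]
      ext i
      refine Fin.lastCases ?_ (fun j => ?_) i
      · simp
      · simp
    rw [h3]
    exact hC x hx
  intro ξ
  by_cases hv : volume K = 0
  · have e0 := g0 ξ
    have e1 : (0 : ℝ≥0∞) ^ (1 + 1 / p) = 0 := by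
      rw [ENNReal.zero_rpow_of_pos]
      positivity
    unfold Fu at e0 ⊢
    rw [hvol, hv, e1, zero_mul] at e0 ⊢
    exact e0
  · have hv' : volume (spl m '' K) ≠ 0 := by rwa [volume_spl]
    obtain ⟨ξ', hξ⟩ := sh_key hb'm hp hv' hKc hbd h0 h1 (spl m ξ)
    have hsurj : ∃ η : V (m + 1), spl m η = ξ' := ⟨(spl m).symm ξ', by simp⟩
    obtain ⟨η, rfl⟩ := hsurj
    rw [← himg, ← himg, ← himg, I_spl, I_spl, I_spl] at hξ
    rcases hξ with hξ | hξ
    · refine (g0 η).trans ?_
      unfold Fu
      rw [hvol, hvol]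
      exact mul_le_mul' le_rfl hξ
    · refine (g1 η).trans ?_
      unfold Fu
      rw [hvol, hvol]
      exact mul_le_mul' le_rfl hξ

/-- **Quasi-concavity along fibre translations.** -/
theorem good_between {n : ℕ} {θ : V n} {β : V n → ℝ} {p : ℝ} {K : Set (V n)}
    (hβ : Measurable β) (hp : 0 < p)
    (hK : IsCompact K) (hb : ∃ C : ℝ, ∀ x ∈ K, |β x| ≤ C)
    (hinv : ∀ (x : V _) (s : ℝ), β (x + s • θ) = β x) {t0 t1 t : ℝ}
    (h0 : t0 ≤ t) (h1 : t ≤ t1)
    (g0 : Good p (shv θ β t0 '' K)) (g1 : Good p (shv θ β t1 '' K)) :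
    Good p (shv θ β t '' K) := by
  rcases eq_or_ne θ 0 with rfl | hθ
  · have : ∀ τ, shv (0 : V n) β τ '' K = K := by
      intro τ
      unfold shv
      simp
    rw [this] at g0 ⊢
    exact g0
  obtain ⟨m, rfl⟩ : ∃ m, n = m + 1 := by
    rcases n with _ | m
    · exfalso
      exact hθ (Subsingleton.elim _ _)
    · exact ⟨m, rfl⟩
  have hl : (Pi.single (Fin.last m) 1 : V (m + 1)) ≠ 0 := by simp
  obtain ⟨A, hA⟩ := SeparatingDual.exists_continuousLinearEquiv_apply_eq (R := ℝ) hθ hl
  set γ : V (m + 1) → ℝ := fun z => β (A.symm z) with hγ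
  have hγm : Measurable γ := hβ.comp A.symm.continuous.measurable
  have himg : ∀ τ, A '' (shv θ β τ '' K) =
      shv (Pi.single (Fin.last m) 1) γ τ '' (A '' K) := by
    intro τ
    rw [image_image, image_image]
    refine image_congr fun x _ => ?_
    unfold shv
    rw [map_add, map_smul, hA, hγ]
    simp
  have hAK : IsCompact (A '' K) := hK.image A.continuous
  have hmeas : ∀ τ, MeasurableSet (shv θ β τ '' K) := by
    intro τ
    have e : shv θ β τ '' K = shv θ β (-τ) ⁻¹' K := by
      have hh : ∀ τ x, shv θ β (-τ) (shv θ β τ x) = x := by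
        intro τ x
        unfold shv
        rw [hinv, add_assoc, ← add_smul]
        simp
      ext x
      constructor
      · rintro ⟨z, hz, rfl⟩
        show shv θ β (-τ) (shv θ β τ z) ∈ K
        rwa [hh]
      · intro hx
        refine ⟨shv θ β (-τ) x, hx, ?_⟩
        have := hh (-τ) x
        rwa [neg_neg] at this
    rw [e]
    have hmm : Measurable (shv θ β (-τ)) := by
      unfold shv
      fun_prop
    exact hmm hK.measurableSet
  have key : ∀ τ, Good p (shv θ β τ '' K) ↔
      Good p (shv (Pi.single (Fin.last m) 1) γ τ '' (A '' K)) := by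
    intro τ
    rw [← himg]
    exact (good_affine_iff hp A.toLinearEquiv.toAffineEquiv (hmeas τ)).symm
  rw [key] at g0 g1 ⊢
  refine key_last hγm hp hAK ?_ ?_ h0 h1 g0 g1
  · obtain ⟨C, hC⟩ := hb
    refine ⟨C, ?_⟩
    rintro _ ⟨x, hx, rfl⟩
    rw [hγ]
    simpa using hC x hx
  · intro x s
    rw [hγ]
    show β (A.symm (x + s • _)) = β (A.symm x)
    have : A.symm (Pi.single (Fin.last m) 1) = θ := by
      rw [← hA]
      simp
    rw [map_add, map_smul, this, hinv]

end Pool.Agent.H5.LP
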