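import Pool.Agent.H5.LP.B0

/-! Free sums. -/

set_option autoImplicit false

open MeasureTheory Set Filter
open scoped ENNReal Topology Pointwise

namespace Pool.Agent.H5.LP

variable {n : ℕ}

/-- truncated gauge -/
noncomputable def rho (R : Set (V n)) (w : V n) : ℝ :=
  sInf {s : ℝ | (0 ≤ s ∧ s ≤ 1) ∧ (s = 1 ∨ w ∈ s • R)}

section rho

variable {R : Set (V n)}

lemma rho_aux (hR : IsCompact R) (w : V n) :
    IsCompact {s : ℝ | (0 ≤ s ∧ s ≤ 1) ∧ (s = 1 ∨ w ∈ s • R)} := by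
  have h1 : {s : ℝ | (0 ≤ s ∧ s ≤ 1) ∧ (s = 1 ∨ w ∈ s • R)} =
      ({1} : Set ℝ) ∪ (Prod.fst '' ((Icc (0 : ℝ) 1 ×ˢ R) ∩ {q : ℝ × V n | q.1 • q.2 = w})) := by
    ext s
    constructor
    · rintro ⟨⟨h0, h1⟩, h | h⟩
      · exact Or.inl h
      · obtain ⟨r, hr, hw⟩ := h
        exact Or.inr ⟨(s, r), ⟨⟨⟨h0, h1⟩, hr⟩, hw⟩, rfl⟩
    · rintro (h | ⟨⟨s', r⟩, ⟨⟨⟨h0, h1⟩, hr⟩, hw⟩, rfl⟩)
      · rw [mem_singleton_iff] at h
        subst h
        exact ⟨⟨zero_le_one, le_rfl⟩, Or.inl rfl⟩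
      · exact ⟨⟨h0, h1⟩, Or.inr ⟨r, hr, hw⟩⟩
  rw [h1]
  apply isCompact_singleton.union
  apply IsCompact.image _ continuous_fst
  apply (isCompact_Icc.prod hR).inter_right
  exact isClosed_eq (continuous_fst.smul continuous_snd) continuous_const

lemma rho_mem (hR : IsCompact R) (w : V n) :
    (0 ≤ rho R w ∧ rho R w ≤ 1) ∧ (rho R w = 1 ∨ w ∈ rho R w • R) :=
  (rho_aux hR w).sInf_mem ⟨1, ⟨zero_le_one, le_rfl⟩, Or.inl rfl⟩

lemma rho_le {w : V n} {s : ℝ} (h0 : 0 ≤ s) (h1 : s ≤ 1) (hw : w ∈ s • R) : rho R w ≤ s := by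
  apply csInf_le
  · exact ⟨0, fun x hx => hx.1.1⟩
  · exact ⟨⟨h0, h1⟩, Or.inr hw⟩

lemma rho_spec (hR : IsCompact R) {w : V n} {s : ℝ}
    (hs0 : 0 ≤ s) (hs1 : s ≤ 1) (hw : w ∈ s • R) : ∃ r ∈ R, w = rho R w • r := by
  obtain ⟨_, h | h⟩ := rho_mem hR w
  · have h2 := rho_le hs0 hs1 hw
    have h3 : s = 1 := by linarith
    obtain ⟨r, hr, rfl⟩ := hw
    refine ⟨r, hr, ?_⟩
    show s • r = rho R (s • r) • r
    rw [show rho R (s • r) = s by rw [h3] at h ⊢; exact h]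
  · obtain ⟨r, hr, hw⟩ := h
    exact ⟨r, hr, hw.symm⟩

lemma rho_meas (hR : IsCompact R) (hc : Convex ℝ R) (h0 : (0 : V n) ∈ R) :
    Measurable (rho R) := by
  apply measurable_of_Iic
  intro c
  rcases lt_or_ge c 0 with hc0 | hc0
  · have : rho R ⁻¹' Iic c = ∅ := by
      ext w
      simp only [mem_preimage, mem_Iic, mem_empty_iff_false, iff_false, not_le]
      exact lt_of_lt_of_le hc0 (rho_mem hR w).1.1
    rw [this]
    exact MeasurableSet.empty
  · rcases lt_or_ge c 1 with hc1 | hc1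
    · have : rho R ⁻¹' Iic c = c • R := by
        ext w
        constructor
        · intro hw
          have hw' : rho R w ≤ c := hw
          obtain ⟨h1, h2 | h2⟩ := rho_mem hR w
          · rw [h2] at hw'
            linarith
          · rcases eq_or_lt_of_le hc0 with h3 | h3
            · have h4 : rho R w = c := by
                have := h1.1
                linarith
              rw [← h4]
              exact h2
            · obtain ⟨r, hr, hw⟩ := h2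
              refine ⟨(rho R w / c) • r, ?_, ?_⟩
              · have h5 : (rho R w / c) • r = (rho R w / c) • r + (1 - rho R w / c) • (0 : V n) := by
                  simp
                rw [h5]
                apply hc hr h0
                · exact div_nonneg h1.1 h3.le
                · have : rho R w / c ≤ 1 := (div_le_one h3).2 hw'
                  linarith
                · ring
              · show c • ((rho R w / c) • r) = w
                rw [smul_smul, mul_div_cancel₀ _ h3.ne']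
                exact hw
        · intro hw
          exact rho_le hc0 hc1.le hw
      rw [this]
      exact (hR.smul c).measurableSet
    · have : rho R ⁻¹' Iic c = univ := by
        ext w
        simp only [mem_preimage, mem_Iic, mem_univ, iff_true]
        exact ((rho_mem hR w).1.2).trans hc1
      rw [this]
      exact MeasurableSet.univ

end rho

/-- the speed function of the free sum -/
noncomputable def bet (P : V n →ₗ[ℝ] V n) (R : Set (V n)) (β₀ : V n → ℝ) (x : V n) : ℝ :=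
  (1 - rho R (x - P x)) * β₀ ((1 - rho R (x - P x))⁻¹ • P x)

section fs

variable {P : V n →ₗ[ℝ] V n} {R C : Set (V n)}

lemma mem_hull_union {C R : Set (V n)} (hC : Convex ℝ C) (hR : Convex ℝ R) (hC0 : (0 : V n) ∈ C)
    (hR0 : (0 : V n) ∈ R) {x : V n} :
    x ∈ convexHull ℝ (C ∪ R) ↔ ∃ c ∈ C, ∃ r ∈ R, ∃ s : ℝ, 0 ≤ s ∧ s ≤ 1 ∧
      x = (1 - s) • c + s • r := by
  rw [Convex.convexHull_union hC hR ⟨0, hC0⟩ ⟨0, hR0⟩, mem_convexJoin]
  constructor
  · rintro ⟨c, hc, r, hr, a, s, ha, hs, has, rfl⟩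
    refine ⟨c, hc, r, hr, s, hs, by linarith, ?_⟩
    rw [show a = 1 - s by linarith]
  · rintro ⟨c, hc, r, hr, s, hs, hs1, rfl⟩
    exact ⟨c, hc, r, hr, 1 - s, s, by linarith, hs, by ring, rfl⟩

lemma nf (hC : Convex ℝ C) (hRc : IsCompact R) (hR : Convex ℝ R) (hC0 : (0 : V n) ∈ C)
    (hR0 : (0 : V n) ∈ R) (hCP : ∀ x ∈ C, P x = x) (hRP : ∀ x ∈ R, P x = 0) {x : V n}
    (hx : x ∈ convexHull ℝ (C ∪ R)) :
    ∃ c ∈ C, ∃ r ∈ R, x = (1 - rho R (x - P x)) • c + rho R (x - P x) • r := by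
  obtain ⟨c, hc, r, hr, s, hs0, hs1, rfl⟩ := (mem_hull_union hC hR hC0 hR0).1 hx
  have hP : P ((1 - s) • c + s • r) = (1 - s) • c := by
    rw [map_add, map_smul, map_smul, hCP c hc, hRP r hr, smul_zero, add_zero]
  have hQ : (1 - s) • c + s • r - P ((1 - s) • c + s • r) = s • r := by
    rw [hP]; abel
  rw [hQ]
  set ρ := rho R (s • r) with hρ
  have hle : ρ ≤ s := rho_le hs0 hs1 ⟨r, hr, rfl⟩
  obtain ⟨r', hr', hw⟩ := rho_spec hRc hs0 hs1 (w := s • r) ⟨r, hr, rfl⟩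
  rw [← hρ] at hw
  have hρ0 : 0 ≤ ρ := (rho_mem hRc _).1.1
  rcases eq_or_lt_of_le (hle.trans hs1) with h1 | h1
  · have h2 : s = 1 := by linarith
    refine ⟨c, hc, r', hr', ?_⟩
    rw [← hw, h1, h2]
  · have h3 : 0 < 1 - ρ := by linarith
    refine ⟨((1 - s) / (1 - ρ)) • c, ?_, r', hr', ?_⟩
    · have h5 : ((1 - s) / (1 - ρ)) • c = ((1 - s) / (1 - ρ)) • c +
          (1 - (1 - s) / (1 - ρ)) • (0 : V n) := by simp
      rw [h5]
      apply hC hc hC0
      · exact div_nonneg (by linarith) h3.le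
      · have : (1 - s) / (1 - ρ) ≤ 1 := (div_le_one h3).2 (by linarith)
        linarith
      · ring
    · rw [← hw, smul_smul, mul_div_cancel₀ _ h3.ne']

lemma bet_nf (hCP : ∀ x ∈ C, P x = x) (hRP : ∀ x ∈ R, P x = 0) (β₀ : V n → ℝ) {c r : V n}
    (hc : c ∈ C) (hr : r ∈ R) {ρ : ℝ} (hρ : rho R (ρ • r) = ρ) :
    bet P R β₀ ((1 - ρ) • c + ρ • r) = (1 - ρ) * β₀ c := by
  have hP : P ((1 - ρ) • c + ρ • r) = (1 - ρ) • c := by
    rw [map_add, map_smul, map_smul, hCP c hc, hRP r hr, smul_zero, add_zero]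
  have hQ : (1 - ρ) • c + ρ • r - P ((1 - ρ) • c + ρ • r) = ρ • r := by
    rw [hP]; abel
  unfold bet
  rw [hQ, hP, hρ]
  rcases eq_or_ne (1 - ρ) 0 with h | h
  · rw [h]; simp
  · rw [smul_smul, inv_mul_cancel₀ h, one_smul]

lemma sum_sub {c r : V n} (hCP : ∀ x ∈ C, P x = x) (hRP : ∀ x ∈ R, P x = 0)
    (hc : c ∈ C) (hr : r ∈ R) (ρ : ℝ) :
    (1 - ρ) • c + ρ • r - P ((1 - ρ) • c + ρ • r) = ρ • r := by
  rw [map_add, map_smul, map_smul, hCP c hc, hRP r hr, smul_zero, add_zero]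
  abel

/-- the free sum with a moved summand is the moved free sum -/
lemma hull_shv {L : Set (V n)} {θ : V n} {β₀ : V n → ℝ} {t : ℝ} (hθ : P θ = θ)
    (hL : Convex ℝ L) (hL0 : (0 : V n) ∈ L) (hLP : ∀ x ∈ L, P x = x)
    (hRc : IsCompact R) (hR : Convex ℝ R) (hR0 : (0 : V n) ∈ R) (hRP : ∀ x ∈ R, P x = 0)
    (hLt : Convex ℝ (shv θ β₀ t '' L)) (hLt0 : (0 : V n) ∈ shv θ β₀ t '' L) :
    convexHull ℝ (shv θ β₀ t '' L ∪ R) = shv θ (bet P R β₀) t '' convexHull ℝ (L ∪ R) := by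
  have hLtP : ∀ x ∈ shv θ β₀ t '' L, P x = x := by
    rintro _ ⟨x, hx, rfl⟩
    unfold shv
    rw [map_add, map_smul, hθ, hLP x hx]
  have key : ∀ l ∈ L, ∀ r ∈ R, ∀ ρ : ℝ, rho R (ρ • r) = ρ →
      shv θ (bet P R β₀) t ((1 - ρ) • l + ρ • r) = (1 - ρ) • (shv θ β₀ t l) + ρ • r := by
    intro l hl r hr ρ hρ
    unfold shv
    rw [bet_nf hLP hRP β₀ hl hr hρ, smul_add, smul_smul]
    rw [show (1 - ρ) * (t * β₀ l) = t * ((1 - ρ) * β₀ l) by ring]
    abel
  ext y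
  constructor
  · intro hy
    obtain ⟨m, ⟨l, hl, rfl⟩, r, hr, hyy⟩ := nf hLt hRc hR hLt0 hR0 hLtP hRP hy
    set ρ := rho R (y - P y) with hρdef
    have hρ : rho R (ρ • r) = ρ := by
      have h1 : y - P y = ρ • r := by
        conv_lhs => rw [hyy]
        exact sum_sub hLtP hRP ⟨l, hl, rfl⟩ hr ρ
      rw [← h1]
    have hρ01 := (rho_mem hRc (y - P y)).1
    refine ⟨(1 - ρ) • l + ρ • r, ?_, ?_⟩
    · exact (mem_hull_union hL hR hL0 hR0).2 ⟨l, hl, r, hr, ρ, hρ01.1, hρ01.2, rfl⟩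
    · rw [key l hl r hr ρ hρ, ← hyy]
  · rintro ⟨x, hx, rfl⟩
    obtain ⟨l, hl, r, hr, hxx⟩ := nf hL hRc hR hL0 hR0 hLP hRP hx
    set ρ := rho R (x - P x) with hρdef
    have hρ : rho R (ρ • r) = ρ := by
      have h1 : x - P x = ρ • r := by
        conv_lhs => rw [hxx]
        exact sum_sub hLP hRP hl hr ρ
      rw [← h1]
    have hρ01 := (rho_mem hRc (x - P x)).1
    rw [hxx, key l hl r hr ρ hρ]
    exact (mem_hull_union hLt hR hLt0 hR0).2 ⟨_, ⟨l, hl, rfl⟩, r, hr, ρ, hρ01.1, hρ01.2, rfl⟩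

lemma bet_inv {θ : V n} (hθ : P θ = θ) {β₀ : V n → ℝ}
    (hinv : ∀ (x : V n) (s : ℝ), β₀ (x + s • θ) = β₀ x) (x : V n) (s : ℝ) :
    bet P R β₀ (x + s • θ) = bet P R β₀ x := by
  unfold bet
  have h1 : x + s • θ - P (x + s • θ) = x - P x := by
    rw [map_add, map_smul, hθ]; abel
  rw [h1, map_add, map_smul, hθ, smul_add, smul_smul, hinv]

lemma bet_meas (hRc : IsCompact R) (hR : Convex ℝ R) (hR0 : (0 : V n) ∈ R) {β₀ : V n → ℝ}
    (hβ : Measurable β₀) : Measurable (bet P R β₀) := by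
  have hP : Measurable P := (LinearMap.continuous_of_finiteDimensional P).measurable
  have h1 : Measurable fun x : V n => rho R (x - P x) :=
    (rho_meas hRc hR hR0).comp (measurable_id.sub hP)
  unfold bet
  apply Measurable.mul (measurable_const.sub h1)
  apply hβ.comp
  exact ((measurable_const.sub h1).inv).smul hP

/-- **Quasi-concavity for free sums with a moving summand.** -/
theorem good_fs {L : Set (V n)} {θ : V n} {β₀ : V n → ℝ} {p : ℝ} (hp : 0 < p) (hθ : P θ = θ)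
    (hβ : Measurable β₀) (hinv : ∀ (x : V n) (s : ℝ), β₀ (x + s • θ) = β₀ x)
    (hb : ∃ C : ℝ, ∀ x ∈ L, |β₀ x| ≤ C)
    (hLc : IsCompact L) (hL : Convex ℝ L) (hL0 : (0 : V n) ∈ L) (hLP : ∀ x ∈ L, P x = x)
    (hRc : IsCompact R) (hR : Convex ℝ R) (hR0 : (0 : V n) ∈ R) (hRP : ∀ x ∈ R, P x = 0)
    {t0 t1 t : ℝ} (h0 : t0 ≤ t) (h1 : t ≤ t1)
    (hc : ∀ τ ∈ ({t0, t1, t} : Set ℝ), Convex ℝ (shv θ β₀ τ '' L) ∧
      (0 : V n) ∈ shv θ β₀ τ '' L)
    (g0 : Good p (convexHull ℝ (shv θ β₀ t0 '' L ∪ R)))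
    (g1 : Good p (convexHull ℝ (shv θ β₀ t1 '' L ∪ R))) :
    Good p (convexHull ℝ (shv θ β₀ t '' L ∪ R)) := by
  have e0 := hull_shv (t := t0) hθ hL hL0 hLP hRc hR hR0 hRP (hc t0 (by simp)).1
    (hc t0 (by simp)).2
  have e1 := hull_shv (t := t1) hθ hL hL0 hLP hRc hR hR0 hRP (hc t1 (by simp)).1
    (hc t1 (by simp)).2
  have e := hull_shv (t := t) hθ hL hL0 hLP hRc hR hR0 hRP (hc t (by simp)).1
    (hc t (by simp)).2
  rw [e0] at g0
  rw [e1] at g1
  rw [e]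
  refine good_between (bet_meas hRc hR hR0 hβ) hp ?_ ?_ (bet_inv hθ hinv) h0 h1 g0 g1
  · exact compact_hull (hLc.union hRc)
  · obtain ⟨C, hC⟩ := hb
    refine ⟨C, fun x hx => ?_⟩
    obtain ⟨l, hl, r, hr, hxx⟩ := nf hL hRc hR hL0 hR0 hLP hRP hx
    set ρ := rho R (x - P x) with hρdef
    have hρ : rho R (ρ • r) = ρ := by
      have h1 : x - P x = ρ • r := by
        conv_lhs => rw [hxx]
        exact sum_sub hLP hRP hl hr ρ
      rw [← h1]
    have hρ01 := (rho_mem hRc (x - P x)).1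
    rw [hxx, bet_nf hLP hRP β₀ hl hr hρ, abs_mul]
    have h3 : |1 - ρ| ≤ 1 := by
      rw [abs_le]
      constructor <;> linarith [hρ01.1, hρ01.2]
    calc |1 - ρ| * |β₀ l| ≤ 1 * |β₀ l| := mul_le_mul_of_nonneg_right h3 (abs_nonneg _)
      _ ≤ C := by rw [one_mul]; exact hC l hl

end fs

end Pool.Agent.H5.LP
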