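import Pool.Agent.H5.LP.B1

/-! Replacing a simplex of a free sum by a simplex with a vertex at the origin. -/

set_option autoImplicit false

open MeasureTheory Set Filter
open scoped ENNReal Topology Pointwise

namespace Pool.Agent.H5.LP

variable {n : ℕ}

/-- corner simplices of a subspace -/
def Corner (E : Submodule ℝ (V n)) (C : Set (V n)) : Prop :=
  ∃ (κ : Type) (_ : Fintype κ) (b : κ → V n), LinearIndependent ℝ b ∧
    Submodule.span ℝ (range b) = E ∧ C = convexHull ℝ (insert 0 (range b))

/-- `L ⊆ E` can be replaced by corner simplices in any free sum -/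
def Red (p : ℝ) (E : Submodule ℝ (V n)) (L : Set (V n)) : Prop :=
  ∀ (P : V n →ₗ[ℝ] V n) (R : Set (V n)), (∀ x ∈ E, P x = x) → (∀ x, P x ∈ E) →
    IsCompact R → Convex ℝ R → (0 : V n) ∈ R → (∀ x ∈ R, P x = 0) →
    (∀ C, Corner E C → Good p (convexHull ℝ (C ∪ R))) → Good p (convexHull ℝ (L ∪ R))

/-- affine bases of the subspace `E` -/
structure Sx (E : Submodule ℝ (V n)) {ι : Type} [Fintype ι] (a : ι → V n) : Prop where
  mem : ∀ k, a k ∈ E
  ind : ∀ w : ι → ℝ, ∑ k, w k = 0 → ∑ k, w k • a k = 0 → w = 0
  spn : ∀ x ∈ E, ∃ w : ι → ℝ, ∑ k, w k = 1 ∧ ∑ k, w k • a k = x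

section

variable {ι : Type} [Fintype ι] {a : ι → V n} {E : Submodule ℝ (V n)}

lemma mem_hull_range {a : ι → V n} {x : V n} : x ∈ convexHull ℝ (range a) ↔
    ∃ w : ι → ℝ, (∀ k, 0 ≤ w k) ∧ ∑ k, w k = 1 ∧ ∑ k, w k • a k = x := by
  classical
  constructor
  · intro hx
    have hc : Convex ℝ {x : V n | ∃ w : ι → ℝ, (∀ k, 0 ≤ w k) ∧ ∑ k, w k = 1 ∧
        ∑ k, w k • a k = x} := by
      rintro x ⟨w, h1, h2, rfl⟩ y ⟨w', h1', h2', rfl⟩ s t hs ht hst
      refine ⟨fun k => s * w k + t * w' k, ?_, ?_, ?_⟩
      · intro k
        have := h1 k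
        have := h1' k
        positivity
      · rw [Finset.sum_add_distrib, ← Finset.mul_sum, ← Finset.mul_sum, h2, h2', mul_one, mul_one,
          hst]
      · rw [Finset.smul_sum, Finset.smul_sum, ← Finset.sum_add_distrib]
        refine Finset.sum_congr rfl fun k _ => ?_
        rw [add_smul, smul_smul, smul_smul]
    refine convexHull_min ?_ hc hx
    rintro _ ⟨k, rfl⟩
    refine ⟨Pi.single k 1, ?_, ?_, ?_⟩
    · intro l
      by_cases h : l = k
      · subst h; simp
      · simp [Pi.single_eq_of_ne h]
    · simp
    · simp [Pi.single_apply, ite_smul]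
  · rintro ⟨w, h1, h2, rfl⟩
    exact (convex_convexHull ℝ _).sum_mem (fun k _ => h1 k) h2
      (fun k _ => subset_convexHull ℝ _ ⟨k, rfl⟩)

lemma Sx.translate (h : Sx E a) {v : V n} (hv : v ∈ E) : Sx E (fun k => a k + v) where
  mem k := E.add_mem (h.mem k) hv
  ind w h0 h1 := by
    apply h.ind w h0
    simp only [smul_add, Finset.sum_add_distrib, ← Finset.sum_smul, h0, zero_smul, add_zero] at h1
    exact h1
  spn x hx := by
    obtain ⟨w, h1, h2⟩ := h.spn (x - v) (E.sub_mem hx hv)
    refine ⟨w, h1, ?_⟩
    simp only [smul_add, Finset.sum_add_distrib, ← Finset.sum_smul, h1, one_smul, h2]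
    abel

lemma Sx.corner (h : Sx E a) {i₀ : ι} (h0 : a i₀ = 0) : Corner E (convexHull ℝ (range a)) := by
  classical
  refine ⟨{k // k ≠ i₀}, inferInstance, fun k => a k, ?_, ?_, ?_⟩
  · rw [Fintype.linearIndependent_iff]
    intro g hg
    have h1 := h.ind (fun k => if hk : k ≠ i₀ then g ⟨k, hk⟩ else -∑ k, g k) (by
      rw [← Finset.add_sum_erase _ _ (Finset.mem_univ i₀)]
      simp only [ne_eq, not_true_eq_false, dite_false]
      rw [neg_add_eq_zero]
      rw [Finset.sum_subtype (s := Finset.univ.erase i₀) (p := fun k => k ≠ i₀) (by simp)]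
      refine Finset.sum_congr rfl fun k _ => ?_
      simp [k.2]) (by
      rw [← Finset.add_sum_erase _ _ (Finset.mem_univ i₀), h0, smul_zero, zero_add]
      rw [Finset.sum_subtype (s := Finset.univ.erase i₀) (p := fun k => k ≠ i₀) (by simp)]
      rw [← hg]
      refine Finset.sum_congr rfl fun k _ => ?_
      simp [k.2])
    intro k
    have h2 := congrFun h1 k.1
    simpa [k.2] using h2
  · apply le_antisymm
    · rw [Submodule.span_le]
      rintro _ ⟨k, rfl⟩
      exact h.mem _
    · intro x hx
      obtain ⟨w, h1, h2⟩ := h.spn x hx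
      rw [← h2]
      apply Submodule.sum_mem
      intro k _
      apply Submodule.smul_mem
      by_cases hk : k = i₀
      · rw [hk, h0]
        exact Submodule.zero_mem _
      · exact Submodule.subset_span ⟨⟨k, hk⟩, rfl⟩
  · congr 1
    ext x
    constructor
    · rintro ⟨k, rfl⟩
      by_cases hk : k = i₀
      · rw [hk, h0]
        exact mem_insert _ _
      · exact mem_insert_of_mem _ ⟨⟨k, hk⟩, rfl⟩
    · rintro (rfl | ⟨k, rfl⟩)
      · exact ⟨i₀, h0⟩
      · exact ⟨k.1, rfl⟩

lemma shv_one_hull (θ : V n) (t : ℝ) (a : ι → V n) :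
    shv θ (fun _ => 1) t '' convexHull ℝ (range a) = convexHull ℝ (range fun k => a k + t • θ) := by
  ext x
  constructor
  · rintro ⟨z, hz, rfl⟩
    obtain ⟨w, h1, h2, rfl⟩ := mem_hull_range.1 hz
    refine mem_hull_range.2 ⟨w, h1, h2, ?_⟩
    unfold shv
    simp only [smul_add, Finset.sum_add_distrib, ← Finset.sum_smul, h2, one_smul, mul_one]
  · intro hx
    obtain ⟨w, h1, h2, rfl⟩ := mem_hull_range.1 hx
    refine ⟨∑ k, w k • a k, mem_hull_range.2 ⟨w, h1, h2, rfl⟩, ?_⟩
    unfold shv
    simp only [smul_add, Finset.sum_add_distrib, ← Finset.sum_smul, h2, one_smul, mul_one]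

/-- simplices can be replaced -/
theorem red_simplex {p : ℝ} (hp : 0 < p) (ha : Sx E a)
    (h0 : (0 : V n) ∈ convexHull ℝ (range a)) : Red p E (convexHull ℝ (range a)) := by
  classical
  intro P R hPE hPE' hRc hR hR0 hRP hC
  have key : ∀ N : ℕ, ∀ (a : ι → V n) (μ : ι → ℝ), Sx E a → (∀ k, 0 ≤ μ k) → ∑ k, μ k = 1 →
      ∑ k, μ k • a k = 0 → (Finset.univ.filter fun k => μ k ≠ 0).card ≤ N →
      Good p (convexHull ℝ (convexHull ℝ (range a) ∪ R)) := by
    intro N
    induction N with
    | zero =>
      intro a μ ha hμ h1 h2 hN
      exfalso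
      rw [Nat.le_zero, Finset.card_eq_zero, Finset.filter_eq_empty_iff] at hN
      have : ∑ k, μ k = 0 := Finset.sum_eq_zero fun k _ => by simpa using hN (Finset.mem_univ k)
      rw [this] at h1
      exact zero_ne_one h1
    | succ N ih =>
      intro a μ ha hμ h1 h2 hN
      have hex : ∃ i, μ i ≠ 0 := by
        by_contra hcon
        push Not at hcon
        rw [Finset.sum_eq_zero fun k _ => hcon k] at h1
        exact zero_ne_one h1
      obtain ⟨i, hi⟩ := hex
      by_cases hj : ∃ j, j ≠ i ∧ μ j ≠ 0
      · obtain ⟨j, hji, hj⟩ := hj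
        set θ := a i - a j with hθ
        have hθE : θ ∈ E := E.sub_mem (ha.mem i) (ha.mem j)
        have hipos : 0 < μ i := lt_of_le_of_ne (hμ i) hi.symm
        have hjpos : 0 < μ j := lt_of_le_of_ne (hμ j) hj.symm
        have hsum : ∀ (τ : ℝ) (f : ι → ℝ), ∑ k, (μ k + (if k = i then -τ else 0) +
            (if k = j then τ else 0)) = 1 := by
          intro τ f
          simp [Finset.sum_add_distrib, h1]
        have hsum2 : ∀ τ : ℝ, ∑ k, (μ k + (if k = i then -τ else 0) +
            (if k = j then τ else 0)) • (a k + τ • θ) = 0 := by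
          intro τ
          have e1 : ∑ k, (μ k + (if k = i then -τ else 0) +
            (if k = j then τ else 0)) • (a k + τ • θ) = ∑ k, (μ k + (if k = i then -τ else 0) +
            (if k = j then τ else 0)) • a k + (∑ k, (μ k + (if k = i then -τ else 0) +
            (if k = j then τ else 0))) • τ • θ := by
            rw [Finset.sum_smul, ← Finset.sum_add_distrib]
            refine Finset.sum_congr rfl fun k _ => by rw [smul_add]
          rw [e1, hsum τ μ, one_smul]
          have e2 : ∑ k, (μ k + (if k = i then -τ else 0) + (if k = j then τ else 0)) • a k =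
              -τ • a i + τ • a j := by
            simp only [add_smul, Finset.sum_add_distrib, h2, zero_add, ite_smul, zero_smul,
              Finset.sum_ite_eq', Finset.mem_univ, if_true]
          rw [e2, hθ, smul_sub, neg_smul]
          abel
        have hG : ∀ τ : ℝ, -μ j ≤ τ → τ ≤ μ i → (τ = -μ j ∨ τ = μ i) →
            Good p (convexHull ℝ (convexHull ℝ (range fun k => a k + τ • θ) ∪ R)) := by
          intro τ hτ1 hτ2 hτ
          refine ih _ (fun k => μ k + (if k = i then -τ else 0) + (if k = j then τ else 0))
            (ha.translate (E.smul_mem τ hθE)) ?_ (hsum τ μ) (hsum2 τ) ?_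
          · intro k
            by_cases hki : k = i
            · subst hki
              simp only [if_true, if_neg hji.symm]
              linarith
            · by_cases hkj : k = j
              · subst hkj
                simp only [if_neg hki, if_true]
                linarith
              · simp only [if_neg hki, if_neg hkj]
                linarith [hμ k]
          · have hlt : (Finset.univ.filter fun k => μ k + (if k = i then -τ else 0) +
                (if k = j then τ else 0) ≠ 0) ⊂ (Finset.univ.filter fun k => μ k ≠ 0) := by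
              rw [Finset.ssubset_iff_of_subset]
              · rcases hτ with hτ | hτ
                · refine ⟨j, by simp [hj], ?_⟩
                  simp [hji, hτ]
                · refine ⟨i, by simp [hi], ?_⟩
                  simp [hji.symm, hτ]
              · intro k hk
                simp only [Finset.mem_filter, Finset.mem_univ, true_and] at hk ⊢
                intro hk0
                by_cases hki : k = i
                · subst hki; exact hi hk0
                · by_cases hkj : k = j
                  · subst hkj; exact hj hk0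
                  · simp [hki, hkj, hk0] at hk
            have := Finset.card_lt_card hlt
            omega
        have e := fun τ : ℝ => shv_one_hull θ τ a
        have g0 := hG (-μ j) le_rfl (by linarith) (Or.inl rfl)
        have g1 := hG (μ i) (by linarith) le_rfl (Or.inr rfl)
        rw [← e] at g0 g1
        have hmem : ∀ τ : ℝ, -μ j ≤ τ → τ ≤ μ i →
            (0 : V n) ∈ convexHull ℝ (range fun k => a k + τ • θ) := by
          intro τ hτ1 hτ2
          refine mem_hull_range.2 ⟨fun k => μ k + (if k = i then -τ else 0) +
            (if k = j then τ else 0), ?_, hsum τ μ, hsum2 τ⟩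
          intro k
          by_cases hki : k = i
          · subst hki
            simp only [if_true, if_neg hji.symm]
            linarith
          · by_cases hkj : k = j
            · subst hkj
              simp only [if_neg hki, if_true]
              linarith
            · simp only [if_neg hki, if_neg hkj]
              linarith [hμ k]
        have hres := good_fs (P := P) (R := R) (L := convexHull ℝ (range a)) (θ := θ)
          (β₀ := fun _ => 1) hp (hPE θ hθE) measurable_const (fun _ _ => rfl)
          ⟨1, fun _ _ => by simp⟩ ((finite_range a).isCompact_convexHull ℝ)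
          (convex_convexHull ℝ _) (by
            have := hmem 0 (by linarith) (by linarith)
            simpa using this) (by
            intro x hx
            apply hPE
            exact (convexHull_min (s := range a) (t := (E : Set (V n)))
              (by rintro _ ⟨k, rfl⟩; exact ha.mem k) E.convex) hx)
          hRc hR hR0 hRP (t0 := -μ j) (t1 := μ i) (t := 0) (by linarith) (by linarith) (by
            intro τ hτ
            rw [e]
            refine ⟨convex_convexHull ℝ _, ?_⟩
            rcases hτ with rfl | rfl | rfl
            · exact hmem _ le_rfl (by linarith)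
            · exact hmem _ (by linarith) le_rfl
            · exact hmem _ (by linarith) (by linarith)) g0 g1
        rw [e] at hres
        simpa using hres
      · push Not at hj
        have hi1 : μ i = 1 := by
          rw [← h1]
          exact (Finset.sum_eq_single i (fun k _ hk => hj k hk) (by simp)).symm
        have hai : a i = 0 := by
          rw [← h2, Finset.sum_eq_single i (fun k _ hk => by rw [hj k hk, zero_smul]) (by simp),
            hi1, one_smul]
        exact hC _ (ha.corner hai)
  obtain ⟨μ, h1, h2, h3⟩ := mem_hull_range.1 h0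
  exact key _ a μ ha h1 h2 h3 le_rfl

end

end Pool.Agent.H5.LP
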