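import Pool.Agent.H5.LP.B2

/-! Replacing the hull of `dim + 2` points. -/

set_option autoImplicit false

open MeasureTheory Set Filter
open scoped ENNReal Topology Pointwise

namespace Pool.Agent.H5.LP

variable {n : ℕ}

section

variable {ι : Type} [Fintype ι] {a : ι → V n} {E : Submodule ℝ (V n)}

/-- barycentric coordinates -/
lemma Sx.coord (h : Sx E a) : ∃ l : V n → ι → ℝ, Continuous l ∧
    (∀ w : ι → ℝ, ∑ k, w k = 1 → l (∑ k, w k • a k) = w) ∧
    (∀ (x : V n) (s : ℝ) (u : ι → ℝ), ∑ k, u k = 0 →
      l (x + s • ∑ k, u k • a k) = l x + s • u) := by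
  classical
  set Φ : (ι → ℝ) →ₗ[ℝ] (V n × ℝ) :=
    (∑ k, (LinearMap.proj k : (ι → ℝ) →ₗ[ℝ] ℝ).smulRight (a k)).prod
      (∑ k, (LinearMap.proj k : (ι → ℝ) →ₗ[ℝ] ℝ)) with hΦ
  have hΦw : ∀ w : ι → ℝ, Φ w = (∑ k, w k • a k, ∑ k, w k) := by
    intro w
    rw [hΦ]
    ext1
    · simp
    · simp
  have hker : LinearMap.ker Φ = ⊥ := by
    rw [LinearMap.ker_eq_bot']
    intro w hw
    rw [hΦw, Prod.mk_eq_zero] at hw
    exact h.ind w hw.2 hw.1
  obtain ⟨Ψ, hΨ⟩ := LinearMap.exists_leftInverse_of_injective Φ hker
  have hΨ' : ∀ w, Ψ (Φ w) = w := fun w => by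
    have := LinearMap.congr_fun hΨ w
    simpa using this
  refine ⟨fun x => Ψ (x, 1), ?_, ?_, ?_⟩
  · have h1 : Continuous Ψ := LinearMap.continuous_of_finiteDimensional Ψ
    exact h1.comp (by fun_prop)
  · intro w hw
    have h1 := hΨ' w
    rw [hΦw, hw] at h1
    exact h1
  · intro x s u hu
    have h1 := hΨ' u
    rw [hΦw, hu] at h1
    show Ψ (x + s • ∑ k, u k • a k, 1) = Ψ (x, 1) + s • u
    have e : ((x + s • ∑ k, u k • a k, 1) : V n × ℝ) = (x, 1) + s • (∑ k, u k • a k, (0 : ℝ)) := by
      ext1 <;> simp
    rw [e, map_add, map_smul, h1]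

/-- the apex weight -/
noncomputable def BB [Nonempty ι] (c w : ι → ℝ) : ℝ :=
  Finset.univ.sup' Finset.univ_nonempty fun k => if c k < 0 then max 0 (w k / c k) else 0

variable [Nonempty ι]

lemma BB_nonneg (c w : ι → ℝ) : 0 ≤ BB c w := by
  obtain ⟨k⟩ := ‹Nonempty ι›
  refine le_trans ?_ (Finset.le_sup' _ (Finset.mem_univ k))
  split_ifs
  · exact le_max_left _ _
  · exact le_rfl

lemma BB_ge {c w : ι → ℝ} {k : ι} (hk : c k < 0) : w k / c k ≤ BB c w := by
  refine le_trans ?_ (Finset.le_sup' _ (Finset.mem_univ k))
  rw [if_pos hk]
  exact le_max_right _ _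

lemma BB_le {c w : ι → ℝ} {s : ℝ} (hs : 0 ≤ s) (h : ∀ k, c k < 0 → w k / c k ≤ s) :
    BB c w ≤ s := by
  apply Finset.sup'_le
  intro k _
  split_ifs with hk
  · exact max_le hs (h k hk)
  · exact hs

lemma BB_congr {c c' w w' : ι → ℝ} (h : ∀ k, c k < 0 ↔ c' k < 0)
    (h2 : ∀ k, c k < 0 → c k = c' k ∧ w k = w' k) : BB c w = BB c' w' := by
  unfold BB
  apply Finset.sup'_congr _ rfl
  intro k _
  by_cases hk : c k < 0
  · rw [if_pos hk, if_pos ((h k).1 hk), (h2 k hk).1, (h2 k hk).2]
  · rw [if_neg hk, if_neg (fun h' => hk ((h k).2 h'))]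

lemma BB_cont (c : ι → ℝ) : Continuous (BB c) := by
  unfold BB
  apply Continuous.finset_sup'_apply
  intro k _
  split_ifs
  · fun_prop
  · fun_prop

lemma mem_hull_insert (ha : Sx E a) {c : ι → ℝ} (hc : ∑ k, c k = 1) {w : ι → ℝ}
    (hw : ∑ k, w k = 1) :
    ∑ k, w k • a k ∈ convexHull ℝ (insert (∑ k, c k • a k) (range a)) ↔
      BB c w ≤ 1 ∧ ∀ k, 0 ≤ w k - BB c w * c k := by
  rw [convexHull_insert (range_nonempty a), mem_convexJoin]
  constructor
  · rintro ⟨v, hv, y, hy, hx⟩
    rw [mem_singleton_iff] at hv
    subst hv
    obtain ⟨y, hy0, hy1, rfl⟩ := mem_hull_range.1 hy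
    obtain ⟨s, r, hs, hr, hsr, hx⟩ := hx
    have hwe : w = fun k => s * c k + r * y k := by
      have h1 := ha.ind (fun k => w k - (s * c k + r * y k)) (by
        rw [Finset.sum_sub_distrib, Finset.sum_add_distrib, ← Finset.mul_sum, ← Finset.mul_sum,
          hw, hc, hy1]
        linarith) (by
        simp only [sub_smul, add_smul, Finset.sum_sub_distrib, Finset.sum_add_distrib]
        rw [← hx, Finset.smul_sum, Finset.smul_sum]
        simp only [smul_smul]
        abel)
      ext k
      have := congrFun h1 k
      simp only [Pi.zero_apply] at this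
      linarith
    have hB : BB c w ≤ s := by
      apply BB_le hs
      intro k hk
      rw [div_le_iff_of_neg hk, hwe]
      simp only
      have := mul_nonneg hr (hy0 k)
      linarith
    refine ⟨hB.trans (by linarith), fun k => ?_⟩
    by_cases hk : c k < 0
    · have h1 := BB_ge (w := w) hk
      rw [div_le_iff_of_neg hk] at h1
      linarith
    · rw [not_lt] at hk
      have h1 : BB c w * c k ≤ s * c k := mul_le_mul_of_nonneg_right hB hk
      have h2 : w k = s * c k + r * y k := congrFun hwe k
      have := mul_nonneg hr (hy0 k)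
      linarith
  · rintro ⟨hB, hk⟩
    refine ⟨∑ k, c k • a k, rfl, ?_⟩
    set B := BB c w with hBdef
    rcases eq_or_lt_of_le hB with h1 | h1
    · have h2 : ∑ k, (w k - B * c k) = 0 := by
        rw [Finset.sum_sub_distrib, ← Finset.mul_sum, hw, hc, h1]
        ring
      have h3 := (Finset.sum_eq_zero_iff_of_nonneg (fun k _ => hk k)).1 h2
      have h4 : w = c := by
        ext k
        have := h3 k (Finset.mem_univ k)
        rw [h1] at this
        linarith
      obtain ⟨k⟩ := ‹Nonempty ι›
      refine ⟨a k, subset_convexHull ℝ _ ⟨k, rfl⟩, ?_⟩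
      rw [h4]
      exact left_mem_segment ℝ _ _
    · have hd : 0 < 1 - B := by linarith
      refine ⟨∑ k, ((w k - B * c k) / (1 - B)) • a k, mem_hull_range.2
        ⟨fun k => (w k - B * c k) / (1 - B), fun k => div_nonneg (hk k) hd.le, ?_, rfl⟩, ?_⟩
      · rw [← Finset.sum_div, Finset.sum_sub_distrib, ← Finset.mul_sum, hw, hc, mul_one,
          div_self hd.ne']
      · refine ⟨B, 1 - B, BB_nonneg c w, hd.le, by ring, ?_⟩
        rw [Finset.smul_sum, Finset.smul_sum, ← Finset.sum_add_distrib]
        refine Finset.sum_congr rfl fun k _ => ?_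
        rw [smul_smul, smul_smul, ← add_smul, mul_div_cancel₀ _ hd.ne']
        congr 1
        ring

/-- the body with a moved apex is the moved body -/
lemma apex_hull (ha : Sx E a) {l : V n → ι → ℝ}
    (hl : ∀ w : ι → ℝ, ∑ k, w k = 1 → l (∑ k, w k • a k) = w)
    {c u : ι → ℝ} (hc : ∑ k, c k = 1) (hu : ∑ k, u k = 0) {t : ℝ}
    (h1 : ∀ k, c k < 0 ↔ c k + t * u k < 0) (h2 : ∀ k, c k < 0 → u k = 0) :
    shv (∑ k, u k • a k) (fun x => BB c (l x)) t ''
      convexHull ℝ (insert (∑ k, c k • a k) (range a)) =
      convexHull ℝ (insert (∑ k, c k • a k + t • ∑ k, u k • a k) (range a)) := by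
  have hc' : ∑ k, (c k + t * u k) = 1 := by
    rw [Finset.sum_add_distrib, ← Finset.mul_sum, hc, hu, mul_zero, add_zero]
  have hv' : ∑ k, c k • a k + t • ∑ k, u k • a k = ∑ k, (c k + t * u k) • a k := by
    rw [Finset.smul_sum, ← Finset.sum_add_distrib]
    refine Finset.sum_congr rfl fun k _ => ?_
    rw [add_smul, smul_smul]
  rw [hv']
  have hmv : ∀ w : ι → ℝ, ∑ k, w k = 1 → ∀ s : ℝ,
      ∑ k, w k • a k + s • ∑ k, u k • a k = ∑ k, (w k + s * u k) • a k ∧
      ∑ k, (w k + s * u k) = 1 := by
    intro w hw s
    constructor
    · rw [Finset.smul_sum, ← Finset.sum_add_distrib]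
      refine Finset.sum_congr rfl fun k _ => ?_
      rw [add_smul, smul_smul]
    · rw [Finset.sum_add_distrib, ← Finset.mul_sum, hw, hu, mul_zero, add_zero]
  have hin : ∀ (c : ι → ℝ), ∑ k, c k = 1 →
      ∀ x ∈ convexHull ℝ (insert (∑ k, c k • a k) (range a)),
      ∃ w : ι → ℝ, ∑ k, w k = 1 ∧ x = ∑ k, w k • a k := by
    intro c hc x hx
    have hsub : convexHull ℝ (insert (∑ k, c k • a k) (range a)) ⊆ (E : Set (V n)) := by
      apply convexHull_min _ E.convex
      rintro _ (rfl | ⟨k, rfl⟩)
      · exact E.sum_mem fun k _ => E.smul_mem _ (ha.mem k)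
      · exact ha.mem k
    obtain ⟨w, hw, hx⟩ := ha.spn x (hsub hx)
    exact ⟨w, hw, hx.symm⟩
  ext x
  constructor
  · rintro ⟨x, hx, rfl⟩
    obtain ⟨w, hw, rfl⟩ := hin c hc x hx
    obtain ⟨hB, hk⟩ := (mem_hull_insert ha hc hw).1 hx
    unfold shv
    beta_reduce
    rw [hl w hw, (hmv w hw _).1]
    have hBe : BB (fun k => c k + t * u k) (fun k => w k + t * BB c w * u k) = BB c w := by
      symm
      apply BB_congr h1
      intro k hk
      rw [h2 k hk]
      exact ⟨by ring, by ring⟩
    refine (mem_hull_insert ha hc' (hmv w hw _).2).2 ⟨hBe.le.trans hB, fun k => ?_⟩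
    rw [hBe]
    have := hk k
    nlinarith
  · intro hx
    obtain ⟨w, hw, rfl⟩ := hin _ hc' x hx
    obtain ⟨hB, hk⟩ := (mem_hull_insert ha hc' hw).1 hx
    set B := BB (fun k => c k + t * u k) w with hBdef
    have hBe : BB c (fun k => w k + -(t * B) * u k) = B := by
      apply BB_congr h1
      intro k hk
      rw [h2 k hk]
      exact ⟨by ring, by ring⟩
    refine ⟨∑ k, (w k + -(t * B) * u k) • a k, ?_, ?_⟩
    · refine (mem_hull_insert ha hc (hmv w hw _).2).2 ⟨hBe.le.trans hB, fun k => ?_⟩
      rw [hBe]
      have := hk k
      nlinarith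
    · unfold shv
      beta_reduce
      rw [hl _ (hmv w hw _).2, hBe, ← (hmv w hw _).1, neg_smul]
      abel

lemma Sx.update [DecidableEq ι] (ha : Sx E a) {c : ι → ℝ} (hc : ∑ k, c k = 1) {i : ι}
    (hi : c i ≠ 0) : Sx E (Function.update a i (∑ k, c k • a k)) where
  mem k := by
    by_cases hk : k = i
    · subst hk
      rw [Function.update_self]
      exact E.sum_mem fun k _ => E.smul_mem _ (ha.mem k)
    · rw [Function.update_of_ne hk]
      exact ha.mem k
  ind w h0 h1 := by
    have e1 : ∑ k, w k • Function.update a i (∑ k, c k • a k) k =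
        ∑ k, ((if k = i then 0 else w k) + w i * c k) • a k := by
      rw [← Finset.add_sum_erase _ _ (Finset.mem_univ i), Function.update_self]
      simp only [add_smul, Finset.sum_add_distrib]
      rw [add_comm]
      congr 1
      · rw [← Finset.add_sum_erase _ (fun k => (if k = i then 0 else w k) • a k)
          (Finset.mem_univ i)]
        simp only [if_true, zero_smul, zero_add]
        refine Finset.sum_congr rfl fun k hk => ?_
        have hki := Finset.ne_of_mem_erase hk
        rw [Function.update_of_ne hki, if_neg hki]
      · rw [Finset.smul_sum]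
        refine Finset.sum_congr rfl fun k _ => ?_
        rw [smul_smul]
    rw [e1] at h1
    have e2 : ∑ k, (if k = i then 0 else w k) + w i = ∑ k, w k := by
      rw [← Finset.add_sum_erase _ w (Finset.mem_univ i),
        ← Finset.add_sum_erase _ (fun k => if k = i then 0 else w k) (Finset.mem_univ i)]
      simp only [if_true, zero_add]
      rw [add_comm]
      congr 1
      refine Finset.sum_congr rfl fun k hk => ?_
      rw [if_neg (Finset.ne_of_mem_erase hk)]
    have h2 := ha.ind _ (by
      rw [Finset.sum_add_distrib, ← Finset.mul_sum, hc, mul_one, e2, h0]) h1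
    have h3 := congrFun h2 i
    simp only [if_true, zero_add, Pi.zero_apply, mul_eq_zero] at h3
    have h4 : w i = 0 := h3.resolve_right hi
    ext k
    by_cases hk : k = i
    · rw [hk, h4]; rfl
    · have h5 := congrFun h2 k
      simpa [hk, h4] using h5
  spn x hx := by
    obtain ⟨w, hw, rfl⟩ := ha.spn x hx
    refine ⟨fun k => if k = i then w i / c i else w k - w i / c i * c k, ?_, ?_⟩
    · rw [← Finset.add_sum_erase _ _ (Finset.mem_univ i)]
      simp only [if_true]
      have e1 : ∑ k ∈ Finset.univ.erase i, (if k = i then w i / c i else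
          w k - w i / c i * c k) = ∑ k ∈ Finset.univ.erase i, (w k - w i / c i * c k) :=
        Finset.sum_congr rfl fun k hk => by rw [if_neg (Finset.ne_of_mem_erase hk)]
      rw [e1, Finset.sum_sub_distrib, ← Finset.mul_sum]
      have e2 := Finset.add_sum_erase Finset.univ w (Finset.mem_univ i)
      have e3 := Finset.add_sum_erase Finset.univ c (Finset.mem_univ i)
      rw [hw] at e2
      rw [hc] at e3
      have e4 : ∑ k ∈ Finset.univ.erase i, w k = 1 - w i := by linarith
      have e5 : ∑ k ∈ Finset.univ.erase i, c k = 1 - c i := by linarith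
      rw [e4, e5]
      field_simp
      ring
    · have e1 : ∑ k, (if k = i then w i / c i else w k - w i / c i * c k) •
          Function.update a i (∑ k, c k • a k) k =
          ∑ k ∈ Finset.univ.erase i, (w k - w i / c i * c k) • a k +
          (w i / c i) • ∑ k, c k • a k := by
        rw [← Finset.add_sum_erase _ _ (Finset.mem_univ i), Function.update_self, if_pos rfl,
          add_comm]
        congr 1
        refine Finset.sum_congr rfl fun k hk => ?_
        have hki := Finset.ne_of_mem_erase hk
        rw [Function.update_of_ne hki, if_neg hki]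
      rw [e1, Finset.smul_sum, ← Finset.add_sum_erase _ (fun k => (w i / c i) • c k • a k)
        (Finset.mem_univ i), ← Finset.add_sum_erase _ (fun k => w k • a k) (Finset.mem_univ i),
        add_left_comm, ← Finset.sum_add_distrib]
      congr 1
      · rw [smul_smul, div_mul_cancel₀ _ hi]
      · refine Finset.sum_congr rfl fun k _ => ?_
        rw [sub_smul, smul_smul]
        abel

/-- if only one coordinate of the apex is positive, the body is a simplex -/
lemma one_pos [DecidableEq ι] {c : ι → ℝ} (hc : ∑ k, c k = 1) {i : ι}
    (hi : 0 < c i) (hneg : ∀ k, k ≠ i → c k ≤ 0) :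
    convexHull ℝ (insert (∑ k, c k • a k) (range a)) =
      convexHull ℝ (range (Function.update a i (∑ k, c k • a k))) := by
  set v := ∑ k, c k • a k with hv
  apply Subset.antisymm
  · apply convexHull_min _ (convex_convexHull ℝ _)
    have hk : ∀ k, k ≠ i → a k ∈ convexHull ℝ (range (Function.update a i v)) := by
      intro k hk
      apply subset_convexHull
      exact ⟨k, Function.update_of_ne hk _ _⟩
    have hvm : v ∈ convexHull ℝ (range (Function.update a i v)) := by
      apply subset_convexHull
      exact ⟨i, Function.update_self _ _ _⟩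
    rintro _ (rfl | ⟨k, rfl⟩)
    · exact hvm
    · by_cases hki : k = i
      · subst hki
        refine mem_hull_range.2 ⟨fun l => if l = k then 1 / c k else -(c l / c k), ?_, ?_, ?_⟩
        · intro l
          by_cases hl : l = k
          · simp only [hl, if_true]
            positivity
          · simp only [hl, if_false]
            have := hneg l hl
            rw [neg_nonneg]
            exact div_nonpos_of_nonpos_of_nonneg this hi.le
        · rw [← Finset.add_sum_erase _ _ (Finset.mem_univ k)]
          simp only [if_true]
          have e1 : ∑ l ∈ Finset.univ.erase k, (if l = k then 1 / c k else -(c l / c k)) =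
              ∑ l ∈ Finset.univ.erase k, -(c l / c k) :=
            Finset.sum_congr rfl fun l hl => by rw [if_neg (Finset.ne_of_mem_erase hl)]
          rw [e1, Finset.sum_neg_distrib, ← Finset.sum_div]
          have e3 := Finset.add_sum_erase Finset.univ c (Finset.mem_univ k)
          rw [hc] at e3
          have e5 : ∑ l ∈ Finset.univ.erase k, c l = 1 - c k := by linarith
          rw [e5]
          field_simp
          ring
        · rw [← Finset.add_sum_erase _ _ (Finset.mem_univ k), Function.update_self]
          beta_reduce
          rw [if_pos rfl]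
          have e1 : ∑ l ∈ Finset.univ.erase k, (if l = k then 1 / c k else -(c l / c k)) •
              Function.update a k v l = ∑ l ∈ Finset.univ.erase k, (-(c l / c k)) • a l :=
            Finset.sum_congr rfl fun l hl => by
              have hlk := Finset.ne_of_mem_erase hl
              rw [if_neg hlk, Function.update_of_ne hlk]
          rw [e1, hv, ← Finset.add_sum_erase _ (fun l => c l • a l) (Finset.mem_univ k), smul_add,
            smul_smul, one_div, inv_mul_cancel₀ hi.ne', one_smul, add_assoc, Finset.smul_sum,
            ← Finset.sum_add_distrib]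
          rw [Finset.sum_eq_zero, add_zero]
          intro l _
          rw [smul_smul, ← add_smul]
          have : (c k)⁻¹ * c l + -(c l / c k) = 0 := by
            field_simp
            ring
          rw [this, zero_smul]
      · exact hk k hki
  · apply convexHull_mono
    rintro _ ⟨k, rfl⟩
    by_cases hk : k = i
    · subst hk
      rw [Function.update_self]
      exact mem_insert _ _
    · rw [Function.update_of_ne hk]
      exact mem_insert_of_mem _ ⟨k, rfl⟩

/-- hulls of `dim + 2` points can be replaced -/
theorem red_apex {p : ℝ} (hp : 0 < p) (ha : Sx E a)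
    (h0 : (0 : V n) ∈ convexHull ℝ (range a)) {v : V n} (hv : v ∈ E) :
    Red p E (convexHull ℝ (insert v (range a))) := by
  classical
  intro P R hPE hPE' hRc hR hR0 hRP hC
  obtain ⟨l, hlc, hl, hlt⟩ := ha.coord
  have key : ∀ N : ℕ, ∀ c : ι → ℝ, ∑ k, c k = 1 →
      (Finset.univ.filter fun k => 0 < c k).card ≤ N →
      Good p (convexHull ℝ (convexHull ℝ (insert (∑ k, c k • a k) (range a)) ∪ R)) := by
    intro N
    induction N with
    | zero =>
      intro c hc hN
      exfalso
      rw [Nat.le_zero, Finset.card_eq_zero, Finset.filter_eq_empty_iff] at hN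
      have : ∑ k, c k ≤ 0 := Finset.sum_nonpos fun k _ => by
        simpa using hN (Finset.mem_univ k)
      rw [hc] at this
      linarith
    | succ N ih =>
      intro c hc hN
      have hex : ∃ i, 0 < c i := by
        by_contra hcon
        push Not at hcon
        have : ∑ k, c k ≤ 0 := Finset.sum_nonpos fun k _ => hcon k
        rw [hc] at this
        linarith
      obtain ⟨i, hi⟩ := hex
      by_cases hj : ∃ j, j ≠ i ∧ 0 < c j
      · obtain ⟨j, hji, hj⟩ := hj
        set u : ι → ℝ := fun k => (if k = i then 1 else 0) - (if k = j then 1 else 0) with hu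
        have hu0 : ∑ k, u k = 0 := by
          rw [hu]
          simp [Finset.sum_sub_distrib]
        have hu2 : ∀ k, c k < 0 → u k = 0 := by
          intro k hk
          rw [hu]
          have hki : k ≠ i := by rintro rfl; linarith
          have hkj : k ≠ j := by rintro rfl; linarith
          simp [hki, hkj]
        have hu1 : ∀ t : ℝ, -c i ≤ t → t ≤ c j → ∀ k, c k < 0 ↔ c k + t * u k < 0 := by
          intro t ht0 ht1 k
          constructor
          · intro hk
            rw [hu2 k hk]
            linarith
          · intro hk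
            by_contra hcon
            rw [not_lt] at hcon
            have huk : u k = (if k = i then 1 else 0) - (if k = j then 1 else 0) := rfl
            by_cases hki : k = i
            · subst hki
              rw [if_pos rfl, if_neg hji.symm] at huk
              rw [huk] at hk
              linarith
            · by_cases hkj : k = j
              · subst hkj
                rw [if_neg hki, if_pos rfl] at huk
                rw [huk] at hk
                linarith
              · rw [if_neg hki, if_neg hkj] at huk
                rw [huk] at hk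
                linarith
        set θ := ∑ k, u k • a k with hθ
        have hθE : θ ∈ E := E.sum_mem fun k _ => E.smul_mem _ (ha.mem k)
        have e := fun (t : ℝ) (h0 : -c i ≤ t) (h1 : t ≤ c j) =>
          apex_hull ha hl hc hu0 (hu1 t h0 h1) hu2
        have hG : ∀ t : ℝ, -c i ≤ t → t ≤ c j → (t = -c i ∨ t = c j) →
            Good p (convexHull ℝ (convexHull ℝ
              (insert (∑ k, c k • a k + t • θ) (range a)) ∪ R)) := by
          intro t ht0 ht1 ht
          have hv' : ∑ k, c k • a k + t • θ = ∑ k, (c k + t * u k) • a k := by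
            rw [hθ, Finset.smul_sum, ← Finset.sum_add_distrib]
            refine Finset.sum_congr rfl fun k _ => ?_
            rw [add_smul, smul_smul]
          rw [hv']
          refine ih _ (by
            rw [Finset.sum_add_distrib, ← Finset.mul_sum, hc, hu0, mul_zero, add_zero]) ?_
          have hlt : (Finset.univ.filter fun k => 0 < c k + t * u k) ⊂
              (Finset.univ.filter fun k => 0 < c k) := by
            rw [Finset.ssubset_iff_of_subset]
            · rcases ht with ht | ht
              · refine ⟨i, by simp [hi], ?_⟩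
                simp [hu, hji.symm, ht]
              · refine ⟨j, by simp [hj], ?_⟩
                simp [hu, hji, ht]
            · intro k hk
              simp only [Finset.mem_filter, Finset.mem_univ, true_and] at hk ⊢
              by_cases hki : k = i
              · subst hki; exact hi
              · by_cases hkj : k = j
                · subst hkj; exact hj
                · simp only [hu, if_neg hki, if_neg hkj] at hk
                  linarith
          have := Finset.card_lt_card hlt
          omega
        have g0 := hG (-c i) le_rfl (by linarith) (Or.inl rfl)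
        have g1 := hG (c j) (by linarith) le_rfl (Or.inr rfl)
        rw [← e _ le_rfl (by linarith)] at g0
        rw [← e _ (by linarith) le_rfl] at g1
        have hLE : convexHull ℝ (insert (∑ k, c k • a k) (range a)) ⊆ (E : Set (V n)) := by
          apply convexHull_min _ E.convex
          rintro _ (rfl | ⟨k, rfl⟩)
          · exact E.sum_mem fun k _ => E.smul_mem _ (ha.mem k)
          · exact ha.mem k
        have hLc : IsCompact (convexHull ℝ (insert (∑ k, c k • a k) (range a))) :=
          ((finite_range a).insert _).isCompact_convexHull ℝ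
        have hBc : Continuous fun x : V n => BB c (l x) := (BB_cont c).comp hlc
        have hres := good_fs (P := P) (R := R)
          (L := convexHull ℝ (insert (∑ k, c k • a k) (range a))) (θ := θ)
          (β₀ := fun x => BB c (l x)) hp (hPE θ hθE) hBc.measurable (by
            intro x s
            show BB c (l (x + s • θ)) = BB c (l x)
            rw [hθ, hlt x s u hu0]
            apply BB_congr (fun k => Iff.rfl)
            intro k hk
            refine ⟨rfl, ?_⟩
            simp [hu2 k hk])
          (by
            obtain ⟨C, hC⟩ := (hLc.image hBc).isBounded.exists_norm_le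
            exact ⟨C, fun x hx => hC _ ⟨x, hx, rfl⟩⟩) hLc
          (convex_convexHull ℝ _) (convexHull_mono (subset_insert _ _) h0)
          (fun x hx => hPE x (hLE hx))
          hRc hR hR0 hRP (t0 := -c i) (t1 := c j) (t := 0) (by linarith) (by linarith) (by
            intro τ hτ
            have hτ' : -c i ≤ τ ∧ τ ≤ c j := by
              rcases hτ with rfl | rfl | rfl
              · exact ⟨le_rfl, by linarith⟩
              · exact ⟨by linarith, le_rfl⟩
              · exact ⟨by linarith, by linarith⟩
            rw [e τ hτ'.1 hτ'.2]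
            exact ⟨convex_convexHull ℝ _, convexHull_mono (subset_insert _ _) h0⟩) g0 g1
        rw [e 0 (by linarith) (by linarith)] at hres
        simpa using hres
      · push Not at hj
        rw [one_pos hc hi hj]
        refine red_simplex hp (ha.update hc hi.ne') ?_ P R hPE hPE' hRc hR hR0 hRP hC
        rw [← one_pos hc hi hj]
        exact convexHull_mono (subset_insert _ _) h0
  obtain ⟨c, hc, rfl⟩ := ha.spn v hv
  exact key _ c hc le_rfl

end

end Pool.Agent.H5.LP
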