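
import Pool.Graph.R_pool_sql_team_seeded_b3bd081e.H518R3.LP8

/-! Planar bodies with a marked point: abstract induction over polygons
(after `H518R3.LP.LP7`, `LP8`, with a marked point). -/

set_option autoImplicit false

open MeasureTheory Set Filter
open scoped ENNReal Topology

namespace Pool.Agent.H5.Pln

open Pool.Agent.H518R3.LP (T T_apply T_inj T_surj T_hull T_volume T_volume_zero Tri tri_eq_hull
  shear shear_volume Con con_convex hull_shear hull_drop tangents)

/-- closure properties of a predicate on pairs (planar set, marked point) -/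
structure PlanarPred (Pd : Set (ℝ × ℝ) → ℝ × ℝ → Prop) : Prop where
  aff : ∀ (α β γ δ : ℝ) (b : ℝ × ℝ) (C : Set (ℝ × ℝ)) (o : ℝ × ℝ), α * δ - β * γ ≠ 0 → Pd C o →
    Pd (T α β γ δ b '' C) (T α β γ δ b o)
  tri : ∀ o ∈ Tri, Pd Tri o
  shear : ∀ (K : Set (ℝ × ℝ)) (o : ℝ × ℝ) (t0 t1 : ℝ), IsCompact K → Convex ℝ K → o ∈ K →
    o.1 ≤ 0 → t0 ≤ 0 → 0 ≤ t1 → Convex ℝ (shear t0 '' K) → Convex ℝ (shear t1 '' K) →
    Pd (shear t0 '' K) o → Pd (shear t1 '' K) o → Pd K o

/-- a point of a polygon with at least four vertices lies in the hull of all but one of them -/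
lemma exists_erase [DecidableEq (ℝ × ℝ)] (S : Finset (ℝ × ℝ)) (hS : 4 ≤ S.card) {o : ℝ × ℝ}
    (ho : o ∈ convexHull ℝ (S : Set (ℝ × ℝ))) :
    ∃ v ∈ S, o ∈ convexHull ℝ ((S.erase v : Finset (ℝ × ℝ)) : Set (ℝ × ℝ)) := by
  obtain ⟨ι, hι, z, w, hz, hai, hw0, hw1, hwz⟩ := eq_pos_convex_span_of_mem_convexHull ho
  classical
  have hcard : (Finset.univ.image z).card ≤ 3 := by
    have h1 := hai.card_le_finrank_succ
    have h2 := Submodule.finrank_le (vectorSpan ℝ (Set.range z))
    have h3 : Module.finrank ℝ (ℝ × ℝ) = 2 := by simp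
    have h4 : (Finset.univ.image z).card ≤ Fintype.card ι := Finset.card_image_le
    omega
  have hex : ∃ v ∈ S, v ∉ Finset.univ.image z := by
    by_contra hcon
    push Not at hcon
    have := Finset.card_le_card (show S ⊆ Finset.univ.image z from hcon)
    omega
  obtain ⟨v, hv, hvn⟩ := hex
  refine ⟨v, hv, ?_⟩
  rw [← hwz]
  refine (convex_convexHull ℝ _).sum_mem (fun i _ => (hw0 i).le) hw1 (fun i _ => ?_)
  apply subset_convexHull
  rw [Finset.coe_erase]
  refine ⟨hz ⟨i, rfl⟩, ?_⟩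
  intro h
  apply hvn
  rw [← (mem_singleton_iff.1 h)]
  exact Finset.mem_image_of_mem z (Finset.mem_univ i)

lemma planar_triangle {Pd : Set (ℝ × ℝ) → ℝ × ℝ → Prop} (hP : PlanarPred Pd) (a b c : ℝ × ℝ)
    (hv : volume (convexHull ℝ ({b, a, c} : Set (ℝ × ℝ))) ≠ 0) {o : ℝ × ℝ}
    (ho : o ∈ convexHull ℝ ({b, a, c} : Set (ℝ × ℝ))) :
    Pd (convexHull ℝ ({b, a, c} : Set (ℝ × ℝ))) o := by
  set Tm := T (b.1 - a.1) (c.1 - a.1) (b.2 - a.2) (c.2 - a.2) a with hTm
  have h1 : convexHull ℝ ({b, a, c} : Set (ℝ × ℝ)) = Tm '' Tri := by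
    rw [tri_eq_hull, hTm, T_hull, image_insert_eq, image_pair]
    congr 3
    · rw [T_apply]
      ext
      · show b.1 = (b.1 - a.1) * 1 + (c.1 - a.1) * 0 + a.1
        ring
      · show b.2 = (b.2 - a.2) * 1 + (c.2 - a.2) * 0 + a.2
        ring
    · rw [T_apply]
      ext
      · show a.1 = (b.1 - a.1) * 0 + (c.1 - a.1) * 0 + a.1
        ring
      · show a.2 = (b.2 - a.2) * 0 + (c.2 - a.2) * 0 + a.2
        ring
    · rw [T_apply]
      congr 1
      ext
      · show c.1 = (b.1 - a.1) * 0 + (c.1 - a.1) * 1 + a.1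
        ring
      · show c.2 = (b.2 - a.2) * 0 + (c.2 - a.2) * 1 + a.2
        ring
  rw [h1] at hv ho ⊢
  by_cases hD : (b.1 - a.1) * (c.2 - a.2) - (c.1 - a.1) * (b.2 - a.2) = 0
  · exact absurd (T_volume_zero hD a Tri) hv
  · obtain ⟨o', ho', rfl⟩ := ho
    exact hP.aff _ _ _ _ a Tri o' hD (hP.tri o' ho')

lemma planar_small {Pd : Set (ℝ × ℝ) → ℝ × ℝ → Prop} (hP : PlanarPred Pd)
    (S : Finset (ℝ × ℝ)) (hS : S.card ≤ 3)
    (hv : volume (convexHull ℝ (S : Set (ℝ × ℝ))) ≠ 0) {o : ℝ × ℝ}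
    (ho : o ∈ convexHull ℝ (S : Set (ℝ × ℝ))) :
    Pd (convexHull ℝ (S : Set (ℝ × ℝ))) o := by
  have h : ∃ a b c : ℝ × ℝ, (S : Set (ℝ × ℝ)) = {b, a, c} := by
    have hne : S.Nonempty := by
      rw [Finset.nonempty_iff_ne_empty]
      rintro rfl
      apply hv
      simp
    have h1 : 0 < S.card := Finset.card_pos.2 hne
    have h2 : S.card = 1 ∨ S.card = 2 ∨ S.card = 3 := by omega
    rcases h2 with h2 | h2 | h2
    · obtain ⟨a, rfl⟩ := Finset.card_eq_one.1 h2
      exact ⟨a, a, a, by simp⟩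
    · obtain ⟨a, b, _, rfl⟩ := Finset.card_eq_two.1 h2
      exact ⟨a, a, b, by simp⟩
    · obtain ⟨a, b, c, _, _, _, rfl⟩ := Finset.card_eq_three.1 h2
      exact ⟨b, a, c, by simp⟩
  obtain ⟨a, b, c, h⟩ := h
  rw [h] at hv ho ⊢
  exact planar_triangle hP a b c hv ho

/-- the normalised induction step -/
lemma step_norm {Pd : Set (ℝ × ℝ) → ℝ × ℝ → Prop} (hP : PlanarPred Pd) (S : Finset (ℝ × ℝ))
    (hcard : 3 ≤ S.card)
    (h00 : ((0, 0) : ℝ × ℝ) ∈ S) (h01 : ((0, 1) : ℝ × ℝ) ∈ S)
    (hS : ∀ c ∈ S, 0 ≤ c.2 ∧ c.1 + c.2 ≤ 1)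
    (hneg : ∀ c ∈ S, c ≠ (0, 0) → c ≠ (0, 1) → c.1 < 0)
    (IH : ∀ S' : Finset (ℝ × ℝ), S'.card ≤ S.card → volume (convexHull ℝ (S' : Set (ℝ × ℝ))) ≠ 0 →
      ∀ o ∈ convexHull ℝ (S' : Set (ℝ × ℝ)), Pd (convexHull ℝ (S' : Set (ℝ × ℝ))) o)
    (hv : volume (convexHull ℝ (insert ((1, 0) : ℝ × ℝ) (S : Set (ℝ × ℝ)))) ≠ 0)
    {o : ℝ × ℝ} (ho : o ∈ convexHull ℝ (S : Set (ℝ × ℝ))) :
    Pd (convexHull ℝ (insert ((1, 0) : ℝ × ℝ) (S : Set (ℝ × ℝ)))) o := by
  classical
  set R := S.filter (fun c => c.1 < 0) with hR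
  have hRne : R.Nonempty := by
    by_contra hcon
    rw [Finset.not_nonempty_iff_eq_empty] at hcon
    have h1 : S ⊆ {(0, 0), (0, 1)} := by
      intro c hc
      by_contra h2
      rw [Finset.mem_insert, Finset.mem_singleton, not_or] at h2
      have h3 := hneg c hc h2.1 h2.2
      have : c ∈ R := Finset.mem_filter.2 ⟨hc, h3⟩
      rw [hcon] at this
      exact absurd this (Finset.notMem_empty c)
    have h2 := Finset.card_le_card h1
    have h3 : ({(0, 0), (0, 1)} : Finset (ℝ × ℝ)).card ≤ 2 := Finset.card_le_two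
    omega
  obtain ⟨c1, hc1, hmin1⟩ := Finset.exists_min_image R
    (fun c => (1 - c.1 - c.2) / (-c.1)) hRne
  obtain ⟨c0, hc0, hmin0⟩ := Finset.exists_min_image R (fun c => c.2 / (-c.1)) hRne
  obtain ⟨hc1S, hc1n⟩ := Finset.mem_filter.1 hc1
  obtain ⟨hc0S, hc0n⟩ := Finset.mem_filter.1 hc0
  set t1 := (1 - c1.1 - c1.2) / (-c1.1) with ht1
  set t0 := -(c0.2 / (-c0.1)) with ht0
  have hn1 : 0 < -c1.1 := by linarith
  have hn0 : 0 < -c0.1 := by linarith
  have ht1p : 0 ≤ t1 := div_nonneg (by linarith [(hS c1 hc1S).2]) hn1.le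
  have ht0n : t0 ≤ 0 := by
    rw [ht0, neg_nonpos]
    exact div_nonneg (hS c0 hc0S).1 hn0.le
  have hle : ∀ c ∈ S, c.1 ≤ 0 := by
    intro c hc
    by_cases h1 : c = (0, 0)
    · rw [h1]
    · by_cases h2 : c = (0, 1)
      · rw [h2]
      · exact (hneg c hc h1 h2).le
  have hcon0 : ∀ c ∈ (S : Set (ℝ × ℝ)), c.1 ≤ 0 ∧ Con 0 c := by
    intro c hc
    have h1 := hS c hc
    exact ⟨hle c hc, by rw [zero_mul]; exact h1.1, by rw [zero_mul, sub_zero]; exact h1.2⟩
  have hcon1 : ∀ c ∈ (S : Set (ℝ × ℝ)), c.1 ≤ 0 ∧ Con t1 c := by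
    intro c hc
    have h1 := hS c hc
    have h2 := hle c hc
    refine ⟨h2, ?_, ?_⟩
    · nlinarith
    · rcases eq_or_lt_of_le h2 with h3 | h3
      · rw [h3, mul_zero, sub_zero]
        have := h1.2
        rw [h3] at this
        exact this
      · have h4 := hmin1 c (Finset.mem_filter.2 ⟨hc, h3⟩)
        have h5 : 0 < -c.1 := by linarith
        have h6 : t1 * (-c.1) ≤ 1 - c.1 - c.2 := (le_div_iff₀ h5).1 h4
        linarith
  have hcont0 : ∀ c ∈ (S : Set (ℝ × ℝ)), c.1 ≤ 0 ∧ Con t0 c := by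
    intro c hc
    have h1 := hS c hc
    have h2 := hle c hc
    have h7 : 0 ≤ t0 * c.1 := mul_nonneg_of_nonpos_of_nonpos ht0n h2
    refine ⟨h2, ?_, by linarith [h1.2]⟩
    rcases eq_or_lt_of_le h2 with h3 | h3
    · rw [h3, mul_zero]
      exact h1.1
    · have h4 := hmin0 c (Finset.mem_filter.2 ⟨hc, h3⟩)
      have h5 : 0 < -c.1 := by linarith
      have h6 : c0.2 / (-c0.1) * (-c.1) ≤ c.2 := (le_div_iff₀ h5).1 h4
      have h8 : t0 * c.1 = c0.2 / (-c0.1) * (-c.1) := by rw [ht0]; ring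
      rw [h8]
      exact h6
  have e1 := hull_shear (S := (S : Set (ℝ × ℝ))) h00 h01 hcon1 hcon0
  have e0 := hull_shear (S := (S : Set (ℝ × ℝ))) h00 h01 hcont0 hcon0
  set K0 := convexHull ℝ (insert ((1, 0) : ℝ × ℝ) (S : Set (ℝ × ℝ))) with hK0
  have hK0c : IsCompact K0 := (S.finite_toSet.insert ((1, 0) : ℝ × ℝ)).isCompact_convexHull (𝕜 := ℝ)
  -- end 1
  have g1 : Pd (shear t1 '' K0) o := by
    have hb : ((0, 1) : ℝ × ℝ) ∈ convexHull ℝ
        ((insert ((1, t1) : ℝ × ℝ) (S : Set (ℝ × ℝ))) \ {(0, 1)}) := by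
      have k1 : ((1, t1) : ℝ × ℝ) ∈ convexHull ℝ
          ((insert ((1, t1) : ℝ × ℝ) (S : Set (ℝ × ℝ))) \ {(0, 1)}) := by
        apply subset_convexHull
        refine ⟨mem_insert _ _, ?_⟩
        intro h
        have := congrArg Prod.fst (mem_singleton_iff.1 h)
        simp at this
      have k2 : c1 ∈ convexHull ℝ
          ((insert ((1, t1) : ℝ × ℝ) (S : Set (ℝ × ℝ))) \ {(0, 1)}) := by
        apply subset_convexHull
        refine ⟨mem_insert_of_mem _ hc1S, ?_⟩
        intro h
        rw [mem_singleton_iff.1 h] at hc1n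
        simp at hc1n
      have hd : 0 < 1 - c1.1 := by linarith
      have k3 := (convex_convexHull ℝ
        ((insert ((1, t1) : ℝ × ℝ) (S : Set (ℝ × ℝ))) \ {(0, 1)})) k1 k2
        (show 0 ≤ -c1.1 / (1 - c1.1) by positivity) (show 0 ≤ 1 / (1 - c1.1) by positivity)
        (by field_simp; ring)
      have hne : c1.1 ≠ 0 := hc1n.ne
      have e : (-c1.1 / (1 - c1.1)) • ((1, t1) : ℝ × ℝ) + (1 / (1 - c1.1)) • c1 = (0, 1) := by
        ext
        · simp only [Prod.fst_add, Prod.smul_fst, smul_eq_mul]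
          field_simp
          ring
        · simp only [Prod.snd_add, Prod.smul_snd, smul_eq_mul]
          rw [ht1]
          field_simp
          ring
      rwa [e] at k3
    have hd := hull_drop hb
    have ho1 : o ∈ convexHull ℝ (insert ((1, t1) : ℝ × ℝ) (S : Set (ℝ × ℝ))) :=
      convexHull_mono (subset_insert _ _) ho
    rw [hd] at ho1
    rw [← e1, hd]
    have hcast : ((insert ((1, t1) : ℝ × ℝ) (S : Set (ℝ × ℝ))) \ {(0, 1)}) =
        (((insert ((1, t1) : ℝ × ℝ) S).erase (0, 1) : Finset (ℝ × ℝ)) : Set (ℝ × ℝ)) := by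
      rw [Finset.coe_erase, Finset.coe_insert]
    rw [hcast]
    apply IH
    · rw [Finset.card_erase_of_mem (Finset.mem_insert_of_mem h01)]
      have := Finset.card_insert_le ((1, t1) : ℝ × ℝ) S
      omega
    · rw [← hcast, ← hd, e1, shear_volume]
      exact hv
    · rw [← hcast]
      exact ho1
  have g0 : Pd (shear t0 '' K0) o := by
    have hb : ((0, 0) : ℝ × ℝ) ∈ convexHull ℝ
        ((insert ((1, t0) : ℝ × ℝ) (S : Set (ℝ × ℝ))) \ {(0, 0)}) := by
      have k1 : ((1, t0) : ℝ × ℝ) ∈ convexHull ℝ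
          ((insert ((1, t0) : ℝ × ℝ) (S : Set (ℝ × ℝ))) \ {(0, 0)}) := by
        apply subset_convexHull
        refine ⟨mem_insert _ _, ?_⟩
        intro h
        have := congrArg Prod.fst (mem_singleton_iff.1 h)
        simp at this
      have k2 : c0 ∈ convexHull ℝ
          ((insert ((1, t0) : ℝ × ℝ) (S : Set (ℝ × ℝ))) \ {(0, 0)}) := by
        apply subset_convexHull
        refine ⟨mem_insert_of_mem _ hc0S, ?_⟩
        intro h
        rw [mem_singleton_iff.1 h] at hc0n
        simp at hc0n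
      have hd : 0 < 1 - c0.1 := by linarith
      have k3 := (convex_convexHull ℝ
        ((insert ((1, t0) : ℝ × ℝ) (S : Set (ℝ × ℝ))) \ {(0, 0)})) k1 k2
        (show 0 ≤ -c0.1 / (1 - c0.1) by positivity) (show 0 ≤ 1 / (1 - c0.1) by positivity)
        (by field_simp; ring)
      have hne : c0.1 ≠ 0 := hc0n.ne
      have e : (-c0.1 / (1 - c0.1)) • ((1, t0) : ℝ × ℝ) + (1 / (1 - c0.1)) • c0 = (0, 0) := by
        ext
        · simp only [Prod.fst_add, Prod.smul_fst, smul_eq_mul]
          field_simp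
          ring
        · simp only [Prod.snd_add, Prod.smul_snd, smul_eq_mul]
          rw [ht0]
          field_simp
          ring
      rwa [e] at k3
    have hd := hull_drop hb
    have ho1 : o ∈ convexHull ℝ (insert ((1, t0) : ℝ × ℝ) (S : Set (ℝ × ℝ))) :=
      convexHull_mono (subset_insert _ _) ho
    rw [hd] at ho1
    rw [← e0, hd]
    have hcast : ((insert ((1, t0) : ℝ × ℝ) (S : Set (ℝ × ℝ))) \ {(0, 0)}) =
        (((insert ((1, t0) : ℝ × ℝ) S).erase (0, 0) : Finset (ℝ × ℝ)) : Set (ℝ × ℝ)) := by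
      rw [Finset.coe_erase, Finset.coe_insert]
    rw [hcast]
    apply IH
    · rw [Finset.card_erase_of_mem (Finset.mem_insert_of_mem h00)]
      have := Finset.card_insert_le ((1, t0) : ℝ × ℝ) S
      omega
    · rw [← hcast, ← hd, e0, shear_volume]
      exact hv
    · rw [← hcast]
      exact ho1
  have ho1 : o.1 ≤ 0 :=
    (convexHull_min (fun c hc => hcon0 c hc) (con_convex 0) ho).1
  refine hP.shear K0 o t0 t1 hK0c (convex_convexHull ℝ _)
    (convexHull_mono (subset_insert _ _) ho) ho1 ht0n ht1p ?_ ?_ g0 g1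
  · rw [← e0]
    exact convex_convexHull ℝ _
  · rw [← e1]
    exact convex_convexHull ℝ _

theorem planar_poly {Pd : Set (ℝ × ℝ) → ℝ × ℝ → Prop} (hP : PlanarPred Pd) :
    ∀ n : ℕ, ∀ S : Finset (ℝ × ℝ), S.card ≤ n →
    volume (convexHull ℝ (S : Set (ℝ × ℝ))) ≠ 0 → ∀ o ∈ convexHull ℝ (S : Set (ℝ × ℝ)),
      Pd (convexHull ℝ (S : Set (ℝ × ℝ))) o := by
  classical
  intro n
  induction n with
  | zero => exact fun S hS hv o ho => planar_small hP S (by omega) hv ho
  | succ n ih =>
    intro S hS hv o ho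
    by_cases h3 : S.card ≤ 3
    · exact planar_small hP S h3 hv ho
    by_cases hpos : ∃ b ∈ S, b ∈ convexHull ℝ ((S : Set (ℝ × ℝ)) \ {b})
    · obtain ⟨b, hb, hb2⟩ := hpos
      have h1 := hull_drop hb2
      rw [h1, ← Finset.coe_erase] at hv ho ⊢
      apply ih _ _ hv _ ho
      rw [Finset.card_erase_of_mem hb]
      omega
    · have hconv : ∀ b ∈ S, b ∉ convexHull ℝ ((S : Set (ℝ × ℝ)) \ {b}) := fun b hb h =>
        hpos ⟨b, hb, h⟩
      obtain ⟨v, hvS, hov⟩ := exists_erase S (by omega) ho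
      set S' := S.erase v with hS'
      have hcard : S'.card = S.card - 1 := Finset.card_erase_of_mem hvS
      have hins : insert v (S' : Set (ℝ × ℝ)) = (S : Set (ℝ × ℝ)) := by
        rw [hS', Finset.coe_erase, insert_sdiff_singleton, insert_eq_of_mem]
        exact hvS
      have hvn : v ∉ convexHull ℝ (S' : Set (ℝ × ℝ)) := by
        rw [hS', Finset.coe_erase]
        exact hconv v hvS
      obtain ⟨A, hA, B, hB, hD, hcoord⟩ := tangents S' v (Finset.card_pos.1 (by omega)) rfl hvn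
        (by rw [hins]; exact hv)
      set Tm := T (v.1 - A.1) (B.1 - A.1) (v.2 - A.2) (B.2 - A.2) A with hTm
      have hinj : Function.Injective Tm := T_inj hD A
      have hsurj : Function.Surjective Tm := T_surj hD A
      set e : (ℝ × ℝ) ≃ (ℝ × ℝ) := Equiv.ofBijective Tm ⟨hinj, hsurj⟩ with he
      have heT : ∀ x, e x = Tm x := fun x => rfl
      have t00 : Tm (0, 0) = A := by
        rw [hTm, T_apply]
        ext
        · show (v.1 - A.1) * 0 + (B.1 - A.1) * 0 + A.1 = A.1
          ring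
        · show (v.2 - A.2) * 0 + (B.2 - A.2) * 0 + A.2 = A.2
          ring
      have t01 : Tm (0, 1) = B := by
        rw [hTm, T_apply]
        ext
        · show (v.1 - A.1) * 0 + (B.1 - A.1) * 1 + A.1 = B.1
          ring
        · show (v.2 - A.2) * 0 + (B.2 - A.2) * 1 + A.2 = B.2
          ring
      have t10 : Tm (1, 0) = v := by
        rw [hTm, T_apply]
        ext
        · show (v.1 - A.1) * 1 + (B.1 - A.1) * 0 + A.1 = v.1
          ring
        · show (v.2 - A.2) * 1 + (B.2 - A.2) * 0 + A.2 = v.2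
          ring
      set S1 := S'.map e.symm.toEmbedding with hS1
      have hS1card : S1.card = S'.card := Finset.card_map _
      have hmem : ∀ c, c ∈ S1 ↔ Tm c ∈ S' := by
        intro c
        rw [hS1, Finset.mem_map]
        constructor
        · rintro ⟨s, hs, rfl⟩
          show e (e.symm s) ∈ S'
          rwa [Equiv.apply_symm_apply]
        · intro h
          exact ⟨Tm c, h, by show e.symm (e c) = c; exact e.symm_apply_apply c⟩
      have himg : Tm '' (insert ((1, 0) : ℝ × ℝ) (S1 : Set (ℝ × ℝ))) = (S : Set (ℝ × ℝ)) := by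
        rw [image_insert_eq, t10, ← hins]
        congr 1
        ext x
        constructor
        · rintro ⟨c, hc, rfl⟩
          exact (hmem c).1 hc
        · intro hx
          obtain ⟨c, rfl⟩ := hsurj x
          exact ⟨c, (hmem c).2 hx, rfl⟩
      have hhull : Tm '' convexHull ℝ (insert ((1, 0) : ℝ × ℝ) (S1 : Set (ℝ × ℝ))) =
          convexHull ℝ (S : Set (ℝ × ℝ)) := by
        rw [hTm, T_hull, ← hTm, himg]
      have hKm : MeasurableSet (convexHull ℝ (insert ((1, 0) : ℝ × ℝ) (S1 : Set (ℝ × ℝ)))) :=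
        ((S1.finite_toSet.insert ((1, 0) : ℝ × ℝ)).isCompact_convexHull ℝ).isClosed.measurableSet
      -- the coordinates
      have hco : ∀ c ∈ S1, 0 ≤ c.2 ∧ c.1 + c.2 ≤ 1 := by
        intro c hc
        obtain ⟨x, y, hx, hy, e1, e2⟩ := hcoord (Tm c) ((hmem c).1 hc)
        have h1 : Tm c = Tm (1 - x - y, y) := by
          rw [hTm, T_apply] at e1 e2 ⊢
          rw [T_apply]
          simp only at e1 e2 ⊢
          ext
          · simp only
            linarith
          · simp only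
            linarith
        have h2 := hinj h1
        rw [h2]
        exact ⟨hy, by show 1 - x - y + y ≤ 1; linarith⟩
      have hneg : ∀ c ∈ S1, c ≠ (0, 0) → c ≠ (0, 1) → c.1 < 0 := by
        intro c hc hc0 hc1
        by_contra hcon
        rw [not_lt] at hcon
        have h1 := hco c hc
        have hcS : Tm c ∈ S' := (hmem c).1 hc
        have hcS2 : Tm c ∈ S := Finset.mem_of_mem_erase hcS
        apply hconv (Tm c) hcS2
        have k1 : v ∈ convexHull ℝ ((S : Set (ℝ × ℝ)) \ {Tm c}) := by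
          apply subset_convexHull
          refine ⟨hvS, ?_⟩
          intro h
          exact Finset.ne_of_mem_erase hcS (mem_singleton_iff.1 h).symm
        have k2 : A ∈ convexHull ℝ ((S : Set (ℝ × ℝ)) \ {Tm c}) := by
          apply subset_convexHull
          refine ⟨Finset.mem_of_mem_erase hA, ?_⟩
          intro h
          apply hc0
          apply hinj
          rw [t00]
          exact (mem_singleton_iff.1 h).symm
        have k3 : B ∈ convexHull ℝ ((S : Set (ℝ × ℝ)) \ {Tm c}) := by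
          apply subset_convexHull
          refine ⟨Finset.mem_of_mem_erase hB, ?_⟩
          intro h
          apply hc1
          apply hinj
          rw [t01]
          exact (mem_singleton_iff.1 h).symm
        -- `Tm c = c.1 v + c.2 B + (1 - c.1 - c.2) A`
        have hcv : Convex ℝ (convexHull ℝ ((S : Set (ℝ × ℝ)) \ {Tm c})) := convex_convexHull ℝ _
        have h5 := hcv.sum_mem (t := (Finset.univ : Finset (Fin 3)))
          (w := ![c.1, c.2, 1 - c.1 - c.2]) (z := ![v, B, A])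
          (by
            intro i _
            fin_cases i
            · exact hcon
            · exact h1.1
            · show 0 ≤ 1 - c.1 - c.2
              linarith [h1.2])
          (by
            simp [Fin.sum_univ_three])
          (by
            intro i _
            fin_cases i
            · exact k1
            · exact k3
            · exact k2)
        have h6 : ∑ i : Fin 3, (![c.1, c.2, 1 - c.1 - c.2] i) • (![v, B, A] i) = Tm c := by
          rw [Fin.sum_univ_three, hTm, T_apply]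
          ext
          · simp
            ring
          · simp
            ring
        rwa [h6] at h5
      have hhull1 : Tm '' convexHull ℝ (S1 : Set (ℝ × ℝ)) = convexHull ℝ (S' : Set (ℝ × ℝ)) := by
        rw [hTm, T_hull, ← hTm]
        congr 1
        ext x
        constructor
        · rintro ⟨c, hc, rfl⟩
          exact (hmem c).1 hc
        · intro hx
          obtain ⟨c, rfl⟩ := hsurj x
          exact ⟨c, (hmem c).2 hx, rfl⟩
      obtain ⟨o', ho', rfl⟩ : o ∈ Tm '' convexHull ℝ (S1 : Set (ℝ × ℝ)) := by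
        rw [hhull1]
        exact hov
      rw [← hhull]
      rw [← hhull] at hv
      refine hP.aff _ _ _ _ A _ _ hD ?_
      refine step_norm hP S1 (by omega) ((hmem _).2 (by rw [t00]; exact hA))
        ((hmem _).2 (by rw [t01]; exact hB)) hco hneg ?_ ?_ ho'
      · intro S'' hS'' hv''
        exact ih S'' (by omega) hv''
      · intro h0
        apply hv
        rw [hTm, T_volume hD A hKm, h0, mul_zero]

end Pool.Agent.H5.Pln
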