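import Pool.Agent.H5.LP.B3
import Pool.Agent.H5.LP.B4
import Pool.Graph.R_pool_sql_team_seeded_b3bd081e.H518R3.LP9

/-! Replacing planar summands. -/

set_option autoImplicit false

open MeasureTheory Set Filter
open scoped ENNReal Topology Pointwise

namespace Pool.Agent.H5.LP

variable {n : ℕ}

lemma I_mono {p : ℝ} (hp : 0 < p) {K P : Set (V n)} (h : K ⊆ P) (ξ : V n) :
    I p P ξ ≤ I p K ξ := by
  unfold I
  apply lintegral_mono
  intro y
  show _ * ((J p P y) ^ (1 / p))⁻¹ ≤ _ * ((J p K y) ^ (1 / p))⁻¹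
  have h1 : J p K y ≤ J p P y := lintegral_mono_set h
  have hp' : 0 ≤ 1 / p := by positivity
  gcongr

/-- the inequality passes to limits -/
lemma good_approx {p : ℝ} (hp : 0 < p) {K : Set (V n)} (hK : IsCompact K) (z : V n)
    (h : ∀ ε : ℝ, 0 < ε → ε < 1 → ∃ K' ⊆ K, Good p K' ∧
      (fun x => (1 - ε) • x + ε • z) '' K ⊆ K') : Good p K := by
  intro ξ
  have hq : 0 < 1 + 1 / p := by positivity
  have key : ∀ k : ℕ, (ENNReal.ofReal ((1 - 1 / ((k : ℝ) + 2)) ^ n)) ^ (1 + 1 / p) * Lam n p ≤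
      Fu p K ξ := by
    intro k
    set ε : ℝ := 1 / ((k : ℝ) + 2) with hε
    have hε0 : 0 < ε := by positivity
    have hε1 : ε < 1 := by
      rw [hε, div_lt_one (by positivity)]
      have : (0 : ℝ) ≤ k := by positivity
      linarith
    have h1e : 0 < 1 - ε := by linarith
    obtain ⟨K', hKK, hg, hsub⟩ := h ε hε0 hε1
    have hdet : ((1 - ε) • (1 : Matrix (Fin n) (Fin n) ℝ)).det = (1 - ε) ^ n := by
      rw [Matrix.det_smul, Matrix.det_one, mul_one, Fintype.card_fin]
    have hD : ((1 - ε) • (1 : Matrix (Fin n) (Fin n) ℝ)).det ≠ 0 := by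
      rw [hdet]; positivity
    set Tm := T ((1 - ε) • (1 : Matrix (Fin n) (Fin n) ℝ)) (ε • z) with hTm
    have hTx : ∀ x, Tm x = (1 - ε) • x + ε • z := by
      intro x
      rw [hTm]
      unfold T
      rw [Matrix.smul_mulVec, Matrix.one_mulVec]
    have hTi : Tm '' K = (fun x => (1 - ε) • x + ε • z) '' K := image_congr fun x _ => hTx x
    have hvolT := T_volume hD (ε • z) hK.measurableSet
    rw [← hTm, hdet, abs_of_nonneg (by positivity)] at hvolT
    have h2 : (volume K') ^ (1 + 1 / p) ≤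
        (volume K) ^ (1 + 1 / p) := ENNReal.rpow_le_rpow (measure_mono hKK) hq.le
    have h3 : I p K' (Tm ξ) ≤ I p (Tm '' K) (Tm ξ) := I_mono hp (by rw [hTi]; exact hsub) _
    have h4 : Lam n p ≤ (volume K) ^ (1 + 1 / p) * I p (Tm '' K) (Tm ξ) :=
      (hg (Tm ξ)).trans (mul_le_mul' h2 h3)
    calc (ENNReal.ofReal ((1 - ε) ^ n)) ^ (1 + 1 / p) * Lam n p
        ≤ (ENNReal.ofReal ((1 - ε) ^ n)) ^ (1 + 1 / p) *
          ((volume K) ^ (1 + 1 / p) * I p (Tm '' K) (Tm ξ)) := by gcongr
      _ = Fu p (Tm '' K) (Tm ξ) := by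
          unfold Fu
          rw [hvolT, ENNReal.mul_rpow_of_nonneg _ _ hq.le, mul_assoc]
      _ = Fu p K ξ := Fu_T hD (ε • z) hK.measurableSet hp ξ
  have hlim : Tendsto (fun k : ℕ => (ENNReal.ofReal ((1 - 1 / ((k : ℝ) + 2)) ^ n)) ^ (1 + 1 / p) *
      Lam n p) atTop (𝓝 (1 * Lam n p)) := by
    apply ENNReal.Tendsto.mul_const _ (Or.inl one_ne_zero)
    have h1 : Tendsto (fun k : ℕ => 1 / ((k : ℝ) + 2)) atTop (𝓝 0) := by
      have h2 : Tendsto (fun k : ℕ => (k : ℝ) + 2) atTop atTop :=
        tendsto_atTop_add_const_right _ _ tendsto_natCast_atTop_atTop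
      have h3 := tendsto_inv_atTop_zero.comp h2
      simpa only [one_div, Function.comp_def] using h3
    have h2 : Tendsto (fun k : ℕ => (1 - 1 / ((k : ℝ) + 2)) ^ n) atTop (𝓝 ((1 - 0) ^ n)) :=
      (tendsto_const_nhds.sub h1).pow n
    have h3 := (ENNReal.tendsto_ofReal h2)
    have h4 := ((ENNReal.continuous_rpow_const (y := 1 + 1 / p)).tendsto _).comp h3
    simpa [Function.comp_def] using h4
  rw [one_mul] at hlim
  exact le_of_tendsto' hlim key

open Pool.Agent.H518R3.LP (Lm Lm_apply Tri tri_eq_hull shear exists_finset)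
open Pool.Agent.H5.Pln (PlanarPred planar_poly)

/-- the planar predicate attached to a free sum -/
def PdE (p : ℝ) (E : Submodule ℝ (V n)) (R : Set (V n)) (C : Set (ℝ × ℝ)) (o : ℝ × ℝ) : Prop :=
  ∀ φ : (ℝ × ℝ) →ₗ[ℝ] V n, Function.Injective φ → LinearMap.range φ = E →
    Good p (convexHull ℝ ((fun x => φ (x - o)) '' C ∪ R))

lemma phi_image_convex {φ : (ℝ × ℝ) →ₗ[ℝ] V n} {C : Set (ℝ × ℝ)} (hC : Convex ℝ C) (o : ℝ × ℝ) :
    Convex ℝ ((fun x => φ (x - o)) '' C) := by
  rintro _ ⟨x, hx, rfl⟩ _ ⟨y, hy, rfl⟩ s t hs ht hst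
  refine ⟨s • x + t • y, hC hx hy hs ht hst, ?_⟩
  show φ (s • x + t • y - o) = s • φ (x - o) + t • φ (y - o)
  rw [← map_smul, ← map_smul, ← map_add]
  congr 1
  rw [smul_sub, smul_sub]
  have : o = s • o + t • o := by rw [← add_smul, hst, one_smul]
  nth_rw 1 [this]
  abel

lemma planarPred_E {p : ℝ} (hp : 0 < p) {E : Submodule ℝ (V n)} {R : Set (V n)}
    {P : V n →ₗ[ℝ] V n} (hPE : ∀ x ∈ E, P x = x) (hPE' : ∀ x, P x ∈ E)
    (hRc : IsCompact R) (hR : Convex ℝ R) (hR0 : (0 : V n) ∈ R) (hRP : ∀ x ∈ R, P x = 0)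
    (hC : ∀ C, Corner E C → Good p (convexHull ℝ (C ∪ R))) : PlanarPred (PdE p E R) where
  aff α β γ δ b C o hD h φ hφ hr := by
    have h1 := h (φ.comp ((Lm α β γ δ : (ℝ × ℝ) →L[ℝ] (ℝ × ℝ)) : (ℝ × ℝ) →ₗ[ℝ] (ℝ × ℝ))) (by
      intro x y hxy
      have h2 := hφ hxy
      apply Pool.Agent.H518R3.LP.T_inj hD 0
      show Lm α β γ δ x + 0 = Lm α β γ δ y + 0
      rw [add_zero, add_zero]
      exact h2) (by
      rw [LinearMap.range_comp, ← hr, LinearMap.range_eq_map φ]
      congr 1
      rw [LinearMap.range_eq_top]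
      intro z
      obtain ⟨w, hw⟩ := Pool.Agent.H518R3.LP.T_surj hD 0 z
      refine ⟨w, ?_⟩
      have : Lm α β γ δ w + 0 = z := hw
      rw [add_zero] at this
      exact this)
    have e : (fun x => φ (x - Pool.Agent.H518R3.LP.T α β γ δ b o)) ''
        (Pool.Agent.H518R3.LP.T α β γ δ b '' C) =
        (fun x => (φ.comp ((Lm α β γ δ : (ℝ × ℝ) →L[ℝ] (ℝ × ℝ)) : (ℝ × ℝ) →ₗ[ℝ] (ℝ × ℝ)))
          (x - o)) '' C := by
      rw [image_image]
      refine image_congr fun x _ => ?_
      show φ (Lm α β γ δ x + b - (Lm α β γ δ o + b)) = φ (Lm α β γ δ (x - o))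
      rw [map_sub (Lm α β γ δ)]
      congr 1
      abel
    rw [e]
    exact h1
  tri o ho φ hφ hr := by
    set a : Fin 3 → V n := fun k => φ ((![((1, 0) : ℝ × ℝ), (0, 0), (0, 1)] k) - o) with ha
    have hφE : ∀ x, φ x ∈ E := fun x => by rw [← hr]; exact LinearMap.mem_range_self φ x
    have hsum : ∀ w : Fin 3 → ℝ, ∑ k, w k = 1 →
        ∑ k, w k • a k = φ ((w 0, w 2) - o) := by
      intro w hw
      rw [ha]
      simp only [← map_smul, ← map_sum]
      congr 1
      rw [Fin.sum_univ_three] at hw ⊢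
      ext
      · simp
        linear_combination (-o.1) * hw
      · simp
        linear_combination (-o.2) * hw
    have hSx : Sx E a := by
      refine ⟨fun k => hφE _, ?_, ?_⟩
      · intro w h0 h1
        have h2 : ∑ k, w k • a k = φ (w 0, w 2) := by
          rw [ha]
          simp only [← map_smul, ← map_sum]
          congr 1
          rw [Fin.sum_univ_three] at h0 ⊢
          ext
          · simp
            linear_combination (-o.1) * h0
          · simp
            linear_combination (-o.2) * h0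
        rw [h2] at h1
        have h3 := hφ (h1.trans (map_zero φ).symm)
        rw [Prod.mk_eq_zero] at h3
        rw [Fin.sum_univ_three, h3.1, h3.2] at h0
        ext k
        fin_cases k
        · exact h3.1
        · simpa using h0
        · exact h3.2
      · intro x hx
        rw [← hr] at hx
        obtain ⟨y, rfl⟩ := hx
        refine ⟨![y.1 + o.1, 1 - (y.1 + o.1) - (y.2 + o.2), y.2 + o.2], ?_, ?_⟩
        · rw [Fin.sum_univ_three]
          simp only [Matrix.cons_val]
          ring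
        · rw [hsum _ (by rw [Fin.sum_univ_three]; simp only [Matrix.cons_val]; ring)]
          congr 1
          ext
          · simp
          · simp
    have e : (fun x => φ (x - o)) '' Tri = convexHull ℝ (range a) := by
      ext x
      constructor
      · rintro ⟨y, ⟨h1, h2, h3⟩, rfl⟩
        have hw : ∑ k, (![y.1, 1 - y.1 - y.2, y.2] : Fin 3 → ℝ) k = 1 := by
          rw [Fin.sum_univ_three]
          simp only [Matrix.cons_val]
          ring
        refine mem_hull_range.2 ⟨![y.1, 1 - y.1 - y.2, y.2], ?_, hw, ?_⟩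
        · intro k
          fin_cases k
          · exact h1
          · show 0 ≤ 1 - y.1 - y.2
            linarith
          · exact h2
        · rw [hsum _ hw]
          rfl
      · intro hx
        obtain ⟨w, h1, h2, rfl⟩ := mem_hull_range.1 hx
        refine ⟨(w 0, w 2), ⟨h1 0, h1 2, ?_⟩, ?_⟩
        · show w 0 + w 2 ≤ 1
          rw [Fin.sum_univ_three] at h2
          linarith [h1 1]
        · exact (hsum w h2).symm
    rw [e]
    refine red_simplex hp hSx ?_ P R hPE hPE' hRc hR hR0 hRP hC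
    rw [← e]
    exact ⟨o, ho, by simp⟩
  shear K o t0 t1 hK hKc ho ho1 ht0 ht1 hc0 hc1 g0 g1 φ hφ hr := by
    have hφE : ∀ x, φ x ∈ E := fun x => by rw [← hr]; exact LinearMap.mem_range_self φ x
    have hker : LinearMap.ker φ = ⊥ := LinearMap.ker_eq_bot.2 hφ
    obtain ⟨ψ, hψ⟩ := LinearMap.exists_leftInverse_of_injective φ hker
    have hψ' : ∀ x, ψ (φ x) = x := fun x => by
      have := LinearMap.congr_fun hψ x
      simpa using this
    have hψc : Continuous ψ := LinearMap.continuous_of_finiteDimensional ψ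
    have hφc : Continuous φ := LinearMap.continuous_of_finiteDimensional φ
    set θ := φ (0, 1) with hθ
    set β₀ : V n → ℝ := fun e => max ((ψ e).1 + o.1) 0 with hβ₀
    have hβc : Continuous β₀ := by
      rw [hβ₀]
      fun_prop
    have himg : ∀ τ, shv θ β₀ τ '' ((fun x => φ (x - o)) '' K) =
        (fun x => φ (x - o)) '' (shear τ '' K) := by
      intro τ
      rw [image_image, image_image]
      refine image_congr fun x _ => ?_
      unfold shv shear
      rw [hβ₀, hθ]
      simp only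
      rw [hψ', ← map_smul, ← map_add]
      congr 1
      ext
      · simp
      · simp
        ring
    have hsh0 : shear 0 '' K = K := by
      have : shear 0 = id := by
        ext x
        · rfl
        · show x.2 + 0 * max x.1 0 = x.2
          ring
      rw [this, image_id]
    have hsho : ∀ τ, shear τ o = o := by
      intro τ
      unfold shear
      rw [max_eq_right ho1]
      ext <;> simp
    have hLc : IsCompact ((fun x => φ (x - o)) '' K) := hK.image (by fun_prop)
    have hres := good_fs (P := P) (R := R) (L := (fun x => φ (x - o)) '' K) (θ := θ)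
      (β₀ := β₀) (t0 := t0) (t1 := t1) (t := 0) hp (hPE θ (hφE _)) hβc.measurable (by
        intro x s
        rw [hβ₀, hθ]
        simp only [map_add, map_smul, hψ']
        simp) (by
        obtain ⟨C, hC⟩ := (hLc.image hβc).isBounded.exists_norm_le
        exact ⟨C, fun x hx => hC _ ⟨x, hx, rfl⟩⟩) hLc (phi_image_convex hKc o)
      ⟨o, ho, by simp⟩ (by
        rintro _ ⟨x, _, rfl⟩
        exact hPE _ (hφE _)) hRc hR hR0 hRP ht0 ht1 (by
        intro τ hτ
        rw [himg]
        refine ⟨phi_image_convex ?_ o, ⟨o, ⟨o, ho, hsho τ⟩, by simp⟩⟩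
        rcases hτ with rfl | rfl | rfl
        · exact hc0
        · exact hc1
        · rw [hsh0]; exact hKc) (by
        rw [himg]
        exact g0 φ hφ hr) (by
        rw [himg]
        exact g1 φ hφ hr)
    rw [himg, hsh0] at hres
    exact hres

/-- planar bodies can be replaced -/
theorem red_planar_aux {p : ℝ} (hp : 0 < p) {E : Submodule ℝ (V n)} {C : Set (ℝ × ℝ)}
    (hCc : IsCompact C) (hCv : Convex ℝ C) (hCi : (interior C).Nonempty)
    {o : ℝ × ℝ} (ho : o ∈ C) {φ : (ℝ × ℝ) →ₗ[ℝ] V n} (hφ : Function.Injective φ)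
    (hr : LinearMap.range φ = E) : Red p E ((fun x => φ (x - o)) '' C) := by
  classical
  intro P R hPE hPE' hRc hR hR0 hRP hC
  have hPl := planarPred_E hp hPE hPE' hRc hR hR0 hRP hC
  have hφc : Continuous φ := LinearMap.continuous_of_finiteDimensional φ
  obtain ⟨z, hz⟩ := hCi
  have hL0 : (0 : V n) ∈ (fun x => φ (x - o)) '' C := ⟨o, ho, by simp⟩
  refine good_approx hp (compact_hull ((hCc.image (by fun_prop)).union hRc)) (φ (z - o)) ?_
  intro ε hε0 hε1
  have h1e : 0 < 1 - ε := by linarith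
  have hsub : (fun x : ℝ × ℝ => (1 - ε) • x + ε • z) '' C ⊆ interior C := by
    rintro _ ⟨x, hx, rfl⟩
    show (1 - ε) • x + ε • z ∈ _
    rw [add_comm]
    exact hCv.combo_interior_self_mem_interior hz hx hε0 h1e.le (by ring)
  obtain ⟨S, hSK, hSL⟩ := exists_finset (hCc.image (by fun_prop)) hsub
  set S' := insert o S with hS'
  have hS'K : (S' : Set (ℝ × ℝ)) ⊆ C := by
    rw [hS', Finset.coe_insert]
    exact insert_subset ho hSK
  have hQK : convexHull ℝ (S' : Set (ℝ × ℝ)) ⊆ C := convexHull_min hS'K hCv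
  have hoQ : o ∈ convexHull ℝ (S' : Set (ℝ × ℝ)) :=
    subset_convexHull ℝ _ (by rw [hS', Finset.coe_insert]; exact mem_insert _ _)
  have hSS' : convexHull ℝ (S : Set (ℝ × ℝ)) ⊆ convexHull ℝ (S' : Set (ℝ × ℝ)) :=
    convexHull_mono (by rw [hS', Finset.coe_insert]; exact subset_insert _ _)
  have hvol : volume (convexHull ℝ (S' : Set (ℝ × ℝ))) ≠ 0 := by
    have h1 : IsOpen ((fun x : ℝ × ℝ => (1 - ε) • x + ε • z) '' interior C) := by
      have h2 : (fun x : ℝ × ℝ => (1 - ε) • x + ε • z) =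
          ((Homeomorph.smulOfNeZero (1 - ε) h1e.ne').trans (Homeomorph.addRight (ε • z)) :
            (ℝ × ℝ) → (ℝ × ℝ)) := by
        ext x <;> rfl
      rw [h2]
      exact ((Homeomorph.smulOfNeZero (1 - ε) h1e.ne').trans
        (Homeomorph.addRight (ε • z))).isOpenMap _ isOpen_interior
    have h2 : 0 < volume ((fun x : ℝ × ℝ => (1 - ε) • x + ε • z) '' interior C) :=
      h1.measure_pos volume (Nonempty.image _ ⟨z, hz⟩)
    have h3 : (fun x : ℝ × ℝ => (1 - ε) • x + ε • z) '' interior C ⊆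
        convexHull ℝ (S' : Set (ℝ × ℝ)) :=
      (image_mono interior_subset).trans (hSL.trans hSS')
    exact (lt_of_lt_of_le h2 (measure_mono h3)).ne'
  have hg := planar_poly hPl S'.card S' le_rfl hvol o hoQ φ hφ hr
  refine ⟨_, ?_, hg, ?_⟩
  · apply convexHull_mono
    exact union_subset_union_left _ (image_mono hQK)
  · rintro _ ⟨x, hx, rfl⟩
    obtain ⟨_, ⟨c, hc, rfl⟩, r, hr', s, hs0, hs1, rfl⟩ :=
      (mem_hull_union (phi_image_convex hCv o) hR hL0 hR0).1 hx
    set K' := convexHull ℝ ((fun x => φ (x - o)) '' convexHull ℝ (S' : Set (ℝ × ℝ)) ∪ R) with hK'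
    have hcv : Convex ℝ K' := convex_convexHull ℝ _
    have m1 : φ (((1 - ε) • c + ε • z) - o) ∈ K' := by
      apply subset_convexHull
      left
      exact ⟨_, hSS' (hSL ⟨c, hc, rfl⟩), rfl⟩
    have m2 : φ (z - o) ∈ K' := by
      apply subset_convexHull
      left
      refine ⟨z, hSS' (hSL ⟨z, interior_subset hz, ?_⟩), rfl⟩
      show (1 - ε) • z + ε • z = z
      rw [← add_smul, sub_add_cancel, one_smul]
    have m3 : r ∈ K' := by
      apply subset_convexHull
      right
      exact hr'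
    have m4 := hcv m2 m3 hε0.le h1e.le (by ring)
    have m5 := hcv m1 m4 (show 0 ≤ 1 - s by linarith) hs0 (by ring)
    have e : (1 - s) • φ ((1 - ε) • c + ε • z - o) + s • (ε • φ (z - o) + (1 - ε) • r) =
        (1 - ε) • ((1 - s) • φ (c - o) + s • r) + ε • φ (z - o) := by
      have e1 : φ ((1 - ε) • c + ε • z - o) = (1 - ε) • φ (c - o) + ε • φ (z - o) := by
        rw [← map_smul, ← map_smul, ← map_add]
        congr 1
        module
      rw [e1]
      module
    show (1 - ε) • ((1 - s) • φ (c - o) + s • r) + ε • φ (z - o) ∈ K'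
    rw [← e]
    exact m5

end Pool.Agent.H5.LP
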