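import Pool.Agent.H5.LP.B5

/-! Assembly: few vertices, planar pieces, and the induction over the pieces. -/

set_option autoImplicit false

open MeasureTheory Set Filter
open scoped ENNReal Topology Pointwise

namespace Pool.Agent.H5.LP

variable {n : ℕ}

/-! ### few vertices -/

section

variable {ι : Type} [Fintype ι] {a : ι → V n} {E : Submodule ℝ (V n)}

lemma Corner.card {κ : Type} [Fintype κ] {b : κ → V n}
    (hb : LinearIndependent ℝ b) (hs : Submodule.span ℝ (range b) = E) :
    Fintype.card κ = Module.finrank ℝ E := by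
  rw [← hs, finrank_span_eq_card hb]

lemma Sx.linInd (h : Sx E a) {i₀ : ι} (h0 : a i₀ = 0) :
    LinearIndependent ℝ (fun k : {k // k ≠ i₀} => a k) := by
  classical
  rw [Fintype.linearIndependent_iff]
  intro g hg
  have h1 := h.ind (fun k => if hk : k ≠ i₀ then g ⟨k, hk⟩ else -∑ k, g k) (by
    rw [← Finset.add_sum_erase _ _ (Finset.mem_univ i₀)]
    simp only [ne_eq, not_true_eq_false, dite_false]
    rw [neg_add_eq_zero]
    rw [Finset.sum_subtype (s := Finset.univ.erase i₀) (p := fun k => k ≠ i₀) (by simp)]
    refine Finset.sum_congr rfl fun k _ => ?_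
    simp [k.2]) (by
    rw [← Finset.add_sum_erase _ _ (Finset.mem_univ i₀), h0, smul_zero, zero_add]
    rw [Finset.sum_subtype (s := Finset.univ.erase i₀) (p := fun k => k ≠ i₀) (by simp)]
    rw [← hg]
    refine Finset.sum_congr rfl fun k _ => ?_
    simp [k.2])
  intro k
  have h2 := congrFun h1 k.1
  simpa [k.2] using h2

lemma Sx.span (h : Sx E a) {i₀ : ι} (h0 : a i₀ = 0) :
    Submodule.span ℝ (range (fun k : {k // k ≠ i₀} => a k)) = E := by
  classical
  apply le_antisymm
  · rw [Submodule.span_le]
    rintro _ ⟨k, rfl⟩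
    exact h.mem _
  · intro x hx
    obtain ⟨w, h1, h2⟩ := h.spn x hx
    rw [← h2]
    apply Submodule.sum_mem
    intro k _
    apply Submodule.smul_mem
    by_cases hk : k = i₀
    · rw [hk, h0]
      exact Submodule.zero_mem _
    · exact Submodule.subset_span ⟨⟨k, hk⟩, rfl⟩

lemma Sx.card [Nonempty ι] (h : Sx E a) : Fintype.card ι = Module.finrank ℝ E + 1 := by
  classical
  obtain ⟨i₀⟩ := ‹Nonempty ι›
  have h1 := h.translate (E.neg_mem (h.mem i₀))
  have h0 : (fun k => a k + -a i₀) i₀ = 0 := by simp
  have h2 := finrank_span_eq_card (h1.linInd h0)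
  rw [h1.span h0] at h2
  have h3 : Fintype.card {k // k ≠ i₀} = Fintype.card ι - 1 := by
    rw [Fintype.card_subtype_compl, Fintype.card_subtype_eq]
  have h4 : 0 < Fintype.card ι := Fintype.card_pos_iff.2 ⟨i₀⟩
  rw [h2, h3]
  omega

/-- affine independence of a finite set of vectors -/
def AIF (T : Finset (V n)) : Prop :=
  ∀ w : V n → ℝ, ∑ x ∈ T, w x = 0 → ∑ x ∈ T, w x • x = 0 → ∀ x ∈ T, w x = 0

/-- hulls of at most `dim + 2` points can be replaced -/
theorem red_few {p : ℝ} (hp : 0 < p) {S : Finset (V n)}
    (h0 : (0 : V n) ∈ convexHull ℝ (S : Set (V n)))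
    (hE : Submodule.span ℝ (S : Set (V n)) = E) (hcard : S.card ≤ Module.finrank ℝ E + 2) :
    Red p E (convexHull ℝ (S : Set (V n))) := by
  classical
  obtain ⟨κ, hκ, z, μ, hz, hai, hw0, hw1, hwz⟩ := eq_pos_convex_span_of_mem_convexHull h0
  set T₀ : Finset (V n) := Finset.univ.image z with hT₀
  have hT₀S : T₀ ⊆ S := by
    intro x hx
    obtain ⟨k, _, rfl⟩ := Finset.mem_image.1 hx
    exact hz ⟨k, rfl⟩
  have hinj := hai.injective
  have hsumT₀ : ∀ {M : Type} [AddCommMonoid M] (f : V n → M), ∑ x ∈ T₀, f x = ∑ k, f (z k) := by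
    intro M _ f
    rw [hT₀, Finset.sum_image (fun x _ y _ h => hinj h)]
  have hAI₀ : AIF T₀ := by
    intro w h1 h2 x hx
    rw [hsumT₀] at h1 h2
    obtain ⟨k, _, rfl⟩ := Finset.mem_image.1 hx
    have h3 := (affineIndependent_iff.1 hai) Finset.univ (fun k => w (z k)) h1 h2
    exact h3 k (Finset.mem_univ k)
  obtain ⟨T, hT, hmax⟩ := Finset.exists_max_image
    (S.powerset.filter fun T => T₀ ⊆ T ∧ AIF T) Finset.card
    ⟨T₀, by
      rw [Finset.mem_filter, Finset.mem_powerset]
      exact ⟨hT₀S, Subset.rfl, hAI₀⟩⟩
  rw [Finset.mem_filter, Finset.mem_powerset] at hT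
  obtain ⟨hTS, hT₀T, hAI⟩ := hT
  -- zero as a convex combination
  have h0T : (0 : V n) ∈ convexHull ℝ (T : Set (V n)) := by
    rw [← hwz]
    refine (convex_convexHull ℝ _).sum_mem (fun i _ => (hw0 i).le) hw1 (fun i _ => ?_)
    apply subset_convexHull
    exact hT₀T (Finset.mem_image_of_mem z (Finset.mem_univ i))
  have hTne : T.Nonempty := by
    rw [Finset.nonempty_iff_ne_empty]
    rintro rfl
    simp at h0T
  set a : T → V n := fun k => k with ha
  have hra : range a = (T : Set (V n)) := by
    rw [ha]
    exact Subtype.range_coe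
  rw [← hra] at h0T
  obtain ⟨ν, hν0, hν1, hν2⟩ := mem_hull_range.1 h0T
  have hSE : ∀ x ∈ S, x ∈ E := fun x hx => by
    rw [← hE]; exact Submodule.subset_span hx
  -- the affine span of `T` as a submodule
  let F : Submodule ℝ (V n) :=
    { carrier := {x | ∃ u : T → ℝ, ∑ k, u k = 1 ∧ ∑ k, u k • a k = x}
      zero_mem' := ⟨ν, hν1, hν2⟩
      add_mem' := by
        rintro x y ⟨u, hu1, rfl⟩ ⟨v, hv1, rfl⟩
        refine ⟨fun k => u k + v k - ν k, ?_, ?_⟩
        · rw [Finset.sum_sub_distrib, Finset.sum_add_distrib, hu1, hv1, hν1]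
          ring
        · simp only [sub_smul, add_smul, Finset.sum_sub_distrib, Finset.sum_add_distrib, hν2,
            sub_zero]
      smul_mem' := by
        rintro s x ⟨u, hu1, rfl⟩
        refine ⟨fun k => s * u k + (1 - s) * ν k, ?_, ?_⟩
        · rw [Finset.sum_add_distrib, ← Finset.mul_sum, ← Finset.mul_sum, hu1, hν1]
          ring
        · simp only [add_smul, Finset.sum_add_distrib, mul_smul, ← Finset.smul_sum, hν2,
            smul_zero, add_zero] }
  have hSF : ∀ x ∈ S, x ∈ F := by
    intro x hx
    by_cases hxT : x ∈ T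
    · refine ⟨Pi.single ⟨x, hxT⟩ 1, ?_, ?_⟩
      · simp
      · simp [Pi.single_apply, ite_smul, ha]
    · have hn : ¬AIF (insert x T) := by
        intro hA
        have h1 := hmax (insert x T) (by
          rw [Finset.mem_filter, Finset.mem_powerset]
          exact ⟨Finset.insert_subset hx hTS, hT₀T.trans (Finset.subset_insert _ _), hA⟩)
        rw [Finset.card_insert_of_notMem hxT] at h1
        omega
      unfold AIF at hn
      push Not at hn
      obtain ⟨w, h1, h2, y, hy, hyn⟩ := hn
      rw [Finset.sum_insert hxT] at h1 h2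
      have hwx : w x ≠ 0 := by
        intro h
        rw [h, zero_add] at h1
        rw [h, zero_smul, zero_add] at h2
        have h3 := hAI w h1 h2
        rw [Finset.mem_insert] at hy
        rcases hy with rfl | hy
        · exact hyn h
        · exact hyn (h3 y hy)
      refine ⟨fun k => -(w k / w x), ?_, ?_⟩
      · rw [Finset.sum_neg_distrib, ← Finset.sum_div]
        have h4 : ∑ k : T, w k = -w x := by
          rw [Finset.sum_coe_sort T w]
          linarith
        rw [h4]
        field_simp
      · have h4 : ∑ k : T, w k • a k = -(w x • x) := by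
          have h5 := Finset.sum_coe_sort T (fun y => w y • y)
          rw [ha]
          rw [h5]
          exact eq_neg_of_add_eq_zero_right h2
        have h5 : ∑ k : T, (-(w k / w x)) • a k = -((w x)⁻¹ • ∑ k : T, w k • a k) := by
          rw [Finset.smul_sum, ← Finset.sum_neg_distrib]
          refine Finset.sum_congr rfl fun k _ => ?_
          rw [smul_smul, ← neg_smul]
          congr 1
          field_simp
        rw [h5, h4, smul_neg, neg_neg, smul_smul, inv_mul_cancel₀ hwx, one_smul]
  have hEF : E ≤ F := by
    rw [← hE, Submodule.span_le]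
    exact hSF
  have hSx : Sx E a := by
    refine ⟨fun k => hSE _ (hTS k.2), ?_, fun x hx => hEF hx⟩
    intro w h1 h2
    have h3 := hAI (fun x => if hx : x ∈ T then w ⟨x, hx⟩ else 0) (by
      rw [← Finset.sum_coe_sort T]
      rw [← h1]
      refine Finset.sum_congr rfl fun k _ => ?_
      simp) (by
      rw [← Finset.sum_coe_sort T (fun x => (if hx : x ∈ T then w ⟨x, hx⟩ else 0) • x)]
      rw [← h2]
      refine Finset.sum_congr rfl fun k _ => ?_
      simp [ha])
    ext k
    have h4 := h3 k k.2
    simpa using h4
  have : Nonempty T := hTne.to_subtype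
  have hTc : T.card = Module.finrank ℝ E + 1 := by
    rw [← hSx.card, Fintype.card_coe]
  by_cases hST : S = T
  · rw [hST, ← hra]
    exact red_simplex hp hSx h0T
  · have hss : T ⊂ S := lt_of_le_of_ne hTS (fun h => hST h.symm)
    obtain ⟨v, hvS, hvT⟩ := Finset.exists_of_ssubset hss
    have hins : S = insert v T := by
      symm
      apply Finset.eq_of_subset_of_card_le (Finset.insert_subset hvS hTS)
      rw [Finset.card_insert_of_notMem hvT]
      omega
    rw [hins, Finset.coe_insert, ← hra]
    exact red_apex hp hSx h0T (hSE v hvS)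

end

/-! ### planar pieces -/

theorem red_planar {p : ℝ} (hp : 0 < p) {E : Submodule ℝ (V n)} {L : Set (V n)}
    (hLc : IsCompact L) (hL : Convex ℝ L) (h0 : (0 : V n) ∈ L)
    (hE : Submodule.span ℝ L = E) (hd : Module.finrank ℝ E = 2) : Red p E L := by
  classical
  have hd' : Module.finrank ℝ (ℝ × ℝ) = Module.finrank ℝ E := by rw [hd]; simp
  set φ₀ : (ℝ × ℝ) ≃ₗ[ℝ] E := LinearEquiv.ofFinrankEq (ℝ × ℝ) E hd' with hφ₀
  set φ : (ℝ × ℝ) →ₗ[ℝ] V n := E.subtype.comp φ₀.toLinearMap with hφ
  have hφi : Function.Injective φ := by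
    rw [hφ]
    exact Subtype.val_injective.comp φ₀.injective
  have hφr : LinearMap.range φ = E := by
    rw [hφ, LinearMap.range_comp, LinearEquiv.range, Submodule.map_top, Submodule.range_subtype]
  obtain ⟨ψ, hψ⟩ := LinearMap.exists_leftInverse_of_injective φ (LinearMap.ker_eq_bot.2 hφi)
  have hψ' : ∀ x, ψ (φ x) = x := fun x => by
    have := LinearMap.congr_fun hψ x
    simpa using this
  have hψc : Continuous ψ := LinearMap.continuous_of_finiteDimensional ψ
  have hφψ : ∀ x ∈ E, φ (ψ x) = x := by
    intro x hx
    rw [← hφr] at hx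
    obtain ⟨y, rfl⟩ := hx
    rw [hψ']
  have hLE : ∀ x ∈ L, x ∈ E := fun x hx => by rw [← hE]; exact Submodule.subset_span hx
  have hC0 : (0 : ℝ × ℝ) ∈ ψ '' L := ⟨0, h0, map_zero ψ⟩
  have himg : (fun x => φ (x - 0)) '' (ψ '' L) = L := by
    rw [image_image]
    ext x
    constructor
    · rintro ⟨y, hy, rfl⟩
      show φ (ψ y - 0) ∈ L
      rw [sub_zero, hφψ y (hLE y hy)]
      exact hy
    · intro hx
      exact ⟨x, hx, by show φ (ψ x - 0) = x; rw [sub_zero, hφψ x (hLE x hx)]⟩
  have hspan : Submodule.span ℝ (ψ '' L) = ⊤ := by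
    rw [Submodule.span_image, hE, ← hφr, ← LinearMap.range_comp, hψ, LinearMap.range_id]
  have hint : (interior (ψ '' L)).Nonempty := by
    rw [(hL.linear_image ψ).interior_nonempty_iff_affineSpan_eq_top]
    have h1 : insert (0 : ℝ × ℝ) (ψ '' L) = ψ '' L := insert_eq_of_mem hC0
    have h2 := affineSpan_insert_zero (k := ℝ) (ψ '' L)
    rw [h1, hspan] at h2
    rw [← SetLike.coe_set_eq, h2]
    rfl
  have h3 := red_planar_aux hp (hLc.image hψc) (hL.linear_image ψ) hint hC0 hφi hφr
  rw [himg] at h3
  exact h3

/-! ### corner simplices in all pieces -/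

lemma del_hull : Del n = convexHull ℝ (insert 0 (range fun i : Fin n => (Pi.single i 1 : V n))) := by
  classical
  apply Subset.antisymm
  · rintro x ⟨h1, h2⟩
    have hc : Convex ℝ (convexHull ℝ (insert 0 (range fun i : Fin n => (Pi.single i 1 : V n)))) :=
      convex_convexHull ℝ _
    have h3 := hc.sum_mem (t := (Finset.univ : Finset (Option (Fin n))))
      (w := fun o => o.elim (1 - ∑ i, x i) x)
      (z := fun o => o.elim 0 fun i => (Pi.single i 1 : V n))
      (by
        rintro (_ | i) _
        · show 0 ≤ 1 - ∑ i, x i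
          linarith
        · exact h1 i)
      (by
        rw [Fintype.sum_option]
        simp)
      (by
        rintro (_ | i) _
        · exact subset_convexHull ℝ _ (mem_insert _ _)
        · exact subset_convexHull ℝ _ (mem_insert_of_mem _ ⟨i, rfl⟩))
    have h4 : ∑ o : Option (Fin n), (fun o => o.elim (1 - ∑ i, x i) x : Option (Fin n) → ℝ) o •
        (fun o => o.elim 0 fun i => (Pi.single i 1 : V n) : Option (Fin n) → V n) o = x := by
      rw [Fintype.sum_option]
      simp only [Option.elim, smul_zero, zero_add]
      ext j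
      simp [Finset.sum_apply, Pi.single_apply]
    rw [h4] at h3
    exact h3
  · apply convexHull_min
    · rintro _ (rfl | ⟨i, rfl⟩)
      · exact ⟨fun _ => le_rfl, by simp⟩
      · refine ⟨fun j => ?_, by simp⟩
        by_cases h : j = i
        · subst h; simp
        · simp [Pi.single_eq_of_ne h]
    · rintro x ⟨h1, h2⟩ y ⟨h3, h4⟩ s t hs ht hst
      refine ⟨fun i => ?_, ?_⟩
      · have := h1 i
        have := h3 i
        simp only [Pi.add_apply, Pi.smul_apply, smul_eq_mul]
        positivity
      · simp only [Pi.add_apply, Pi.smul_apply, smul_eq_mul, Finset.sum_add_distrib,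
          ← Finset.mul_sum]
        nlinarith

lemma del_compact : IsCompact (Del n) := by
  rw [del_hull]
  exact ((finite_range _).insert 0).isCompact_convexHull ℝ

lemma good_basis {p : ℝ} (hp : 0 < p) {κ : Type} [Fintype κ] (B : Module.Basis κ ℝ (V n)) :
    Good p (convexHull ℝ (insert 0 (range B))) := by
  classical
  have hc : Fintype.card κ = n := by
    have := Module.finrank_eq_card_basis B
    rw [← this]
    simp
  set e : κ ≃ Fin n := Fintype.equivFinOfCardEq hc with he
  set A : V n ≃ₗ[ℝ] V n := (Pi.basisFun ℝ (Fin n)).equiv B e.symm with hA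
  have h1 : A '' Del n = convexHull ℝ (insert 0 (range B)) := by
    rw [del_hull]
    have h2 := (A : V n →ₗ[ℝ] V n).image_convexHull
      (insert 0 (range fun i : Fin n => (Pi.single i 1 : V n)))
    have h3 : (A : V n →ₗ[ℝ] V n) '' (insert 0 (range fun i : Fin n => (Pi.single i 1 : V n))) =
        insert 0 (range B) := by
      rw [image_insert_eq, map_zero, ← range_comp]
      congr 1
      ext x
      constructor
      · rintro ⟨i, rfl⟩
        refine ⟨e.symm i, ?_⟩
        show B (e.symm i) = A (Pi.single i 1)
        rw [hA, ← Pi.basisFun_apply, Module.Basis.equiv_apply]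
      · rintro ⟨k, rfl⟩
        refine ⟨e k, ?_⟩
        show A (Pi.single (e k) 1) = B k
        rw [hA, ← Pi.basisFun_apply, Module.Basis.equiv_apply, Equiv.symm_apply_apply]
    rw [h3] at h2
    exact h2
  rw [← h1]
  exact (good_del p).linear hp A del_compact.measurableSet

lemma good_corners {p : ℝ} (hp : 0 < p) {ι : Type} [Fintype ι] [Nonempty ι]
    {E : ι → Submodule ℝ (V n)} (hi : iSupIndep E) (ht : ⨆ i, E i = ⊤)
    {K : ι → Set (V n)} (hK : ∀ i, Corner (E i) (K i)) :
    Good p (convexHull ℝ (⋃ i, K i)) := by
  classical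
  choose κ hκ b hb hs hKe using hK
  have hint : DirectSum.IsInternal E :=
    DirectSum.isInternal_submodule_of_iSupIndep_of_iSup_eq_top hi ht
  set v : ∀ i, Module.Basis (κ i) ℝ (E i) := fun i =>
    (Module.Basis.span (hb i)).map (LinearEquiv.ofEq _ _ (hs i)) with hv
  have hvb : ∀ i k, ((v i k : E i) : V n) = b i k := by
    intro i k
    rw [hv]
    simp
  set B := hint.collectedBasis v with hB
  have hBr : (range B) = ⋃ i, range (b i) := by
    rw [hB, DirectSum.IsInternal.collectedBasis_coe]
    ext x
    simp only [mem_range, mem_iUnion, Sigma.exists, hvb]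
  have h1 : convexHull ℝ (⋃ i, K i) = convexHull ℝ (insert 0 (range B)) := by
    apply Subset.antisymm
    · apply convexHull_min _ (convex_convexHull ℝ _)
      apply iUnion_subset
      intro i
      rw [hKe i]
      apply convexHull_mono
      apply insert_subset_insert
      rw [hBr]
      exact subset_iUnion (fun i => range (b i)) i
    · apply convexHull_mono
      obtain ⟨i₀⟩ := ‹Nonempty ι›
      apply insert_subset
      · rw [mem_iUnion]
        refine ⟨i₀, ?_⟩
        rw [hKe i₀]
        exact subset_convexHull ℝ _ (mem_insert _ _)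
      · rw [hBr]
        apply iUnion_mono
        intro i
        rw [hKe i]
        exact (subset_insert _ _).trans (subset_convexHull ℝ _)
  rw [h1]
  exact good_basis hp B

/-! ### the induction over the pieces -/

lemma Corner.props {E : Submodule ℝ (V n)} {C : Set (V n)} (h : Corner E C) :
    IsCompact C ∧ Convex ℝ C ∧ (0 : V n) ∈ C ∧ C ⊆ E := by
  obtain ⟨κ, _, b, hb, hs, rfl⟩ := h
  refine ⟨((finite_range b).insert 0).isCompact_convexHull ℝ, convex_convexHull ℝ _,
    subset_convexHull ℝ _ (mem_insert _ _), ?_⟩
  apply convexHull_min _ E.convex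
  rintro _ (rfl | ⟨k, rfl⟩)
  · exact E.zero_mem
  · show b k ∈ E
    rw [← hs]
    exact Submodule.subset_span ⟨k, rfl⟩

theorem good_pieces {p : ℝ} (hp : 0 < p) {ι : Type} [Fintype ι] [Nonempty ι]
    {E : ι → Submodule ℝ (V n)} (hi : iSupIndep E) (ht : ⨆ i, E i = ⊤) :
    ∀ (s : Finset ι) (K : ι → Set (V n)), (∀ i, IsCompact (K i)) → (∀ i, Convex ℝ (K i)) →
      (∀ i, (0 : V n) ∈ K i) → (∀ i, K i ⊆ E i) →
      (∀ i ∈ s, Red p (E i) (K i)) → (∀ i ∉ s, Corner (E i) (K i)) →
      Good p (convexHull ℝ (⋃ i, K i)) := by
  classical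
  intro s
  induction s using Finset.induction_on with
  | empty =>
    intro K _ _ _ _ _ hC
    exact good_corners hp hi ht fun i => hC i (Finset.notMem_empty i)
  | insert j s hj ih =>
    intro K hKc hKv hK0 hKE hr hC
    set W : Submodule ℝ (V n) := ⨆ i ∈ ({i | i ≠ j} : Set ι), E i with hW
    have hcompl : IsCompl (E j) W := by
      constructor
      · have := hi j
        rw [hW]
        simpa using this
      · rw [codisjoint_iff_le_sup, ← ht]
        apply iSup_le
        intro i
        by_cases hij : i = j
        · subst hij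
          exact le_sup_left
        · refine le_trans ?_ le_sup_right
          rw [hW]
          exact le_iSup₂_of_le i hij le_rfl
    set P : V n →ₗ[ℝ] V n := (E j).subtype.comp (Submodule.projectionOnto (E j) W hcompl)
      with hP
    have hPE : ∀ x ∈ E j, P x = x := by
      intro x hx
      rw [hP]
      have := Submodule.projectionOnto_apply_left hcompl ⟨x, hx⟩
      simp only [LinearMap.comp_apply, Submodule.subtype_apply]
      rw [this]
    have hPE' : ∀ x, P x ∈ E j := fun x => (Submodule.projectionOnto (E j) W hcompl x).2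
    have hPW : ∀ x ∈ W, P x = 0 := by
      intro x hx
      rw [hP]
      simp only [LinearMap.comp_apply, Submodule.subtype_apply]
      have := Submodule.projectionOnto_apply_right hcompl ⟨x, hx⟩
      rw [this]
      rfl
    set R : Set (V n) := convexHull ℝ (insert 0 (⋃ i ∈ ({i | i ≠ j} : Set ι), K i)) with hR
    have hRc : IsCompact R := by
      apply compact_hull
      apply IsCompact.insert
      exact (Set.toFinite _).isCompact_biUnion fun i _ => hKc i
    have hR0 : (0 : V n) ∈ R := subset_convexHull ℝ _ (mem_insert _ _)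
    have hRW : ∀ x ∈ R, x ∈ W := by
      intro x hx
      have hsub : R ⊆ (W : Set (V n)) := by
        apply convexHull_min _ W.convex
        apply insert_subset W.zero_mem
        apply iUnion₂_subset
        intro i hij x hx
        have h1 : E i ≤ W := le_iSup₂_of_le i hij le_rfl
        exact h1 (hKE i hx)
      exact hsub hx
    -- the hull with the `j`-th piece replaced
    have hupd : ∀ C : Set (V n), (0 : V n) ∈ C →
        convexHull ℝ (⋃ i, Function.update K j C i) = convexHull ℝ (C ∪ R) := by
      intro C hC0
      apply Subset.antisymm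
      · apply convexHull_mono
        apply iUnion_subset
        intro i
        by_cases hij : i = j
        · subst hij
          rw [Function.update_self]
          exact subset_union_left
        · rw [Function.update_of_ne hij]
          refine subset_union_of_subset_right ?_ _
          refine Subset.trans ?_ (subset_convexHull ℝ _)
          refine Subset.trans ?_ (subset_insert _ _)
          exact subset_biUnion_of_mem (u := K) (show i ∈ ({i | i ≠ j} : Set ι) from hij)
      · apply convexHull_min _ (convex_convexHull ℝ _)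
        have h1 : C ⊆ convexHull ℝ (⋃ i, Function.update K j C i) := by
          refine Subset.trans ?_ (subset_convexHull ℝ _)
          refine Subset.trans ?_ (subset_iUnion _ j)
          rw [Function.update_self]
        apply union_subset h1
        apply convexHull_min _ (convex_convexHull ℝ _)
        apply insert_subset (h1 hC0)
        apply iUnion₂_subset
        intro i hij
        refine Subset.trans ?_ (subset_convexHull ℝ _)
        refine Subset.trans ?_ (subset_iUnion _ i)
        rw [Function.update_of_ne hij]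
    have hKself : ⋃ i, Function.update K j (K j) i = ⋃ i, K i := by
      rw [Function.update_eq_self]
    rw [← hKself, hupd _ (hK0 j)]
    refine hr j (Finset.mem_insert_self _ _) P R hPE hPE' hRc (convex_convexHull ℝ _) hR0
      (fun x hx => hPW x (hRW x hx)) ?_
    intro C hCc
    obtain ⟨c1, c2, c3, c4⟩ := hCc.props
    rw [← hupd C c3]
    apply ih
    · intro i
      by_cases hij : i = j
      · subst hij; rw [Function.update_self]; exact c1
      · rw [Function.update_of_ne hij]; exact hKc i
    · intro i
      by_cases hij : i = j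
      · subst hij; rw [Function.update_self]; exact c2
      · rw [Function.update_of_ne hij]; exact hKv i
    · intro i
      by_cases hij : i = j
      · subst hij; rw [Function.update_self]; exact c3
      · rw [Function.update_of_ne hij]; exact hK0 i
    · intro i
      by_cases hij : i = j
      · subst hij; rw [Function.update_self]; exact c4
      · rw [Function.update_of_ne hij]; exact hKE i
    · intro i his
      have hij : i ≠ j := by rintro rfl; exact hj his
      rw [Function.update_of_ne hij]
      exact hr i (Finset.mem_insert_of_mem his)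
    · intro i his
      by_cases hij : i = j
      · subst hij; rw [Function.update_self]; exact hCc
      · rw [Function.update_of_ne hij]
        apply hC
        rw [Finset.mem_insert, not_or]
        exact ⟨hij, his⟩

end Pool.Agent.H5.LP
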