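import Pool.Agent.H5.LP.B6

/-! Shifts outside the simplex, and the `L^p` Mahler volume. -/

set_option autoImplicit false

open MeasureTheory Set Filter
open scoped ENNReal Topology Pointwise

namespace Pool.Agent.H5.LP

variable {n : ℕ}

/-- the `L^p` Mahler volume on `Fin n → ℝ` -/
noncomputable def Mp (p : ℝ) (L : Set (V n)) : ℝ≥0∞ := volume L *
  ∫⁻ y : V n, ENNReal.ofReal
    (((∫ x in L, Real.exp (p * ∑ i, x i * y i)) / (volume L).toReal) ^ (-(1 / p)))

lemma J_pos {p : ℝ} {K : Set (V n)} (hvol : volume K ≠ 0) (y : V n) : J p K y ≠ 0 := by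
  unfold J
  intro h
  rw [lintegral_eq_zero_iff (by
    apply Measurable.ennreal_ofReal
    apply Continuous.measurable
    fun_prop)] at h
  apply hvol
  have h2 : ∀ᵐ x ∂(volume.restrict K), False := by
    filter_upwards [h] with x hx
    have : 0 < ENNReal.ofReal (Real.exp (p * ∑ i, x i * y i)) :=
      ENNReal.ofReal_pos.2 (Real.exp_pos _)
    exact this.ne' hx
  have h3 := ae_eq_bot.1 (eventually_false_iff_eq_bot.1 h2)
  rwa [Measure.restrict_eq_zero] at h3

lemma J_fin {p : ℝ} {K : Set (V n)} (hK : IsCompact K) (y : V n) : J p K y ≠ ∞ := by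
  unfold J
  have hc : Continuous fun x : V n => Real.exp (p * ∑ i, x i * y i) := by fun_prop
  have := (hc.continuousOn.integrableOn_compact hK : IntegrableOn _ K volume)
  have h2 := this.2
  rw [hasFiniteIntegral_iff_ofReal (Eventually.of_forall fun a => (Real.exp_pos _).le)] at h2
  exact h2.ne

lemma Mp_eq {p : ℝ} (hp : 0 < p) {K : Set (V n)} (hK : IsCompact K) (hv : volume K ≠ 0) :
    Mp p K = Fu p K 0 := by
  have hp' : 0 < 1 / p := by positivity
  have hvt : volume K ≠ ∞ := hK.measure_ne_top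
  have hJ : ∀ y : V n, ∫ x in K, Real.exp (p * ∑ i, x i * y i) = (J p K y).toReal := by
    intro y
    unfold J
    rw [integral_eq_lintegral_of_nonneg_ae
      (Eventually.of_forall fun x => (Real.exp_pos _).le)
      (by
        apply Continuous.aestronglyMeasurable
        fun_prop)]
  unfold Mp Fu
  set v := volume K with hvdef
  have h1 : ∀ y : V n, ENNReal.ofReal
      (((∫ x in K, Real.exp (p * ∑ i, x i * y i)) / v.toReal) ^ (-(1 / p))) =
      v ^ (1 / p) * ((J p K y) ^ (1 / p))⁻¹ := by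
    intro y
    rw [hJ]
    set Y := J p K y with hY
    have hY0 : Y ≠ 0 := J_pos hv y
    have hYt : Y ≠ ∞ := J_fin hK y
    have hYr : 0 < Y.toReal := ENNReal.toReal_pos hY0 hYt
    have hVr : 0 < v.toReal := ENNReal.toReal_pos hv hvt
    rw [Real.rpow_neg (by positivity), ENNReal.ofReal_inv_of_pos (by positivity),
      ← ENNReal.ofReal_rpow_of_pos (by positivity), ENNReal.ofReal_div_of_pos hVr,
      ENNReal.ofReal_toReal hYt, ENNReal.ofReal_toReal hvt, ENNReal.div_rpow_of_nonneg _ _ hp'.le,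
      ENNReal.inv_div (Or.inl (ENNReal.rpow_ne_top_of_nonneg hp'.le hvt))
        (Or.inl (by simp [ENNReal.rpow_eq_zero_iff, hv, hvt])), div_eq_mul_inv]
  simp only [h1]
  rw [lintegral_const_mul' _ _ (ENNReal.rpow_ne_top_of_nonneg hp'.le hvt), ← mul_assoc,
    ENNReal.rpow_add _ _ hv hvt, ENNReal.rpow_one]
  congr 1
  unfold I
  refine lintegral_congr fun y => ?_
  simp

lemma Mp_shift {p : ℝ} (hp : 0 < p) {K : Set (V n)} (hK : IsCompact K) (hv : volume K ≠ 0)
    (x : V n) : Mp p ((fun z => z - x) '' K) = Fu p K x := by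
  have hD : (1 : Matrix (Fin n) (Fin n) ℝ).det ≠ 0 := by simp
  have h1 : (fun z => z - x) '' K = T 1 (-x) '' K := by
    apply image_congr
    intro z _
    unfold T
    rw [Matrix.one_mulVec, sub_eq_add_neg]
  have hc : IsCompact ((fun z => z - x) '' K) := hK.image (by fun_prop)
  have hv' : volume ((fun z => z - x) '' K) ≠ 0 := by
    rw [h1, T_volume hD _ hK.measurableSet]
    simpa using hv
  rw [Mp_eq hp hc hv', h1]
  have h2 := Fu_T hD (-x) hK.measurableSet hp x
  have h3 : T 1 (-x) x = 0 := by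
    unfold T
    rw [Matrix.one_mulVec]
    simp
  rw [h3] at h2
  exact h2

lemma del_vol_ne_zero : volume (Del n) ≠ 0 := by
  have hsub : Set.pi univ (fun _ : Fin n => Ioo (0 : ℝ) (1 / ((n : ℝ) + 1))) ⊆ Del n := by
    intro x hx
    have hx' : ∀ i, 0 < x i ∧ x i < 1 / ((n : ℝ) + 1) := fun i => hx i (mem_univ i)
    refine ⟨fun i => (hx' i).1.le, ?_⟩
    calc ∑ i, x i ≤ ∑ _i : Fin n, 1 / ((n : ℝ) + 1) := Finset.sum_le_sum fun i _ => (hx' i).2.le
      _ = n / ((n : ℝ) + 1) := by
          rw [Finset.sum_const, Finset.card_univ, Fintype.card_fin, nsmul_eq_mul]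
          ring
      _ ≤ 1 := by
          rw [div_le_one (by positivity)]
          linarith
  intro h
  have h1 := measure_mono_null hsub h
  rw [volume_pi_pi] at h1
  simp only [Real.volume_Ioo, sub_zero, Finset.prod_const] at h1
  have h2 : ENNReal.ofReal (1 / ((n : ℝ) + 1)) ≠ 0 :=
    (ENNReal.ofReal_pos.2 (by positivity)).ne'
  exact pow_ne_zero _ h2 h1

lemma del_vol_ne_top : volume (Del n) ≠ ∞ := del_compact.measure_ne_top

/-- the cone of directions separating `ξ` from the simplex -/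
def Cn (ξ : V n) : Set (V n) := {y | ∀ x ∈ Del n, ∑ i, x i * y i ≤ ∑ i, ξ i * y i}

lemma Cn_closed (ξ : V n) : IsClosed (Cn ξ) := by
  have : Cn ξ = ⋂ x ∈ Del n, {y : V n | ∑ i, x i * y i ≤ ∑ i, ξ i * y i} := by
    ext y
    simp [Cn]
  rw [this]
  apply isClosed_biInter
  intro x _
  exact isClosed_le (by fun_prop) (by fun_prop)

lemma Cn_nonempty {ξ : V n} (hξ : ξ ∉ Del n) :
    ∃ (y₀ : V n) (c : ℝ), 0 < c ∧ ∀ x ∈ Del n, ∑ i, x i * y₀ i + c ≤ ∑ i, ξ i * y₀ i := by
  classical
  by_cases h : ∀ i, 0 ≤ ξ i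
  · have h2 : 1 < ∑ i, ξ i := by
      by_contra hcon
      exact hξ ⟨h, not_lt.1 hcon⟩
    refine ⟨fun _ => 1, ∑ i, ξ i - 1, by linarith, fun x hx => ?_⟩
    simp only [mul_one]
    linarith [hx.2]
  · push Not at h
    obtain ⟨j, hj⟩ := h
    refine ⟨-(Pi.single j 1), -ξ j, by linarith, fun x hx => ?_⟩
    have e : ∀ z : V n, ∑ i, z i * (-(Pi.single j 1 : V n)) i = -z j := by
      intro z
      simp [Pi.single_apply]
    rw [e, e]
    linarith [hx.1 j]

lemma Cn_vol {ξ : V n} (hξ : ξ ∉ Del n) : volume (Cn ξ) = ∞ := by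
  obtain ⟨y₀, c, hc, h⟩ := Cn_nonempty hξ
  have hn : n ≠ 0 := by
    rintro rfl
    apply hξ
    exact ⟨fun i => i.elim0, by simp⟩
  -- positive volume
  set M : ℝ := (n : ℝ) + ∑ i, |ξ i| + 1 with hM
  have hMpos : 0 < M := by
    have : 0 ≤ ∑ i, |ξ i| := Finset.sum_nonneg fun i _ => abs_nonneg _
    positivity
  have hball : Metric.ball y₀ (c / M) ⊆ Cn ξ := by
    intro y hy x hx
    have hy' : ∀ i, |y i - y₀ i| ≤ c / M := by
      intro i
      have h1 : dist y y₀ < c / M := hy
      have h2 := (dist_le_pi_dist y y₀ i).trans h1.le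
      rwa [Real.dist_eq] at h2
    have hx1 : ∀ i, |x i| ≤ 1 := by
      intro i
      rw [abs_of_nonneg (hx.1 i)]
      exact (Finset.single_le_sum (fun j _ => hx.1 j) (Finset.mem_univ i)).trans hx.2
    have e1 : ∑ i, x i * y i - ∑ i, ξ i * y i =
        (∑ i, x i * y₀ i - ∑ i, ξ i * y₀ i) + ∑ i, (x i - ξ i) * (y i - y₀ i) := by
      rw [← Finset.sum_sub_distrib, ← Finset.sum_sub_distrib, ← Finset.sum_add_distrib]
      refine Finset.sum_congr rfl fun i _ => ?_
      ring
    have e2 : ∑ i, (x i - ξ i) * (y i - y₀ i) ≤ ∑ i, (1 + |ξ i|) * (c / M) := by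
      apply Finset.sum_le_sum
      intro i _
      calc (x i - ξ i) * (y i - y₀ i) ≤ |(x i - ξ i) * (y i - y₀ i)| := le_abs_self _
        _ = |x i - ξ i| * |y i - y₀ i| := abs_mul _ _
        _ ≤ (1 + |ξ i|) * (c / M) := by
            apply mul_le_mul _ (hy' i) (abs_nonneg _) (by positivity)
            calc |x i - ξ i| ≤ |x i| + |ξ i| := abs_sub _ _
              _ ≤ 1 + |ξ i| := by linarith [hx1 i]
    have e3 : ∑ i, (1 + |ξ i|) * (c / M) ≤ c := by
      rw [← Finset.sum_mul, Finset.sum_add_distrib, Finset.sum_const, Finset.card_univ,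
        Fintype.card_fin, nsmul_eq_mul, mul_one, mul_div_assoc', div_le_iff₀ hMpos]
      nlinarith
    have := h x hx
    linarith
  have hpos : volume (Cn ξ) ≠ 0 := by
    have h1 : 0 < volume (Metric.ball y₀ (c / M)) := Metric.measure_ball_pos _ _ (by positivity)
    exact (lt_of_lt_of_le h1 (measure_mono hball)).ne'
  have hsmul : (2 : ℝ) • Cn ξ = Cn ξ := by
    ext y
    constructor
    · rintro ⟨z, hz, rfl⟩
      intro x hx
      have := hz x hx
      have e : ∀ w : V n, ∑ i, w i * ((fun x => (2 : ℝ) • x) z) i = 2 * ∑ i, w i * z i := by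
        intro w
        rw [Finset.mul_sum]
        refine Finset.sum_congr rfl fun i _ => ?_
        simp only [Pi.smul_apply, smul_eq_mul]
        ring
      rw [e, e]
      linarith
    · intro hy
      refine ⟨(1 / 2 : ℝ) • y, ?_, ?_⟩
      · intro x hx
        have := hy x hx
        have e : ∀ w : V n, ∑ i, w i * ((1 / 2 : ℝ) • y) i = 1 / 2 * ∑ i, w i * y i := by
          intro w
          rw [Finset.mul_sum]
          refine Finset.sum_congr rfl fun i _ => ?_
          simp only [Pi.smul_apply, smul_eq_mul]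
          ring
        rw [e, e]
        linarith
      · show (2 : ℝ) • (1 / 2 : ℝ) • y = y
        rw [smul_smul]
        norm_num
  have h1 := Measure.addHaar_smul (volume : Measure (V n)) (2 : ℝ) (Cn ξ)
  rw [hsmul] at h1
  have h2 : Module.finrank ℝ (V n) = n := by simp
  rw [h2] at h1
  by_contra hcon
  have h3 : (volume (Cn ξ)).toReal = |(2 : ℝ) ^ n| * (volume (Cn ξ)).toReal := by
    conv_lhs => rw [h1]
    rw [ENNReal.toReal_mul, ENNReal.toReal_ofReal (abs_nonneg _)]
  have h4 : 0 < (volume (Cn ξ)).toReal := ENNReal.toReal_pos hpos hcon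
  have h5 : |(2 : ℝ) ^ n| = 1 := by
    have := mul_right_cancel₀ h4.ne' ((one_mul _).trans h3)
    exact this.symm
  rw [abs_of_pos (by positivity)] at h5
  have h6 : (1 : ℝ) < 2 ^ n := one_lt_pow₀ (by norm_num) hn
  linarith

lemma I_top_outside {p : ℝ} (hp : 0 < p) {ξ : V n} (hξ : ξ ∉ Del n) : I p (Del n) ξ = ∞ := by
  have hp' : 0 < 1 / p := by positivity
  set κ : ℝ≥0∞ := ((volume (Del n)) ^ (1 / p))⁻¹ with hκ
  have hκ0 : κ ≠ 0 := by
    rw [hκ]
    apply ENNReal.inv_ne_zero.2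
    exact ENNReal.rpow_ne_top_of_nonneg hp'.le del_vol_ne_top
  have hle : ∀ y ∈ Cn ξ, κ ≤ ENNReal.ofReal (Real.exp (∑ i, ξ i * y i)) *
      ((J p (Del n) y) ^ (1 / p))⁻¹ := by
    intro y hy
    set F := ENNReal.ofReal (Real.exp (∑ i, ξ i * y i)) with hF
    have hF0 : F ≠ 0 := (ENNReal.ofReal_pos.2 (Real.exp_pos _)).ne'
    have hFt : F ≠ ∞ := ENNReal.ofReal_ne_top
    have h1 : J p (Del n) y ≤ ENNReal.ofReal (Real.exp (p * ∑ i, ξ i * y i)) *
        volume (Del n) := by
      unfold J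
      calc ∫⁻ x in Del n, ENNReal.ofReal (Real.exp (p * ∑ i, x i * y i))
          ≤ ∫⁻ _ in Del n, ENNReal.ofReal (Real.exp (p * ∑ i, ξ i * y i)) := by
            apply setLIntegral_mono' del_compact.measurableSet
            intro x hx
            apply ENNReal.ofReal_le_ofReal
            apply Real.exp_le_exp.2
            exact mul_le_mul_of_nonneg_left (hy x hx) hp.le
        _ = _ := by simp
    have h2 : (J p (Del n) y) ^ (1 / p) ≤ F * (volume (Del n)) ^ (1 / p) := by
      calc (J p (Del n) y) ^ (1 / p) ≤ (ENNReal.ofReal (Real.exp (p * ∑ i, ξ i * y i)) *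
          volume (Del n)) ^ (1 / p) := ENNReal.rpow_le_rpow h1 hp'.le
        _ = _ := by
          rw [ENNReal.mul_rpow_of_nonneg _ _ hp'.le, ENNReal.ofReal_rpow_of_pos (Real.exp_pos _),
            ← Real.exp_mul, hF]
          congr 3
          field_simp
    calc κ = F * (F * (volume (Del n)) ^ (1 / p))⁻¹ := by
          rw [ENNReal.mul_inv (Or.inl hF0) (Or.inl hFt), ← mul_assoc,
            ENNReal.mul_inv_cancel hF0 hFt, one_mul]
      _ ≤ F * ((J p (Del n) y) ^ (1 / p))⁻¹ := by gcongr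
  rw [eq_top_iff]
  calc (∞ : ℝ≥0∞) = κ * volume (Cn ξ) := by rw [Cn_vol hξ, ENNReal.mul_top hκ0]
    _ = ∫⁻ _ in Cn ξ, κ := by simp
    _ ≤ ∫⁻ y in Cn ξ, ENNReal.ofReal (Real.exp (∑ i, ξ i * y i)) *
        ((J p (Del n) y) ^ (1 / p))⁻¹ := setLIntegral_mono' (Cn_closed ξ).measurableSet hle
    _ ≤ I p (Del n) ξ := setLIntegral_le_lintegral _ _

/-- a good compact body satisfies the inequality of the problem in every position -/
theorem main_of_good {p : ℝ} (hp : 0 < p) {K : Set (V n)} (hK : IsCompact K)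
    (hv : volume K ≠ 0) (hg : Good p K) (x : V n) :
    (⨅ z ∈ Del n, Mp p ((fun w => w - z) '' Del n)) ≤ Mp p ((fun w => w - x) '' K) := by
  rw [Mp_shift hp hK hv]
  refine le_trans ?_ (hg x)
  unfold Lam
  apply le_iInf
  intro ξ
  by_cases hξ : ξ ∈ Del n
  · rw [← Mp_shift hp del_compact del_vol_ne_zero ξ]
    exact iInf₂_le ξ hξ
  · unfold Fu
    rw [I_top_outside hp hξ, ENNReal.mul_top]
    · exact le_top
    · simp [ENNReal.rpow_eq_zero_iff, del_vol_ne_zero, del_vol_ne_top]

end Pool.Agent.H5.LP
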