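import Pool.Agent.H5.LP.B7

/-! Joins and free sums of marked bodies. -/

set_option autoImplicit false

open MeasureTheory Set Filter
open scoped ENNReal Topology Pointwise

namespace Pool.Agent.H5.LP

variable {n : ℕ}

/-- the corner simplex of a direct sum -/
lemma Corner.sup {E₁ E₂ : Submodule ℝ (V n)} (hd : Disjoint E₁ E₂) {C₁ C₂ : Set (V n)}
    (h1 : Corner E₁ C₁) (h2 : Corner E₂ C₂) : Corner (E₁ ⊔ E₂) (convexHull ℝ (C₁ ∪ C₂)) := by
  obtain ⟨κ₁, _, b₁, hb₁, hs₁, rfl⟩ := h1
  obtain ⟨κ₂, _, b₂, hb₂, hs₂, rfl⟩ := h2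
  refine ⟨κ₁ ⊕ κ₂, inferInstance, Sum.elim b₁ b₂, hb₁.sum_type hb₂ (by rw [hs₁, hs₂]; exact hd),
    ?_, ?_⟩
  · rw [Set.Sum.elim_range, Submodule.span_union, hs₁, hs₂]
  · rw [convexHull_convexHull_union_left, convexHull_convexHull_union_right, Set.Sum.elim_range]
    congr 1
    ext x
    simp only [mem_union, mem_insert_iff]
    tauto

/-- projections along a submodule -/
lemma exists_proj {E F : Submodule ℝ (V n)} (h : Disjoint E F) :
    ∃ Q : V n →ₗ[ℝ] V n, (∀ x ∈ E, Q x = x) ∧ (∀ x ∈ F, Q x = 0) ∧ ∀ x, Q x ∈ E := by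
  obtain ⟨G, hG⟩ := Submodule.exists_isCompl (E ⊔ F)
  have hc : IsCompl E (F ⊔ G) := h.isCompl_sup_right_of_isCompl_sup_left hG
  refine ⟨E.subtype.comp (Submodule.projectionOnto E (F ⊔ G) hc), ?_, ?_, ?_⟩
  · intro x hx
    have := Submodule.projectionOnto_apply_left hc ⟨x, hx⟩
    simp only [LinearMap.comp_apply, Submodule.subtype_apply]
    rw [this]
  · intro x hx
    have := Submodule.projectionOnto_apply_right hc ⟨x, Submodule.mem_sup_left hx⟩
    simp only [LinearMap.comp_apply, Submodule.subtype_apply]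
    rw [this]
    rfl
  · intro x
    exact (Submodule.projectionOnto E (F ⊔ G) hc x).2

/-- translations -/
lemma good_add_iff {p : ℝ} (hp : 0 < p) (v : V n) {A : Set (V n)} (hA : IsCompact A) :
    Good p ((fun x => x + v) '' A) ↔ Good p A := by
  have h := good_affine_iff hp (AffineEquiv.constVAdd ℝ (V n) v) hA.measurableSet
  have e : (AffineEquiv.constVAdd ℝ (V n) v) '' A = (fun x => x + v) '' A := by
    refine image_congr fun x _ => ?_
    show v +ᵥ x = x + v
    rw [vadd_eq_add, add_comm]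
  rwa [e] at h

lemma hull_add (v : V n) (A : Set (V n)) :
    (fun x => x + v) '' convexHull ℝ A = convexHull ℝ ((fun x => x + v) '' A) := by
  have h := (AffineEquiv.constVAdd ℝ (V n) v).toAffineMap.image_convexHull A
  have e : ∀ B : Set (V n), (AffineEquiv.constVAdd ℝ (V n) v).toAffineMap '' B =
      (fun x => x + v) '' B := by
    intro B
    refine image_congr fun x _ => ?_
    show v +ᵥ x = x + v
    rw [vadd_eq_add, add_comm]
  rwa [e, e] at h

/-- the induction property of marked bodies -/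
structure RA (p : ℝ) (C : Set (V n)) (o : V n) : Prop where
  cpt : IsCompact C
  cvx : Convex ℝ C
  mem : o ∈ C
  red : Red p (vectorSpan ℝ C) ((fun x => x + -o) '' C)

lemma vs_hull (A : Set (V n)) : vectorSpan ℝ (convexHull ℝ A) = vectorSpan ℝ A := by
  rw [← direction_affineSpan, affineSpan_convexHull, direction_affineSpan]

lemma shift_sub_vs {C : Set (V n)} {o : V n} (ho : o ∈ C) :
    ∀ x ∈ (fun x => x + -o) '' C, x ∈ vectorSpan ℝ C := by
  rintro _ ⟨x, hx, rfl⟩
  show x + -o ∈ _
  rw [← sub_eq_add_neg]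
  exact vsub_mem_vectorSpan ℝ hx ho

lemma span_shift {C : Set (V n)} {o : V n} (ho : o ∈ C) :
    Submodule.span ℝ ((fun x => x + -o) '' C) = vectorSpan ℝ C := by
  rw [vectorSpan_eq_span_vsub_set_right ℝ ho]
  simp only [vsub_eq_sub, sub_eq_add_neg]

lemma shift_convex {C : Set (V n)} (hC : Convex ℝ C) (v : V n) :
    Convex ℝ ((fun x => x + v) '' C) := by
  have := hC.translate v
  have e : (fun x => x + v) '' C = (fun z => v + z) '' C := by
    exact image_congr fun x _ => add_comm _ _
  rwa [e]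

theorem RA.freeSum {p : ℝ} {C D : Set (V n)} {o : V n} (hC : RA p C o)
    (hD : RA p D o) (hd : Disjoint (vectorSpan ℝ C) (vectorSpan ℝ D)) :
    RA p (convexHull ℝ (C ∪ D)) o where
  cpt := compact_hull (hC.cpt.union hD.cpt)
  cvx := convex_convexHull ℝ _
  mem := subset_convexHull ℝ _ (Or.inl hC.mem)
  red := by
    rw [vs_hull, AffineSubspace.vectorSpan_union_of_mem_of_mem ℝ hC.mem hD.mem, hull_add,
      image_union]
    set E₁ := vectorSpan ℝ C
    set E₂ := vectorSpan ℝ D
    set L₁ := (fun x => x + -o) '' C with hL₁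
    set L₂ := (fun x => x + -o) '' D with hL₂
    intro P R hPE hPE' hRc hR hR0 hRP hG
    rw [convexHull_convexHull_union_left]
    obtain ⟨Q₁, hQ₁, hQ₁', hQ₁''⟩ := exists_proj hd
    obtain ⟨Q₂, hQ₂, hQ₂', hQ₂''⟩ := exists_proj hd.symm
    have hL₂c : IsCompact L₂ := hD.cpt.image (by fun_prop)
    have h0L₂ : (0 : V n) ∈ L₂ := ⟨o, hD.mem, by simp⟩
    have e1 : convexHull ℝ (L₁ ∪ L₂ ∪ R) = convexHull ℝ (L₁ ∪ convexHull ℝ (L₂ ∪ R)) := by
      rw [convexHull_convexHull_union_right, union_assoc]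
    rw [e1]
    have hP1 : ∀ x ∈ E₁, P x = x := fun x hx => hPE x (Submodule.mem_sup_left hx)
    have hP2 : ∀ x ∈ E₂, P x = x := fun x hx => hPE x (Submodule.mem_sup_right hx)
    refine hC.red (Q₁.comp P) _ ?_ ?_ (compact_hull (hL₂c.union hRc)) (convex_convexHull ℝ _)
      (subset_convexHull ℝ _ (Or.inl h0L₂)) ?_ ?_
    · intro x hx
      rw [LinearMap.comp_apply, hP1 x hx, hQ₁ x hx]
    · intro x
      exact hQ₁'' _
    · intro x hx
      have hsub : convexHull ℝ (L₂ ∪ R) ⊆ (LinearMap.ker (Q₁.comp P) : Set (V n)) := by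
        apply convexHull_min _ (Submodule.convex _)
        rintro y (hy | hy)
        · have hyE := shift_sub_vs hD.mem y hy
          show Q₁ (P y) = 0
          rw [hP2 y hyE, hQ₁' y hyE]
        · show Q₁ (P y) = 0
          rw [hRP y hy, map_zero]
      exact hsub hx
    · intro C₁ hC₁
      obtain ⟨c1, c2, c3, c4⟩ := hC₁.props
      have e2 : convexHull ℝ (C₁ ∪ convexHull ℝ (L₂ ∪ R)) =
          convexHull ℝ (L₂ ∪ convexHull ℝ (C₁ ∪ R)) := by
        rw [convexHull_convexHull_union_right, convexHull_convexHull_union_right]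
        congr 1
        ext x
        simp only [mem_union]
        tauto
      rw [e2]
      refine hD.red (Q₂.comp P) _ ?_ ?_ (compact_hull (c1.union hRc)) (convex_convexHull ℝ _)
        (subset_convexHull ℝ _ (Or.inl c3)) ?_ ?_
      · intro x hx
        rw [LinearMap.comp_apply, hP2 x hx, hQ₂ x hx]
      · intro x
        exact hQ₂'' _
      · intro x hx
        have hsub : convexHull ℝ (C₁ ∪ R) ⊆ (LinearMap.ker (Q₂.comp P) : Set (V n)) := by
          apply convexHull_min _ (Submodule.convex _)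
          rintro y (hy | hy)
          · have hyE := c4 hy
            show Q₂ (P y) = 0
            rw [hP1 y hyE, hQ₂' y hyE]
          · show Q₂ (P y) = 0
            rw [hRP y hy, map_zero]
        exact hsub hx
      · intro C₂ hC₂
        have h3 := hG _ (hC₁.sup hd hC₂)
        have e3 : convexHull ℝ (convexHull ℝ (C₁ ∪ C₂) ∪ R) =
            convexHull ℝ (C₂ ∪ convexHull ℝ (C₁ ∪ R)) := by
          rw [convexHull_convexHull_union_right, convexHull_convexHull_union_left]
          congr 1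
          ext x
          simp only [mem_union]
          tauto
        rwa [e3] at h3

end Pool.Agent.H5.LP
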