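import Pool.Agent.H5.LP.C1

/-! Joins of marked bodies. -/

set_option autoImplicit false

open MeasureTheory Set Filter
open scoped ENNReal Topology Pointwise

namespace Pool.Agent.H5.LP

variable {n : ℕ}

lemma ins_l {A B : Set (V n)} (h : (0 : V n) ∈ A) : A ∪ insert 0 B = A ∪ B := by
  rw [union_insert]
  exact insert_eq_of_mem (Or.inl h)

lemma vs_join {C D : Set (V n)} {c d : V n} (hc : c ∈ C) (hd : d ∈ D) :
    vectorSpan ℝ (C ∪ D) = vectorSpan ℝ C ⊔ vectorSpan ℝ D ⊔ Submodule.span ℝ {d - c} := by
  rw [← direction_affineSpan, AffineSubspace.span_union,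
    AffineSubspace.direction_sup (mem_affineSpan ℝ hc) (mem_affineSpan ℝ hd),
    direction_affineSpan, direction_affineSpan, vsub_eq_sub]

section simplex

variable {E₁ E₂ : Submodule ℝ (V n)} {κ₁ κ₂ : Type} [Fintype κ₁] [Fintype κ₂]

/-- the vertices of the join of two simplices -/
def jv (b₁ : κ₁ → V n) (b₂ : κ₂ → V n) (c' d' : V n) : Option κ₁ ⊕ Option κ₂ → V n :=
  Sum.elim (fun o => o.elim c' fun k => b₁ k + c') (fun o => o.elim d' fun k => b₂ k + d')

lemma jv_sum (b₁ : κ₁ → V n) (b₂ : κ₂ → V n) (c' d' : V n) (w : Option κ₁ ⊕ Option κ₂ → ℝ) :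
    ∑ k, w k • jv b₁ b₂ c' d' k =
      (∑ k, w (Sum.inl k)) • c' + ∑ k, w (Sum.inl (some k)) • b₁ k +
      ((∑ k, w (Sum.inr k)) • d' + ∑ k, w (Sum.inr (some k)) • b₂ k) := by
  rw [Fintype.sum_sum_type]
  congr 1
  · rw [Fintype.sum_option, Fintype.sum_option]
    simp only [jv, Sum.elim_inl, Option.elim, smul_add, Finset.sum_add_distrib, add_smul,
      Finset.sum_smul]
    abel
  · rw [Fintype.sum_option, Fintype.sum_option]
    simp only [jv, Sum.elim_inr, Option.elim, smul_add, Finset.sum_add_distrib, add_smul,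
      Finset.sum_smul]
    abel

lemma jv_sx {b₁ : κ₁ → V n} {b₂ : κ₂ → V n} (hb₁ : LinearIndependent ℝ b₁)
    (hs₁ : Submodule.span ℝ (range b₁) = E₁) (hb₂ : LinearIndependent ℝ b₂)
    (hs₂ : Submodule.span ℝ (range b₂) = E₂) (hd : Disjoint E₁ E₂) {u : V n}
    (hu : u ∉ E₁ ⊔ E₂) (l : ℝ) :
    Sx (E₁ ⊔ E₂ ⊔ Submodule.span ℝ {u}) (jv b₁ b₂ (-(l • u)) ((1 - l) • u)) where
  mem := by
    have hb1 : ∀ k, b₁ k ∈ E₁ := fun k => by rw [← hs₁]; exact Submodule.subset_span ⟨k, rfl⟩
    have hb2 : ∀ k, b₂ k ∈ E₂ := fun k => by rw [← hs₂]; exact Submodule.subset_span ⟨k, rfl⟩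
    have huu : ∀ r : ℝ, r • u ∈ E₁ ⊔ E₂ ⊔ Submodule.span ℝ {u} := fun r =>
      Submodule.mem_sup_right (Submodule.smul_mem _ _ (Submodule.mem_span_singleton_self u))
    rintro ((_ | k) | (_ | k))
    · show -(l • u) ∈ _
      exact Submodule.neg_mem _ (huu l)
    · show b₁ k + -(l • u) ∈ _
      exact Submodule.add_mem _ (Submodule.mem_sup_left (Submodule.mem_sup_left (hb1 k)))
        (Submodule.neg_mem _ (huu l))
    · exact huu _
    · show b₂ k + (1 - l) • u ∈ _
      exact Submodule.add_mem _ (Submodule.mem_sup_left (Submodule.mem_sup_right (hb2 k))) (huu _)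
  ind w h0 h1 := by
    rw [jv_sum] at h1
    rw [Fintype.sum_sum_type] at h0
    set s := ∑ k, w (Sum.inl k) with hs
    set e₁ := ∑ k, w (Sum.inl (some k)) • b₁ k with he₁
    set e₂ := ∑ k, w (Sum.inr (some k)) • b₂ k with he₂
    have hs' : ∑ k, w (Sum.inr k) = -s := by linarith
    have he₁E : e₁ ∈ E₁ := by
      rw [← hs₁]
      exact Submodule.sum_mem _ fun k _ => Submodule.smul_mem _ _ (Submodule.subset_span ⟨k, rfl⟩)
    have he₂E : e₂ ∈ E₂ := by
      rw [← hs₂]
      exact Submodule.sum_mem _ fun k _ => Submodule.smul_mem _ _ (Submodule.subset_span ⟨k, rfl⟩)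
    rw [hs'] at h1
    have h2 : e₁ + e₂ = s • u := by
      have : e₁ + e₂ - s • u = 0 := by
        rw [← h1]
        module
      exact sub_eq_zero.1 this
    have hs0 : s = 0 := by
      by_contra hne
      apply hu
      have h3 : u = s⁻¹ • (e₁ + e₂) := by
        rw [h2, smul_smul, inv_mul_cancel₀ hne, one_smul]
      rw [h3]
      exact Submodule.smul_mem _ _ (Submodule.add_mem _ (Submodule.mem_sup_left he₁E)
        (Submodule.mem_sup_right he₂E))
    rw [hs0, zero_smul] at h2
    have h4 : e₁ = 0 := by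
      have h5 : e₁ ∈ E₂ := by
        have : e₁ = -e₂ := eq_neg_of_add_eq_zero_left h2
        rw [this]
        exact Submodule.neg_mem _ he₂E
      exact (Submodule.disjoint_def.1 hd) e₁ he₁E h5
    have h5 : e₂ = 0 := by
      rw [h4, zero_add] at h2
      exact h2
    have h6 := Fintype.linearIndependent_iff.1 hb₁ _ h4
    have h7 := Fintype.linearIndependent_iff.1 hb₂ _ h5
    ext k
    rcases k with (_ | k) | (_ | k)
    · have : s = w (Sum.inl none) + ∑ k, w (Sum.inl (some k)) := by rw [hs, Fintype.sum_option]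
      rw [hs0, Finset.sum_eq_zero fun k _ => h6 k, add_zero] at this
      exact this.symm
    · exact h6 k
    · rw [Fintype.sum_option, hs0, Finset.sum_eq_zero fun k _ => h7 k, add_zero, neg_zero] at hs'
      exact hs'
    · exact h7 k
  spn x hx := by
    obtain ⟨y, hy, z, hz, rfl⟩ := Submodule.mem_sup.1 hx
    obtain ⟨e₁, he₁, e₂, he₂, rfl⟩ := Submodule.mem_sup.1 hy
    obtain ⟨r, rfl⟩ := Submodule.mem_span_singleton.1 hz
    rw [← hs₁] at he₁
    rw [← hs₂] at he₂
    obtain ⟨α, rfl⟩ := (Submodule.mem_span_range_iff_exists_fun ℝ).1 he₁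
    obtain ⟨β, rfl⟩ := (Submodule.mem_span_range_iff_exists_fun ℝ).1 he₂
    set W₁ : ℝ := 1 - l - r with hW₁
    refine ⟨Sum.elim (fun o => o.elim (W₁ - ∑ k, α k) α)
      (fun o => o.elim (1 - W₁ - ∑ k, β k) β), ?_, ?_⟩
    · rw [Fintype.sum_sum_type, Fintype.sum_option, Fintype.sum_option]
      simp
    · rw [jv_sum, Fintype.sum_option, Fintype.sum_option]
      simp only [Sum.elim_inl, Sum.elim_inr, Option.elim, sub_add_cancel]
      rw [hW₁]
      module

end simplex

theorem RA.join {p : ℝ} (hp : 0 < p) {C D : Set (V n)} {c d o : V n} (hC : RA p C c)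
    (hD : RA p D d) (ho : o ∈ segment ℝ c d) (hd : Disjoint (vectorSpan ℝ C) (vectorSpan ℝ D))
    (hu : d - c ∉ vectorSpan ℝ C ⊔ vectorSpan ℝ D) :
    RA p (convexHull ℝ (C ∪ D)) o where
  cpt := compact_hull (hC.cpt.union hD.cpt)
  cvx := convex_convexHull ℝ _
  mem := by
    have h1 : c ∈ convexHull ℝ (C ∪ D) := subset_convexHull ℝ _ (Or.inl hC.mem)
    have h2 : d ∈ convexHull ℝ (C ∪ D) := subset_convexHull ℝ _ (Or.inr hD.mem)
    exact (convex_convexHull ℝ (C ∪ D)).segment_subset h1 h2 ho
  red := by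
    rw [vs_hull, vs_join hC.mem hD.mem]
    set E₁ := vectorSpan ℝ C with hE₁
    set E₂ := vectorSpan ℝ D with hE₂
    set u := d - c with hudef
    obtain ⟨a, l, ha, hl, hal, hoe⟩ := ho
    have ha' : a = 1 - l := by linarith
    subst ha'
    have hc' : c - o = -(l • u) := by
      rw [← hoe, hudef]
      module
    have hd' : d - o = (1 - l) • u := by
      rw [← hoe, hudef]
      module
    have hu1 : u ∈ E₁ ⊔ E₂ ⊔ Submodule.span ℝ {u} :=
      Submodule.mem_sup_right (Submodule.mem_span_singleton_self u)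
    intro P R hPE hPE' hRc hR hR0 hRP hG
    have hP1 : ∀ x ∈ E₁, P x = x := fun x hx =>
      hPE x (Submodule.mem_sup_left (Submodule.mem_sup_left hx))
    have hP2 : ∀ x ∈ E₂, P x = x := fun x hx =>
      hPE x (Submodule.mem_sup_left (Submodule.mem_sup_right hx))
    have hPu : P u = u := hPE u hu1
    -- the projections
    have hdis1 : Disjoint E₁ (E₂ ⊔ Submodule.span ℝ {u}) := by
      rw [Submodule.disjoint_def]
      intro x hx hx2
      obtain ⟨y, hy, z, hz, rfl⟩ := Submodule.mem_sup.1 hx2
      obtain ⟨r, rfl⟩ := Submodule.mem_span_singleton.1 hz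
      have hr : r = 0 := by
        by_contra hne
        apply hu
        have : u = r⁻¹ • ((y + r • u) + -y) := by
          rw [add_neg_cancel_comm, smul_smul, inv_mul_cancel₀ hne, one_smul]
        rw [this]
        exact Submodule.smul_mem _ _ (Submodule.add_mem _ (Submodule.mem_sup_left hx)
          (Submodule.mem_sup_right (Submodule.neg_mem _ hy)))
      rw [hr, zero_smul, add_zero] at hx ⊢
      exact (Submodule.disjoint_def.1 hd) y hx hy
    have hdis2 : Disjoint E₂ (E₁ ⊔ Submodule.span ℝ {u}) := by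
      rw [Submodule.disjoint_def]
      intro x hx hx2
      obtain ⟨y, hy, z, hz, rfl⟩ := Submodule.mem_sup.1 hx2
      obtain ⟨r, rfl⟩ := Submodule.mem_span_singleton.1 hz
      have hr : r = 0 := by
        by_contra hne
        apply hu
        have : u = r⁻¹ • ((y + r • u) + -y) := by
          rw [add_neg_cancel_comm, smul_smul, inv_mul_cancel₀ hne, one_smul]
        rw [this]
        exact Submodule.smul_mem _ _ (Submodule.add_mem _ (Submodule.mem_sup_right hx)
          (Submodule.mem_sup_left (Submodule.neg_mem _ hy)))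
      rw [hr, zero_smul, add_zero] at hx ⊢
      exact (Submodule.disjoint_def.1 hd) y hy hx
    obtain ⟨Q₁, hQ₁, hQ₁', hQ₁''⟩ := exists_proj hdis1
    obtain ⟨Q₂, hQ₂, hQ₂', hQ₂''⟩ := exists_proj hdis2
    have hQ1u : Q₁ u = 0 := hQ₁' u
      (Submodule.mem_sup_right (Submodule.mem_span_singleton_self u))
    have hQ2u : Q₂ u = 0 := hQ₂' u
      (Submodule.mem_sup_right (Submodule.mem_span_singleton_self u))
    have h0C : (0 : V n) ∈ (fun x => x + -c) '' C := ⟨c, hC.mem, by simp⟩
    have h0D : (0 : V n) ∈ (fun x => x + -d) '' D := ⟨d, hD.mem, by simp⟩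
    -- step 1
    set R₁ := convexHull ℝ (insert 0 ((fun x => x + -c) '' D ∪ (fun x => x + l • u) '' R))
      with hR₁
    have hcc : ∀ v : V n, IsCompact ((fun x => x + v) '' R) := fun v => hRc.image (by fun_prop)
    have hR₁c : IsCompact R₁ :=
      compact_hull (((hD.cpt.image (by fun_prop)).union (hcc _)).insert 0)
    have e1 : (fun x => x + l • u) '' convexHull ℝ ((fun x => x + -o) ''
        convexHull ℝ (C ∪ D) ∪ R) = convexHull ℝ ((fun x => x + -c) '' C ∪ R₁) := by
      rw [hull_add (-o), convexHull_convexHull_union_left, hull_add, hR₁,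
        convexHull_convexHull_union_right]
      congr 1
      have f1 : ∀ x : V n, x + -o + l • u = x + -c := by
        intro x
        have : l • u = -(c - o) := by rw [hc', neg_neg]
        rw [this]
        abel
      simp only [image_union, image_image, f1]
      rw [ins_l h0C, union_assoc]
    have hKc : IsCompact (convexHull ℝ ((fun x => x + -o) '' convexHull ℝ (C ∪ D) ∪ R)) :=
      compact_hull (((compact_hull (hC.cpt.union hD.cpt)).image (by fun_prop)).union hRc)
    rw [← good_add_iff hp (l • u) hKc, e1]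
    refine hC.red (Q₁.comp P) R₁ ?_ ?_ hR₁c (convex_convexHull ℝ _)
      (subset_convexHull ℝ _ (mem_insert _ _)) ?_ ?_
    · intro x hx
      rw [LinearMap.comp_apply, hP1 x hx, hQ₁ x hx]
    · intro x
      exact hQ₁'' _
    · intro x hx
      have hsub : R₁ ⊆ (LinearMap.ker (Q₁.comp P) : Set (V n)) := by
        apply convexHull_min _ (Submodule.convex _)
        rintro y (rfl | ⟨y, hy, rfl⟩ | ⟨y, hy, rfl⟩)
        · exact Submodule.zero_mem _
        · show Q₁ (P (y + -c)) = 0
          have hyE : y - d ∈ E₂ := vsub_mem_vectorSpan ℝ hy hD.mem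
          have f2 : y + -c = (y - d) + u := by rw [hudef]; abel
          rw [f2, map_add, hP2 _ hyE, hPu, map_add, hQ1u,
            hQ₁' _ (Submodule.mem_sup_left hyE), add_zero]
        · show Q₁ (P (y + l • u)) = 0
          rw [map_add, hRP y hy, map_smul, hPu, zero_add, map_smul, hQ1u, smul_zero]
      exact hsub hx
    intro C₁ hC₁
    obtain ⟨c1, c2, c3, c4⟩ := hC₁.props
    -- step 2
    set R₂ := convexHull ℝ (insert 0 ((fun x => x + -u) '' C₁ ∪
      (fun x => x + -((1 - l) • u)) '' R)) with hR₂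
    have hR₂c : IsCompact R₂ :=
      compact_hull (((c1.image (by fun_prop)).union (hcc _)).insert 0)
    have e2 : (fun x => x + -u) '' convexHull ℝ (C₁ ∪ R₁) =
        convexHull ℝ ((fun x => x + -d) '' D ∪ R₂) := by
      rw [hR₁, convexHull_convexHull_union_right, hull_add, hR₂,
        convexHull_convexHull_union_right]
      congr 1
      have f1 : ∀ x : V n, x + -c + -u = x + -d := by
        intro x
        rw [hudef]
        abel
      have f2 : ∀ x : V n, x + l • u + -u = x + -((1 - l) • u) := by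
        intro x
        module
      rw [ins_l c3, ins_l h0D]
      simp only [image_union, image_image, f1, f2]
      ext x
      simp only [mem_union]
      tauto
    have hKc2 : IsCompact (convexHull ℝ (C₁ ∪ R₁)) := compact_hull (c1.union hR₁c)
    rw [← good_add_iff hp (-u) hKc2, e2]
    refine hD.red (Q₂.comp P) R₂ ?_ ?_ hR₂c (convex_convexHull ℝ _)
      (subset_convexHull ℝ _ (mem_insert _ _)) ?_ ?_
    · intro x hx
      rw [LinearMap.comp_apply, hP2 x hx, hQ₂ x hx]
    · intro x
      exact hQ₂'' _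
    · intro x hx
      have hsub : R₂ ⊆ (LinearMap.ker (Q₂.comp P) : Set (V n)) := by
        apply convexHull_min _ (Submodule.convex _)
        rintro y (rfl | ⟨y, hy, rfl⟩ | ⟨y, hy, rfl⟩)
        · exact Submodule.zero_mem _
        · show Q₂ (P (y + -u)) = 0
          have hyE : y ∈ E₁ := c4 hy
          rw [map_add, hP1 _ hyE, map_neg, hPu, map_add, map_neg, hQ2u,
            hQ₂' _ (Submodule.mem_sup_left hyE), neg_zero, add_zero]
        · show Q₂ (P (y + -((1 - l) • u))) = 0
          rw [map_add, hRP y hy, map_neg, map_smul, hPu, zero_add, map_neg, map_smul, hQ2u,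
            smul_zero, neg_zero]
      exact hsub hx
    intro C₂ hC₂
    obtain ⟨d1, d2, d3, d4⟩ := hC₂.props
    -- step 3
    obtain ⟨κ₁, _, b₁, hb₁, hs₁, hC₁e⟩ := hC₁
    obtain ⟨κ₂, _, b₂, hb₂, hs₂, hC₂e⟩ := hC₂
    have hSx := jv_sx hb₁ hs₁ hb₂ hs₂ hd hu l
    set a := jv b₁ b₂ (-(l • u)) ((1 - l) • u) with haj
    have hra : range a = insert (-(l • u)) (range fun k => b₁ k + -(l • u)) ∪
        insert ((1 - l) • u) (range fun k => b₂ k + (1 - l) • u) := by
      rw [haj]
      unfold jv
      rw [Set.Sum.elim_range]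
      congr 1
      · ext x
        constructor
        · rintro ⟨(_ | k), rfl⟩
          · exact mem_insert _ _
          · exact mem_insert_of_mem _ ⟨k, rfl⟩
        · rintro (rfl | ⟨k, rfl⟩)
          · exact ⟨none, rfl⟩
          · exact ⟨some k, rfl⟩
      · ext x
        constructor
        · rintro ⟨(_ | k), rfl⟩
          · exact mem_insert _ _
          · exact mem_insert_of_mem _ ⟨k, rfl⟩
        · rintro (rfl | ⟨k, rfl⟩)
          · exact ⟨none, rfl⟩
          · exact ⟨some k, rfl⟩
    have h0a : (0 : V n) ∈ convexHull ℝ (range a) := by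
      have m1 : -(l • u) ∈ convexHull ℝ (range a) := subset_convexHull ℝ _ (by
        rw [hra]; exact Or.inl (mem_insert _ _))
      have m2 : (1 - l) • u ∈ convexHull ℝ (range a) := subset_convexHull ℝ _ (by
        rw [hra]; exact Or.inr (mem_insert _ _))
      have m3 := (convex_convexHull ℝ (range a)) m1 m2 ha hl hal
      have f3 : (1 - l) • -(l • u) + l • (1 - l) • u = 0 := by module
      rwa [f3] at m3
    have hfin := red_simplex hp hSx h0a P R hPE hPE' hRc hR hR0 hRP hG
    have e3 : (fun x => x + (1 - l) • u) '' convexHull ℝ (C₂ ∪ R₂) =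
        convexHull ℝ (convexHull ℝ (range a) ∪ R) := by
      rw [hR₂, convexHull_convexHull_union_right, ins_l d3,
        hull_add, convexHull_convexHull_union_left, hra]
      have f1 : ∀ x : V n, x + -u + (1 - l) • u = x + -(l • u) := by
        intro x
        module
      have f2 : ∀ x : V n, x + -((1 - l) • u) + (1 - l) • u = x := by
        intro x
        abel
      simp only [image_union, image_image, f1, f2, image_id']
      have g1 : (fun x => x + -(l • u)) '' C₁ =
          convexHull ℝ (insert (-(l • u)) (range fun k => b₁ k + -(l • u))) := by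
        rw [hC₁e, hull_add, image_insert_eq, zero_add, ← range_comp]
        rfl
      have g2 : (fun x => x + (1 - l) • u) '' C₂ =
          convexHull ℝ (insert ((1 - l) • u) (range fun k => b₂ k + (1 - l) • u)) := by
        rw [hC₂e, hull_add, image_insert_eq, zero_add, ← range_comp]
        rfl
      rw [g1, g2, convexHull_convexHull_union_left, union_left_comm,
        convexHull_convexHull_union_left]
      congr 1
      ext x
      simp only [mem_union]
      tauto
    have hKc3 : IsCompact (convexHull ℝ (C₂ ∪ R₂)) := compact_hull (d1.union hR₂c)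
    rw [← good_add_iff hp ((1 - l) • u) hKc3, e3]
    exact hfin

end Pool.Agent.H5.LP
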