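import Pool.Agent.H5.LP.C2

/-! The class of bodies built from planar bodies and polytopes with few vertices. -/

set_option autoImplicit false

open MeasureTheory Set Filter
open scoped ENNReal Topology Pointwise

namespace Pool.Agent.H5.LP

variable {n : ℕ}

/-- bodies with a marked point, built by joins and free sums from bodies of dimension at most
two and polytopes with at most `dim + 2` vertices -/
inductive Built : Set (V n) → V n → Prop
  | planar (C : Set (V n)) (o : V n) : IsCompact C → Convex ℝ C → o ∈ C →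
      Module.finrank ℝ (vectorSpan ℝ C) ≤ 2 → Built C o
  | few (S : Finset (V n)) (o : V n) : o ∈ convexHull ℝ (S : Set (V n)) →
      S.card ≤ Module.finrank ℝ (vectorSpan ℝ (S : Set (V n))) + 2 →
      Built (convexHull ℝ (S : Set (V n))) o
  | freeSum (C D : Set (V n)) (o : V n) : Built C o → Built D o →
      Disjoint (vectorSpan ℝ C) (vectorSpan ℝ D) → Built (convexHull ℝ (C ∪ D)) o
  | join (C D : Set (V n)) (c d o : V n) : Built C c → Built D d → o ∈ segment ℝ c d →
      Disjoint (vectorSpan ℝ C) (vectorSpan ℝ D) →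
      d - c ∉ vectorSpan ℝ C ⊔ vectorSpan ℝ D → Built (convexHull ℝ (C ∪ D)) o

/-- compact convex sets on a line through the origin are hulls of two points -/
lemma line_hull {L : Set (V n)} (hLc : IsCompact L) (hL : Convex ℝ L) (h0 : (0 : V n) ∈ L)
    (hd : Module.finrank ℝ (Submodule.span ℝ L) ≤ 1) :
    ∃ a b : V n, L = convexHull ℝ ({a, b} : Set (V n)) := by
  obtain ⟨⟨v, hv⟩, hvs⟩ := finrank_le_one_iff.1 hd
  have hvs' : ∀ x ∈ L, ∃ c : ℝ, c • v = x := by
    intro x hx
    obtain ⟨c, hc⟩ := hvs ⟨x, Submodule.subset_span hx⟩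
    exact ⟨c, congrArg Subtype.val hc⟩
  by_cases hv0 : v = 0
  · refine ⟨0, 0, ?_⟩
    rw [pair_eq_singleton, convexHull_singleton]
    apply Subset.antisymm
    · intro x hx
      obtain ⟨c, hc⟩ := hvs' x hx
      rw [hv0, smul_zero] at hc
      exact hc.symm
    · rintro x rfl
      exact h0
  · set f : ℝ → V n := fun c => c • v with hf
    have hfc : Continuous f := by fun_prop
    have hC : IsCompact (f ⁻¹' L) := by
      apply Metric.isCompact_of_isClosed_isBounded (hLc.isClosed.preimage hfc)
      obtain ⟨M, hM⟩ := hLc.isBounded.exists_norm_le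
      rw [isBounded_iff_forall_norm_le]
      refine ⟨M / ‖v‖, fun c hc => ?_⟩
      have h1 := hM _ hc
      rw [hf] at h1
      simp only [norm_smul] at h1
      rw [le_div_iff₀ (norm_pos_iff.2 hv0)]
      exact h1
    have hne : (f ⁻¹' L).Nonempty := ⟨0, by show (0 : ℝ) • v ∈ L; rw [zero_smul]; exact h0⟩
    have ha := hC.sInf_mem hne
    have hb := hC.sSup_mem hne
    set a := sInf (f ⁻¹' L)
    set b := sSup (f ⁻¹' L)
    refine ⟨f a, f b, ?_⟩
    apply Subset.antisymm
    · intro x hx
      obtain ⟨c, hc⟩ := hvs' x hx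
      have hcm : c ∈ f ⁻¹' L := by
        show c • v ∈ L
        rw [hc]; exact hx
      have h1 : a ≤ c := csInf_le hC.bddBelow hcm
      have h2 : c ≤ b := le_csSup hC.bddAbove hcm
      have h3 : c ∈ convexHull ℝ ({a, b} : Set ℝ) := by
        rw [convexHull_pair, segment_eq_Icc (h1.trans h2)]
        exact ⟨h1, h2⟩
      have h4 := (LinearMap.toSpanSingleton ℝ (V n) v).image_convexHull ({a, b} : Set ℝ)
      have h5 : (LinearMap.toSpanSingleton ℝ (V n) v) '' ({a, b} : Set ℝ) = {f a, f b} := by
        rw [image_pair]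
        rfl
      rw [h5] at h4
      rw [← h4]
      exact ⟨c, h3, hc⟩
    · apply convexHull_min _ hL
      rintro x (rfl | rfl)
      · exact ha
      · exact hb

lemma RA.planar {p : ℝ} (hp : 0 < p) {C : Set (V n)} {o : V n} (hC : IsCompact C)
    (hCv : Convex ℝ C) (ho : o ∈ C) (hd : Module.finrank ℝ (vectorSpan ℝ C) ≤ 2) : RA p C o where
  cpt := hC
  cvx := hCv
  mem := ho
  red := by
    classical
    have hs := span_shift ho
    have hLc : IsCompact ((fun x => x + -o) '' C) := hC.image (by fun_prop)
    have hL := shift_convex hCv (-o)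
    have h0 : (0 : V n) ∈ (fun x => x + -o) '' C := ⟨o, ho, by simp⟩
    by_cases h2 : Module.finrank ℝ (vectorSpan ℝ C) = 2
    · exact red_planar hp hLc hL h0 hs h2
    · have h1 : Module.finrank ℝ (vectorSpan ℝ C) ≤ 1 := by omega
      obtain ⟨a, b, hab⟩ := line_hull hLc hL h0 (by rw [hs]; exact h1)
      rw [hab] at h0 hs ⊢
      have e : ({a, b} : Set (V n)) = (({a, b} : Finset (V n)) : Set (V n)) := by simp
      rw [e] at h0 hs ⊢
      refine red_few hp h0 ?_ ?_
      · rw [← hs]
        apply le_antisymm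
        · exact Submodule.span_mono (subset_convexHull ℝ _)
        · rw [Submodule.span_le]
          exact convexHull_min Submodule.subset_span (Submodule.convex _)
      · exact (Finset.card_le_two).trans (by omega)

lemma RA.few {p : ℝ} (hp : 0 < p) {S : Finset (V n)} {o : V n}
    (ho : o ∈ convexHull ℝ (S : Set (V n)))
    (hcard : S.card ≤ Module.finrank ℝ (vectorSpan ℝ (S : Set (V n))) + 2) :
    RA p (convexHull ℝ (S : Set (V n))) o where
  cpt := S.finite_toSet.isCompact_convexHull ℝ
  cvx := convex_convexHull ℝ _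
  mem := ho
  red := by
    classical
    have hs := span_shift ho
    rw [vs_hull] at hs ⊢
    have h0 : (0 : V n) ∈ (fun x => x + -o) '' convexHull ℝ (S : Set (V n)) := ⟨o, ho, by simp⟩
    rw [hull_add] at h0 hs ⊢
    have e : (fun x => x + -o) '' (S : Set (V n)) =
        ((S.image fun x => x + -o : Finset (V n)) : Set (V n)) := by
      rw [Finset.coe_image]
    rw [e] at h0 hs ⊢
    refine red_few hp h0 ?_ ?_
    · rw [← hs]
      apply le_antisymm
      · exact Submodule.span_mono (subset_convexHull ℝ _)
      · rw [Submodule.span_le]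
        exact convexHull_min Submodule.subset_span (Submodule.convex _)
    · exact Finset.card_image_le.trans hcard

theorem Built.ra {p : ℝ} (hp : 0 < p) {C : Set (V n)} {o : V n} (h : Built C o) : RA p C o := by
  induction h with
  | planar C o hC hCv ho hd => exact RA.planar hp hC hCv ho hd
  | few S o ho hcard => exact RA.few hp ho hcard
  | freeSum C D o _ _ hd ih1 ih2 => exact ih1.freeSum ih2 hd
  | join C D c d o _ _ ho hd hu ih1 ih2 => exact ih1.join hp ih2 ho hd hu

lemma good_corner_top {p : ℝ} (hp : 0 < p) {C : Set (V n)} (h : Corner ⊤ C) : Good p C := by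
  obtain ⟨κ, _, b, hb, hs, rfl⟩ := h
  have h1 := good_basis hp (Module.Basis.mk hb hs.ge)
  rwa [Module.Basis.coe_mk] at h1

lemma RA.good {p : ℝ} (hp : 0 < p) {C : Set (V n)} {o : V n} (h : RA p C o)
    (ht : vectorSpan ℝ C = ⊤) : Good p C := by
  have h1 := h.red LinearMap.id {0} (fun _ _ => rfl) (fun x => by rw [ht]; trivial)
    isCompact_singleton (convex_singleton 0) rfl (by rintro x rfl; rfl) (by
      intro C₁ hC₁
      obtain ⟨c1, c2, c3, c4⟩ := hC₁.props
      rw [ht] at hC₁
      rw [union_eq_self_of_subset_right (singleton_subset_iff.2 c3), c2.convexHull_eq]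
      exact good_corner_top hp hC₁)
  have h0 : (0 : V n) ∈ (fun x => x + -o) '' C := ⟨o, h.mem, by simp⟩
  rw [union_eq_self_of_subset_right (singleton_subset_iff.2 h0),
    (shift_convex h.cvx (-o)).convexHull_eq] at h1
  exact (good_add_iff hp (-o) h.cpt).1 h1

theorem built_main {p : ℝ} (hp : 0 < p) {K : Set (V n)} {o : V n} (h : Built K o)
    (hi : (interior K).Nonempty) (x : V n) :
    (⨅ z ∈ Del n, Mp p ((fun w => w - z) '' Del n)) ≤ Mp p ((fun w => w - x) '' K) := by
  have hra := h.ra hp
  have ht : vectorSpan ℝ K = ⊤ := by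
    have h1 := (hra.cvx.interior_nonempty_iff_affineSpan_eq_top).1 hi
    rw [← direction_affineSpan, h1, AffineSubspace.direction_top]
  have hv : volume K ≠ 0 := by
    have : 0 < volume (interior K) := isOpen_interior.measure_pos volume hi
    exact (lt_of_lt_of_le this (measure_mono interior_subset)).ne'
  exact main_of_good hp hra.cpt hv (hra.good hp ht) x

theorem few_main {p : ℝ} (hp : 0 < p) {S : Finset (V n)} (hS : S.card ≤ n + 2)
    (hi : (interior (convexHull ℝ (S : Set (V n)))).Nonempty) (x : V n) :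
    (⨅ z ∈ Del n, Mp p ((fun w => w - z) '' Del n)) ≤
      Mp p ((fun w => w - x) '' convexHull ℝ (S : Set (V n))) := by
  obtain ⟨o, ho⟩ := hi
  refine built_main hp (Built.few S o (interior_subset ho) ?_) ⟨o, ho⟩ x
  have h1 := ((convex_convexHull ℝ (S : Set (V n))).interior_nonempty_iff_affineSpan_eq_top).1
    ⟨o, ho⟩
  have h2 : vectorSpan ℝ (S : Set (V n)) = ⊤ := by
    rw [← vs_hull, ← direction_affineSpan, h1, AffineSubspace.direction_top]
  rw [h2, finrank_top]
  simpa using hS

end Pool.Agent.H5.LP
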